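import Pool.Agent.Pal.Basic

/-!
# A large sieve inequality for points in distinct cells
-/

namespace Pool.Agent.Pal

open Finset

lemma sum_inv_sq_le (M : ℕ) : ∑ n ∈ Ico 1 M, (1 : ℝ) / (n : ℝ) ^ 2 ≤ 2 := by
  rcases Nat.lt_or_ge M 2 with h | h
  · rw [Ico_eq_empty (by omega)]; norm_num
  · have h1 : Ico 1 M = insert 1 (Ioc 1 (M - 1)) := by
      ext n; simp only [mem_Ico, mem_insert, mem_Ioc]; omega
    rw [h1, sum_insert (by simp)]
    have h2 := sum_Ioc_inv_sq_le_sub (α := ℝ) (k := 1) (n := M - 1) one_ne_zero (by omega)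
    have h3 : ∑ n ∈ Ioc 1 (M - 1), (1 : ℝ) / (n : ℝ) ^ 2 = ∑ i ∈ Ioc 1 (M - 1), ((i : ℝ) ^ 2)⁻¹ :=
      sum_congr rfl fun n _ => one_div _
    rw [h3]
    have h4 : (0 : ℝ) ≤ ((M - 1 : ℕ) : ℝ)⁻¹ := by positivity
    push_cast at h2 h4 ⊢
    norm_num at h2 ⊢
    linarith

/-- Sums over `c' ≠ c` of a function of `|c - c'|`. -/
lemma sum_dist_le (M c : ℕ) (hc : c < M) (g : ℕ → ℝ) (hg : ∀ n, 0 ≤ g n) :
    ∑ c' ∈ (range M).erase c, g (Nat.dist c c') ≤ 2 * ∑ n ∈ Ico 1 M, g n := by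
  have hsplit : (range M).erase c = (range c) ∪ (Ioo c M) := by
    ext n; simp only [mem_erase, mem_range, mem_union, mem_Ioo]; omega
  have hdisj : Disjoint (range c) (Ioo c M) := by
    rw [Finset.disjoint_left]; intro n; simp only [mem_range, mem_Ioo]; omega
  rw [hsplit, sum_union hdisj, two_mul]
  refine add_le_add ?_ ?_
  · have h1 : ∑ x ∈ range c, g (Nat.dist c x) = ∑ n ∈ (range c).image (fun x => c - x), g n := by
      rw [sum_image]
      · refine sum_congr rfl fun x hx => ?_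
        rw [mem_range] at hx
        rw [Nat.dist_eq_sub_of_le_right hx.le]
      · intro x hx y hy h
        simp only [coe_range, Set.mem_Iio] at hx hy
        simp only at h
        omega
    rw [h1]
    refine sum_le_sum_of_subset_of_nonneg ?_ fun n _ _ => hg n
    intro n hn
    simp only [mem_image, mem_range] at hn
    obtain ⟨x, hx, rfl⟩ := hn
    rw [mem_Ico]; omega
  · have h1 : ∑ x ∈ Ioo c M, g (Nat.dist c x) = ∑ n ∈ (Ioo c M).image (fun x => x - c), g n := by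
      rw [sum_image]
      · refine sum_congr rfl fun x hx => ?_
        rw [mem_Ioo] at hx
        rw [Nat.dist_eq_sub_of_le hx.1.le]
      · intro x hx y hy h
        simp only [coe_Ioo, Set.mem_Ioo] at hx hy
        simp only at h
        omega
    rw [h1]
    refine sum_le_sum_of_subset_of_nonneg ?_ fun n _ _ => hg n
    intro n hn
    simp only [mem_image, mem_Ioo] at hn
    obtain ⟨x, hx, rfl⟩ := hn
    rw [mem_Ico]; omega

/-- Decay of the kernel between different cells. -/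
lemma kernel_le {M : ℕ} {c c' : ℕ} (hc : c < M) (hc' : c' < M) (hne : c ≠ c') {p q : ℝ}
    (hp1 : (c : ℝ) ≤ M * p) (hp2 : M * p < c + 1) (hq1 : (c' : ℝ) ≤ M * q) (hq2 : M * q < c' + 1) :
    ‖dir (2 * M) (p - q)‖ ^ 2 ≤ 4 * (M : ℝ) ^ 2 *
      (1 / (Nat.dist c c' : ℝ) ^ 2 + 1 / ((M - Nat.dist c c' : ℕ) : ℝ) ^ 2) := by
  set t := Nat.dist c c' with ht
  have htpos : 1 ≤ t := by
    rw [ht]; unfold Nat.dist; omega
  have htM : t + 1 ≤ M := by
    rw [ht]; unfold Nat.dist; omega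
  have hM0 : (0 : ℝ) < M := by exact_mod_cast (by omega : 0 < M)
  have ht0 : (0 : ℝ) < t := by exact_mod_cast htpos
  have hMt : ((M - t : ℕ) : ℝ) = (M : ℝ) - t := by push_cast [Nat.cast_sub (by omega : t ≤ M)]; ring
  have hMt1 : (1 : ℝ) ≤ (M : ℝ) - t := by
    have : ((t + 1 : ℕ) : ℝ) ≤ M := by exact_mod_cast htM
    push_cast at this; linarith
  rw [hMt]
  have hnormle : ‖dir (2 * M) (p - q)‖ ≤ 2 * M := by
    have := norm_dir_le (2 * M) (p - q)
    push_cast at this; exact this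
  have hn0 := norm_nonneg (dir (2 * M) (p - q))
  -- distance
  have hdist : |(M : ℝ) * (p - q)| ≤ t + 1 ∧ (t : ℝ) - 1 ≤ |(M : ℝ) * (p - q)| := by
    have hcc : |((c : ℝ) - c')| = t := by
      rw [ht]
      rcases le_total c c' with h | h
      · rw [Nat.dist_eq_sub_of_le h, abs_sub_comm, abs_of_nonneg (by
          have : (c : ℝ) ≤ c' := by exact_mod_cast h
          linarith)]
        push_cast [Nat.cast_sub h]; ring
      · rw [Nat.dist_eq_sub_of_le_right h, abs_of_nonneg (by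
          have : (c' : ℝ) ≤ c := by exact_mod_cast h
          linarith)]
        push_cast [Nat.cast_sub h]; ring
    have h1 : |(M : ℝ) * (p - q) - ((c : ℝ) - c')| ≤ 1 := by
      rw [abs_le]; constructor <;> nlinarith
    constructor
    · have := abs_sub_abs_le_abs_sub ((M : ℝ) * (p - q)) ((c : ℝ) - c')
      linarith
    · have := abs_sub_abs_le_abs_sub ((c : ℝ) - c') ((M : ℝ) * (p - q))
      rw [abs_sub_comm ((c : ℝ) - c') ((M : ℝ) * (p - q))] at this
      linarith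
  rw [abs_mul, abs_of_pos hM0] at hdist
  rcases Nat.lt_or_ge t 2 with h2 | h2
  · -- t = 1
    have ht1 : (t : ℝ) = 1 := by
      have : t = 1 := by omega
      rw [this]; norm_num
    have h3 : (0 : ℝ) ≤ 1 / ((M : ℝ) - t) ^ 2 := by positivity
    rw [ht1] at h3 ⊢
    have h4 : ‖dir (2 * M) (p - q)‖ ^ 2 ≤ (2 * M) ^ 2 := pow_le_pow_left₀ hn0 hnormle 2
    nlinarith [sq_nonneg (M : ℝ)]
  · rcases Nat.lt_or_ge (M - t) 2 with h3 | h3
    · have hMt2 : (M : ℝ) - t = 1 := by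
        have : M - t = 1 := by omega
        rw [← hMt, this]; norm_num
      have h5 : (0 : ℝ) ≤ 1 / (t : ℝ) ^ 2 := by positivity
      rw [hMt2]
      have h4 : ‖dir (2 * M) (p - q)‖ ^ 2 ≤ (2 * M) ^ 2 := pow_le_pow_left₀ hn0 hnormle 2
      nlinarith [sq_nonneg (M : ℝ)]
    · have ht2 : (2 : ℝ) ≤ t := by exact_mod_cast h2
      have hMt2 : (2 : ℝ) ≤ (M : ℝ) - t := by
        rw [← hMt]; exact_mod_cast h3
      -- lower bound for the distance to the integers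
      have hd1 : (t : ℝ) / (2 * M) ≤ |p - q| := by
        rw [div_le_iff₀ (by positivity)]
        nlinarith [hdist.2]
      have hd2 : ((M : ℝ) - t) / (2 * M) ≤ 1 - |p - q| := by
        rw [div_le_iff₀ (by positivity)]
        nlinarith [hdist.1]
      have hle1 : |p - q| ≤ 1 := by
        have : (0 : ℝ) ≤ ((M : ℝ) - t) / (2 * M) := by positivity
        linarith
      have h6 := four_mul_min_le_norm (p - q) hle1
      have h7 := norm_dir_mul_le (2 * M) (p - q)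
      set e := ‖ex (p - q) - 1‖ with he
      set s := ‖dir (2 * M) (p - q)‖ with hs
      rcases le_total |p - q| (1 - |p - q|) with h8 | h8
      · rw [min_eq_left h8] at h6
        have h9 : s * (2 * t / M) ≤ 2 := by
          refine le_trans (mul_le_mul_of_nonneg_left ?_ hn0) h7
          calc 2 * (t : ℝ) / M = 4 * (t / (2 * M)) := by field_simp; ring
            _ ≤ 4 * |p - q| := by linarith
            _ ≤ e := h6
        have h10 : s * t ≤ M := by
          have : s * (2 * t / M) * M = 2 * (s * t) := by field_simp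
          nlinarith
        have h11 : s ^ 2 ≤ M ^ 2 * (1 / (t : ℝ) ^ 2) := by
          rw [mul_one_div, le_div_iff₀ (by positivity), ← mul_pow]
          exact pow_le_pow_left₀ (by positivity) h10 2
        have h12 : (0 : ℝ) ≤ (M : ℝ) ^ 2 * (1 / ((M : ℝ) - t) ^ 2) := by positivity
        have h13 : (0 : ℝ) ≤ (M : ℝ) ^ 2 * (1 / (t : ℝ) ^ 2) := by positivity
        nlinarith
      · rw [min_eq_right h8] at h6
        have h9 : s * (2 * ((M : ℝ) - t) / M) ≤ 2 := by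
          refine le_trans (mul_le_mul_of_nonneg_left ?_ hn0) h7
          calc 2 * ((M : ℝ) - t) / M = 4 * (((M : ℝ) - t) / (2 * M)) := by field_simp; ring
            _ ≤ 4 * (1 - |p - q|) := by linarith
            _ ≤ e := h6
        have h10 : s * ((M : ℝ) - t) ≤ M := by
          have : s * (2 * ((M : ℝ) - t) / M) * M = 2 * (s * ((M : ℝ) - t)) := by field_simp
          nlinarith
        have h11 : s ^ 2 ≤ M ^ 2 * (1 / ((M : ℝ) - t) ^ 2) := by
          rw [mul_one_div, le_div_iff₀ (by positivity), ← mul_pow]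
          exact pow_le_pow_left₀ (mul_nonneg hn0 (by linarith)) h10 2
        have h12 : (0 : ℝ) ≤ (M : ℝ) ^ 2 * (1 / ((M : ℝ) - t) ^ 2) := by positivity
        have h13 : (0 : ℝ) ≤ (M : ℝ) ^ 2 * (1 / (t : ℝ) ^ 2) := by positivity
        nlinarith

/-- Row sums of the kernel. -/
lemma kernel_row {I : Type*} [DecidableEq I] {M : ℕ} (hM : 0 < M) (t : Finset I) (cell : I → ℕ)
    (hinj : Set.InjOn cell t) (hcM : ∀ i ∈ t, cell i < M) (p : I → ℝ)
    (hp1 : ∀ i ∈ t, (cell i : ℝ) ≤ M * p i) (hp2 : ∀ i ∈ t, M * p i < cell i + 1) {i : I}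
    (hi : i ∈ t) : ∑ i' ∈ t, ‖dir (2 * M) (p i - p i')‖ ^ 2 ≤ 36 * (M : ℝ) ^ 2 := by
  rw [← Finset.add_sum_erase _ _ hi]
  have hM0 : (0 : ℝ) < M := by exact_mod_cast hM
  have h0 : ‖dir (2 * M) (p i - p i)‖ ^ 2 ≤ 4 * (M : ℝ) ^ 2 := by
    have := norm_dir_le (2 * M) (p i - p i)
    push_cast at this
    nlinarith [norm_nonneg (dir (2 * M) (p i - p i))]
  set g1 : ℕ → ℝ := fun n => 1 / (n : ℝ) ^ 2 with hg1
  set g2 : ℕ → ℝ := fun n => 1 / ((M - n : ℕ) : ℝ) ^ 2 with hg2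
  have h1 : ∑ i' ∈ t.erase i, ‖dir (2 * M) (p i - p i')‖ ^ 2 ≤
      4 * (M : ℝ) ^ 2 * ∑ c' ∈ (range M).erase (cell i), (g1 (Nat.dist (cell i) c') +
        g2 (Nat.dist (cell i) c')) := by
    have h2 : ∑ i' ∈ t.erase i, ‖dir (2 * M) (p i - p i')‖ ^ 2 ≤
        ∑ i' ∈ t.erase i, 4 * (M : ℝ) ^ 2 * (g1 (Nat.dist (cell i) (cell i')) +
          g2 (Nat.dist (cell i) (cell i'))) := by
      refine sum_le_sum fun i' hi' => ?_
      have hi't := mem_of_mem_erase hi'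
      have hne : cell i ≠ cell i' := fun h => (mem_erase.mp hi').1 (hinj hi hi't h).symm
      exact kernel_le (hcM i hi) (hcM i' hi't) hne (hp1 i hi) (hp2 i hi) (hp1 i' hi't) (hp2 i' hi't)
    refine h2.trans ?_
    rw [← Finset.mul_sum]
    refine mul_le_mul_of_nonneg_left ?_ (by positivity)
    have h3 : ∑ i' ∈ t.erase i, (g1 (Nat.dist (cell i) (cell i')) +
        g2 (Nat.dist (cell i) (cell i'))) = ∑ c' ∈ (t.erase i).image cell,
        (g1 (Nat.dist (cell i) c') + g2 (Nat.dist (cell i) c')) := by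
      rw [sum_image]
      intro x hx y hy h
      exact hinj (mem_of_mem_erase hx) (mem_of_mem_erase hy) h
    rw [h3]
    refine sum_le_sum_of_subset_of_nonneg ?_ fun n _ _ => by positivity
    intro n hn
    obtain ⟨x, hx, rfl⟩ := mem_image.mp hn
    rw [mem_erase, mem_range]
    exact ⟨fun h => (mem_erase.mp hx).1 (hinj (mem_of_mem_erase hx) hi h),
      hcM x (mem_of_mem_erase hx)⟩
  rw [sum_add_distrib] at h1
  have h4 := sum_dist_le M (cell i) (hcM i hi) g1 (fun n => by positivity)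
  have h5 := sum_dist_le M (cell i) (hcM i hi) g2 (fun n => by positivity)
  have h6 : ∑ n ∈ Ico 1 M, g1 n ≤ 2 := sum_inv_sq_le M
  have h7 : ∑ n ∈ Ico 1 M, g2 n ≤ 2 := by
    refine le_trans (le_of_eq ?_) (sum_inv_sq_le M)
    refine Finset.sum_nbij' (fun n => M - n) (fun n => M - n) ?_ ?_ ?_ ?_ ?_
    · intro n hn; rw [mem_Ico] at hn ⊢; omega
    · intro n hn; rw [mem_Ico] at hn ⊢; omega
    · intro n hn; rw [mem_Ico] at hn; omega
    · intro n hn; rw [mem_Ico] at hn; omega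
    · intro n _; rfl
  have h8 : 4 * (M : ℝ) ^ 2 * (∑ c' ∈ (range M).erase (cell i), g1 (Nat.dist (cell i) c') +
      ∑ c' ∈ (range M).erase (cell i), g2 (Nat.dist (cell i) c')) ≤ 4 * (M : ℝ) ^ 2 * 8 := by
    refine mul_le_mul_of_nonneg_left ?_ (by positivity)
    linarith
  linarith

/-- **Large sieve** for points in distinct cells of length `1/M`. -/
theorem large_sieve {I J : Type*} [DecidableEq I] [DecidableEq J] {M : ℕ} (hM : 0 < M)
    (s : Finset J) (f : J → ℕ)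
    (hf : Set.InjOn f s) (hfM : ∀ j ∈ s, f j < M) (a : J → ℂ) (t : Finset I) (cell : I → ℕ)
    (hinj : Set.InjOn cell t) (hcM : ∀ i ∈ t, cell i < M) (p : I → ℝ)
    (hp1 : ∀ i ∈ t, (cell i : ℝ) ≤ M * p i) (hp2 : ∀ i ∈ t, M * p i < cell i + 1) :
    ∑ i ∈ t, ‖∑ j ∈ s, a j * ex (f j * p i)‖ ^ 2 ≤ 36 * M * ∑ j ∈ s, ‖a j‖ ^ 2 := by
  have hM0 : (0 : ℝ) < M := by exact_mod_cast hM
  set ξ : I → ℂ := fun i => ∑ j ∈ s, a j * ex (f j * p i) with hξ
  set c : I → ℂ := fun i => (starRingEnd ℂ) (ξ i) with hc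
  set T : ℝ → ℂ := fun h => ∑ i ∈ t, c i * ex (h * p i) with hT
  set S : ℝ := ∑ i ∈ t, ‖ξ i‖ ^ 2 with hS
  have hS0 : 0 ≤ S := Finset.sum_nonneg fun i _ => by positivity
  -- Step A
  have hA : (S : ℂ) = ∑ j ∈ s, a j * T (f j) := by
    rw [hS]
    push_cast
    have h1 : ∀ i ∈ t, ((‖ξ i‖ : ℂ)) ^ 2 = ∑ j ∈ s, a j * (c i * ex (f j * p i)) := by
      intro i _
      have h2 : ((‖ξ i‖ : ℂ)) ^ 2 = c i * ξ i := by
        rw [hc]
        simp only
        rw [mul_comm, Complex.mul_conj, Complex.normSq_eq_norm_sq]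
        push_cast; rfl
      rw [h2, hξ]
      simp only
      rw [Finset.mul_sum]
      refine Finset.sum_congr rfl fun j _ => ?_
      ring
    rw [Finset.sum_congr rfl h1, Finset.sum_comm]
    refine Finset.sum_congr rfl fun j _ => ?_
    rw [hT]
    simp only
    rw [Finset.mul_sum]
  have hA2 : S ^ 2 ≤ (∑ j ∈ s, ‖a j‖ ^ 2) * ∑ j ∈ s, ‖T (f j)‖ ^ 2 := by
    have h1 : S ≤ ∑ j ∈ s, ‖a j‖ * ‖T (f j)‖ := by
      have h2 : ‖(S : ℂ)‖ ≤ ∑ j ∈ s, ‖a j‖ * ‖T (f j)‖ := by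
        rw [hA]
        refine (norm_sum_le _ _).trans (le_of_eq ?_)
        exact Finset.sum_congr rfl fun j _ => norm_mul _ _
      rwa [Complex.norm_real, Real.norm_of_nonneg hS0] at h2
    calc S ^ 2 ≤ (∑ j ∈ s, ‖a j‖ * ‖T (f j)‖) ^ 2 := pow_le_pow_left₀ hS0 h1 2
      _ ≤ _ := Finset.sum_mul_sq_le_sq_mul_sq _ _ _
  -- Step B
  have hB : ∑ j ∈ s, ‖T (f j)‖ ^ 2 ≤ ∑ n ∈ range M, ‖T n‖ ^ 2 := by
    have h1 : ∑ j ∈ s, ‖T (f j)‖ ^ 2 = ∑ n ∈ s.image f, ‖T n‖ ^ 2 := by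
      rw [sum_image hf]
    rw [h1]
    refine sum_le_sum_of_subset_of_nonneg ?_ fun n _ _ => by positivity
    intro n hn
    obtain ⟨j, hj, rfl⟩ := mem_image.mp hn
    exact mem_range.mpr (hfM j hj)
  -- Step C
  have hC : (M : ℝ) * ∑ n ∈ range M, ‖T n‖ ^ 2 ≤
      ∑ u ∈ range (2 * M), ∑ v ∈ range (2 * M), ‖T ((u : ℝ) - v)‖ ^ 2 := by
    have h1 : (M : ℝ) * ∑ n ∈ range M, ‖T n‖ ^ 2 =
        ∑ x ∈ (range M ×ˢ range M), ‖T (((x.1 + x.2 : ℕ) : ℝ) - x.2)‖ ^ 2 := by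
      rw [Finset.sum_product]
      rw [Finset.mul_sum]
      refine Finset.sum_congr rfl fun n _ => ?_
      have : ∀ v ∈ range M, ‖T (((n + v : ℕ) : ℝ) - v)‖ ^ 2 = ‖T n‖ ^ 2 := by
        intro v _
        congr 3
        push_cast; ring
      rw [Finset.sum_congr rfl this, sum_const, card_range, nsmul_eq_mul]
    rw [h1, ← Finset.sum_product']
    have h2 : ∑ x ∈ (range M ×ˢ range M), ‖T (((x.1 + x.2 : ℕ) : ℝ) - x.2)‖ ^ 2 =
        ∑ y ∈ (range M ×ˢ range M).image (fun x => (x.1 + x.2, x.2)),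
          ‖T (((y.1 : ℕ) : ℝ) - y.2)‖ ^ 2 := by
      rw [sum_image]
      intro x _ y _ h
      simp only [Prod.mk.injEq] at h
      ext
      · omega
      · exact h.2
    rw [h2]
    refine sum_le_sum_of_subset_of_nonneg ?_ fun n _ _ => by positivity
    intro y hy
    obtain ⟨x, hx, rfl⟩ := mem_image.mp hy
    rw [mem_product, mem_range, mem_range] at hx
    rw [mem_product, mem_range, mem_range]
    simp only
    omega
  -- Step D
  have hD : ∑ u ∈ range (2 * M), ∑ v ∈ range (2 * M), ‖T ((u : ℝ) - v)‖ ^ 2 ≤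
      ∑ i ∈ t, ∑ i' ∈ t, ‖c i‖ * ‖c i'‖ * ‖dir (2 * M) (p i - p i')‖ ^ 2 := by
    have h1 : ((∑ u ∈ range (2 * M), ∑ v ∈ range (2 * M), ‖T ((u : ℝ) - v)‖ ^ 2 : ℝ) : ℂ) =
        ∑ i ∈ t, ∑ i' ∈ t, c i * (starRingEnd ℂ) (c i') *
          (dir (2 * M) (p i - p i') * (starRingEnd ℂ) (dir (2 * M) (p i - p i'))) := by
      push_cast
      have h2 : ∀ h : ℝ, ((‖T h‖ : ℂ)) ^ 2 = ∑ i ∈ t, ∑ i' ∈ t,
          c i * (starRingEnd ℂ) (c i') * ex (h * (p i - p i')) := by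
        intro h
        have h3 : ((‖T h‖ : ℂ)) ^ 2 = T h * (starRingEnd ℂ) (T h) := by
          rw [Complex.mul_conj, Complex.normSq_eq_norm_sq]
          push_cast; rfl
        rw [h3]
        simp only [hT]
        rw [map_sum, Finset.sum_mul_sum]
        refine Finset.sum_congr rfl fun i _ => Finset.sum_congr rfl fun i' _ => ?_
        rw [map_mul]
        have h4 : ex (h * (p i - p i')) = ex (h * p i) * (starRingEnd ℂ) (ex (h * p i')) := by
          rw [← ex_sub]; congr 1; ring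
        rw [h4]; ring
      have h5 : ∀ u ∈ range (2 * M), ∀ v ∈ range (2 * M), ((‖T ((u : ℝ) - v)‖ : ℂ)) ^ 2 =
          ∑ i ∈ t, ∑ i' ∈ t, c i * (starRingEnd ℂ) (c i') *
            (ex (u * (p i - p i')) * (starRingEnd ℂ) (ex (v * (p i - p i')))) := by
        intro u _ v _
        rw [h2]
        refine Finset.sum_congr rfl fun i _ => Finset.sum_congr rfl fun i' _ => ?_
        congr 1
        rw [← ex_sub]; congr 1; ring
      rw [Finset.sum_congr rfl fun u hu => Finset.sum_congr rfl fun v hv => h5 u hu v hv]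
      -- exchange
      have h6 : ∑ u ∈ range (2 * M), ∑ v ∈ range (2 * M), ∑ i ∈ t, ∑ i' ∈ t,
          c i * (starRingEnd ℂ) (c i') *
            (ex (u * (p i - p i')) * (starRingEnd ℂ) (ex (v * (p i - p i')))) =
          ∑ i ∈ t, ∑ i' ∈ t, ∑ u ∈ range (2 * M), ∑ v ∈ range (2 * M),
          c i * (starRingEnd ℂ) (c i') *
            (ex (u * (p i - p i')) * (starRingEnd ℂ) (ex (v * (p i - p i')))) := by
        rw [Finset.sum_congr rfl fun u _ => Finset.sum_comm]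
        rw [Finset.sum_comm]
        refine Finset.sum_congr rfl fun i _ => ?_
        rw [Finset.sum_congr rfl fun u _ => Finset.sum_comm]
        rw [Finset.sum_comm]
      rw [h6]
      refine Finset.sum_congr rfl fun i _ => Finset.sum_congr rfl fun i' _ => ?_
      unfold dir
      rw [map_sum, Finset.sum_mul_sum, Finset.mul_sum]
      refine Finset.sum_congr rfl fun u _ => ?_
      rw [Finset.mul_sum]
    have h7 : 0 ≤ ∑ u ∈ range (2 * M), ∑ v ∈ range (2 * M), ‖T ((u : ℝ) - v)‖ ^ 2 :=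
      Finset.sum_nonneg fun _ _ => Finset.sum_nonneg fun _ _ => by positivity
    have h8 : ‖((∑ u ∈ range (2 * M), ∑ v ∈ range (2 * M), ‖T ((u : ℝ) - v)‖ ^ 2 : ℝ) : ℂ)‖ ≤
        ∑ i ∈ t, ∑ i' ∈ t, ‖c i‖ * ‖c i'‖ * ‖dir (2 * M) (p i - p i')‖ ^ 2 := by
      rw [h1]
      refine (norm_sum_le _ _).trans (Finset.sum_le_sum fun i _ => ?_)
      refine (norm_sum_le _ _).trans (Finset.sum_le_sum fun i' _ => le_of_eq ?_)
      have e1 : ‖(starRingEnd ℂ) (c i')‖ = ‖c i'‖ := RCLike.norm_conj _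
      have e2 : ‖(starRingEnd ℂ) (dir (2 * M) (p i - p i'))‖ = ‖dir (2 * M) (p i - p i')‖ :=
        RCLike.norm_conj _
      rw [norm_mul, norm_mul, norm_mul, e1, e2]
      ring
    rwa [Complex.norm_real, Real.norm_of_nonneg h7] at h8
  -- Step E
  have hsym : ∀ x : ℝ, ‖dir (2 * M) (-x)‖ = ‖dir (2 * M) x‖ := by
    intro x
    have : dir (2 * M) (-x) = (starRingEnd ℂ) (dir (2 * M) x) := by
      unfold dir
      rw [map_sum]
      refine Finset.sum_congr rfl fun n _ => ?_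
      rw [← ex_neg]; congr 1; ring
    rw [this, RCLike.norm_conj]
  have hE : ∑ i ∈ t, ∑ i' ∈ t, ‖c i‖ * ‖c i'‖ * ‖dir (2 * M) (p i - p i')‖ ^ 2 ≤
      36 * (M : ℝ) ^ 2 * S := by
    have h1 : ∑ i ∈ t, ∑ i' ∈ t, ‖c i‖ * ‖c i'‖ * ‖dir (2 * M) (p i - p i')‖ ^ 2 ≤
        ∑ i ∈ t, ∑ i' ∈ t, (‖c i‖ ^ 2 / 2 * ‖dir (2 * M) (p i - p i')‖ ^ 2 +
          ‖c i'‖ ^ 2 / 2 * ‖dir (2 * M) (p i - p i')‖ ^ 2) := by
      refine Finset.sum_le_sum fun i _ => Finset.sum_le_sum fun i' _ => ?_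
      have : ‖c i‖ * ‖c i'‖ ≤ ‖c i‖ ^ 2 / 2 + ‖c i'‖ ^ 2 / 2 := by
        nlinarith [sq_nonneg (‖c i‖ - ‖c i'‖)]
      have h2 : (0 : ℝ) ≤ ‖dir (2 * M) (p i - p i')‖ ^ 2 := by positivity
      nlinarith
    have h3 : ∑ i ∈ t, ∑ i' ∈ t, (‖c i‖ ^ 2 / 2 * ‖dir (2 * M) (p i - p i')‖ ^ 2 +
          ‖c i'‖ ^ 2 / 2 * ‖dir (2 * M) (p i - p i')‖ ^ 2) =
        ∑ i ∈ t, ‖c i‖ ^ 2 * ∑ i' ∈ t, ‖dir (2 * M) (p i - p i')‖ ^ 2 := by
      have h4 : ∑ i ∈ t, ∑ i' ∈ t, ‖c i'‖ ^ 2 / 2 * ‖dir (2 * M) (p i - p i')‖ ^ 2 =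
          ∑ i ∈ t, ∑ i' ∈ t, ‖c i‖ ^ 2 / 2 * ‖dir (2 * M) (p i - p i')‖ ^ 2 := by
        rw [Finset.sum_comm]
        refine Finset.sum_congr rfl fun i _ => Finset.sum_congr rfl fun i' _ => ?_
        rw [← hsym (p i' - p i), neg_sub]
      simp only [Finset.sum_add_distrib]
      rw [h4, ← Finset.sum_add_distrib]
      refine Finset.sum_congr rfl fun i _ => ?_
      rw [← Finset.sum_add_distrib, Finset.mul_sum]
      refine Finset.sum_congr rfl fun i' _ => ?_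
      ring
    rw [h3] at h1
    refine h1.trans ?_
    have h5 : ∑ i ∈ t, ‖c i‖ ^ 2 * ∑ i' ∈ t, ‖dir (2 * M) (p i - p i')‖ ^ 2 ≤
        ∑ i ∈ t, ‖c i‖ ^ 2 * (36 * (M : ℝ) ^ 2) :=
      Finset.sum_le_sum fun i hi => mul_le_mul_of_nonneg_left
        (kernel_row hM t cell hinj hcM p hp1 hp2 hi) (by positivity)
    refine h5.trans (le_of_eq ?_)
    rw [← Finset.sum_mul, hS, mul_comm]
    congr 1
    refine Finset.sum_congr rfl fun i _ => ?_
    simp only [hc]
    rw [RCLike.norm_conj]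
  -- conclusion
  set A : ℝ := ∑ j ∈ s, ‖a j‖ ^ 2 with hAdef
  have hA0 : 0 ≤ A := Finset.sum_nonneg fun i _ => by positivity
  have h1 : ∑ n ∈ range M, ‖T n‖ ^ 2 ≤ 36 * M * S := by
    have h2 := (hC.trans hD).trans hE
    have h3 : (M : ℝ) * ∑ n ∈ range M, ‖T n‖ ^ 2 ≤ M * (36 * M * S) := by
      refine h2.trans (le_of_eq ?_); ring
    exact le_of_mul_le_mul_left h3 hM0
  have h2 : S ^ 2 ≤ A * (36 * M * S) :=
    hA2.trans (mul_le_mul_of_nonneg_left (hB.trans h1) hA0)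
  rcases eq_or_lt_of_le hS0 with h | h
  · rw [← h]; positivity
  · have h3 : S * S ≤ (36 * M * A) * S := by nlinarith
    exact le_of_mul_le_mul_right h3 h

end Pool.Agent.Pal
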