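import Mathlib

/-!
# The divisor bound
-/

namespace Pool.Agent.Pal

open Finset

/-- The classical divisor bound `τ(n) ≤ C n ^ η`. -/
theorem card_divisors_le_rpow {η : ℝ} (hη : 0 < η) :
    ∃ C : ℝ, 1 ≤ C ∧ ∀ n : ℕ, 1 ≤ n → (n.divisors.card : ℝ) ≤ C * (n : ℝ) ^ η := by
  have hlog : 0 < Real.log 2 := Real.log_pos (by norm_num)
  set C1 : ℝ := 1 + 1 / (η * Real.log 2) with hC1
  have hC1' : 1 ≤ C1 := by
    rw [hC1]; have : 0 < 1 / (η * Real.log 2) := by positivity
    linarith
  obtain ⟨N0, hN0⟩ := exists_nat_ge ((2 : ℝ) ^ (1 / η))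
  refine ⟨C1 ^ N0, one_le_pow₀ hC1', fun n hn => ?_⟩
  have hn0 : n ≠ 0 := by omega
  rw [Nat.card_divisors hn0]
  push_cast
  have key : ∀ p ∈ n.primeFactors, ((n.factorization p : ℝ) + 1) ≤
      (if p < N0 then C1 else 1) * ((p : ℝ) ^ (n.factorization p)) ^ η := by
    intro p hp
    have hpp : p.Prime := Nat.prime_of_mem_primeFactors hp
    set a := n.factorization p with ha
    have hp2 : (2 : ℝ) ≤ p := by exact_mod_cast hpp.two_le
    have hpow : ((p : ℝ) ^ a) ^ η = ((p : ℝ) ^ η) ^ a := by
      rw [← Real.rpow_natCast, ← Real.rpow_natCast, ← Real.rpow_mul (by linarith),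
        ← Real.rpow_mul (by linarith), mul_comm]
    rw [hpow]
    split_ifs with h
    · have h1 : (1 + η * Real.log 2 * a) ≤ ((p : ℝ) ^ η) ^ a := by
        have h2 : ((2 : ℝ) ^ η) ^ a ≤ ((p : ℝ) ^ η) ^ a :=
          pow_le_pow_left₀ (by positivity) (Real.rpow_le_rpow (by norm_num) hp2 hη.le) _
        refine le_trans ?_ h2
        have h3 : ((2 : ℝ) ^ η) ^ a = Real.exp (η * Real.log 2 * a) := by
          rw [← Real.rpow_natCast, ← Real.rpow_mul (by norm_num), Real.rpow_def_of_pos (by norm_num)]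
          congr 1; ring
        rw [h3]
        have := Real.add_one_le_exp (η * Real.log 2 * a)
        linarith
      calc (a : ℝ) + 1 ≤ C1 * (1 + η * Real.log 2 * a) := by
            rw [hC1]
            have e1 : (1 + 1 / (η * Real.log 2)) * (1 + η * Real.log 2 * a) =
              1 + η * Real.log 2 * a + 1 / (η * Real.log 2) + a := by
              field_simp
              ring
            rw [e1]
            have e2 : 0 < 1 / (η * Real.log 2) := by positivity
            have e3 : 0 ≤ η * Real.log 2 * a := by positivity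
            linarith
        _ ≤ C1 * ((p : ℝ) ^ η) ^ a := mul_le_mul_of_nonneg_left h1 (by linarith)
    · have h1 : (2 : ℝ) ≤ (p : ℝ) ^ η := by
        have h2 : (2 : ℝ) ^ (1 / η) ≤ p := hN0.trans (by exact_mod_cast (not_lt.mp h))
        calc (2 : ℝ) = ((2 : ℝ) ^ (1 / η)) ^ η := by
              rw [← Real.rpow_mul (by norm_num)]
              rw [one_div_mul_cancel hη.ne', Real.rpow_one]
          _ ≤ (p : ℝ) ^ η := Real.rpow_le_rpow (by positivity) h2 hη.le
      have h2 : (2 : ℝ) ^ a ≤ ((p : ℝ) ^ η) ^ a := pow_le_pow_left₀ (by norm_num) h1 _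
      have h3 : ((a + 1 : ℕ) : ℝ) ≤ ((2 ^ a : ℕ) : ℝ) := by
        exact_mod_cast Nat.lt_two_pow_self
      push_cast at h3
      linarith
  have h1 : ∏ x ∈ n.primeFactors, ((n.factorization x : ℝ) + 1) ≤
      ∏ p ∈ n.primeFactors, ((if p < N0 then C1 else 1) * ((p : ℝ) ^ (n.factorization p)) ^ η) :=
    Finset.prod_le_prod (fun _ _ => by positivity) key
  refine h1.trans ?_
  rw [Finset.prod_mul_distrib]
  have h2 : ∏ p ∈ n.primeFactors, ((p : ℝ) ^ (n.factorization p)) ^ η = (n : ℝ) ^ η := by
    rw [Real.finset_prod_rpow _ _ (fun _ _ => by positivity)]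
    congr 1
    have := Nat.factorization_prod_pow_eq_self hn0
    conv_rhs => rw [← this]
    rw [Finsupp.prod, Nat.support_factorization]
    push_cast
    rfl
  rw [h2]
  refine mul_le_mul_of_nonneg_right ?_ (by positivity)
  rw [Finset.prod_ite]
  simp only [Finset.prod_const, one_pow, mul_one]
  refine pow_le_pow_right₀ hC1' ?_
  calc (n.primeFactors.filter (fun p => p < N0)).card ≤ (range N0).card := by
        refine card_le_card fun p hp => ?_
        rw [mem_filter] at hp
        exact mem_range.mpr hp.2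
    _ = N0 := card_range _

end Pool.Agent.Pal
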