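import Mathlib

/-!
# Exponentials and the normalised Dirichlet kernel
-/

namespace Pool.Agent.Pal

open Finset

/-- `ex x = exp(2 π i x)`. -/
noncomputable def ex (x : ℝ) : ℂ := Complex.exp ((2 * Real.pi * x : ℝ) * Complex.I)

lemma ex_add (x y : ℝ) : ex (x + y) = ex x * ex y := by
  unfold ex
  rw [← Complex.exp_add]
  congr 1
  push_cast
  ring

lemma ex_zero : ex 0 = 1 := by simp [ex]

lemma norm_ex (x : ℝ) : ‖ex x‖ = 1 := by
  unfold ex
  exact Complex.norm_exp_ofReal_mul_I _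

lemma ex_ne_zero (x : ℝ) : ex x ≠ 0 := Complex.exp_ne_zero _

lemma ex_int (n : ℤ) : ex (n : ℝ) = 1 := by
  unfold ex
  have : ((2 * Real.pi * (n : ℝ) : ℝ) : ℂ) * Complex.I = (n : ℂ) * (2 * Real.pi * Complex.I) := by
    push_cast; ring
  rw [this]
  exact Complex.exp_int_mul_two_pi_mul_I n

lemma ex_nat (n : ℕ) : ex (n : ℝ) = 1 := by
  have := ex_int (n : ℤ)
  simpa using this

lemma ex_add_int (x : ℝ) (n : ℤ) : ex (x + n) = ex x := by
  rw [ex_add, ex_int, mul_one]

lemma ex_neg (x : ℝ) : ex (-x) = (starRingEnd ℂ) (ex x) := by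
  unfold ex
  rw [← Complex.exp_conj]
  congr 1
  rw [map_mul, Complex.conj_ofReal, Complex.conj_I]
  push_cast
  ring

lemma ex_sub (x y : ℝ) : ex (x - y) = ex x * (starRingEnd ℂ) (ex y) := by
  rw [sub_eq_add_neg, ex_add, ex_neg]

lemma ex_nat_mul (n : ℕ) (x : ℝ) : ex (n * x) = ex x ^ n := by
  unfold ex
  rw [← Complex.exp_nat_mul]
  congr 1
  push_cast
  ring

/-- `‖ex x - 1‖ = 2 |sin (π x)|`. -/
lemma norm_ex_sub_one (x : ℝ) : ‖ex x - 1‖ = 2 * |Real.sin (Real.pi * x)| := by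
  have h := Complex.norm_exp_I_mul_ofReal_sub_one (2 * Real.pi * x)
  unfold ex
  rw [mul_comm, h]
  have : 2 * Real.pi * x / 2 = Real.pi * x := by ring
  rw [this, norm_mul]
  simp

lemma four_mul_abs_le_norm (x : ℝ) (hx : |x| ≤ 1 / 2) : 4 * |x| ≤ ‖ex x - 1‖ := by
  rw [norm_ex_sub_one]
  have hpi := Real.pi_pos
  have h1 : |Real.sin (Real.pi * x)| = Real.sin (Real.pi * |x|) := by
    rcases abs_cases x with ⟨h, h0⟩ | ⟨h, h0⟩
    · rw [h, abs_of_nonneg]
      refine Real.sin_nonneg_of_nonneg_of_le_pi (by positivity) ?_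
      rw [h] at hx
      nlinarith
    · rw [h]
      have : Real.pi * -x = -(Real.pi * x) := by ring
      rw [this, Real.sin_neg, abs_of_nonpos]
      rw [h] at hx
      have h2 : 0 ≤ Real.sin (-(Real.pi * x)) := by
        refine Real.sin_nonneg_of_nonneg_of_le_pi ?_ ?_ <;> nlinarith
      rw [Real.sin_neg] at h2
      linarith
  rw [h1]
  have h2 : 2 / Real.pi * (Real.pi * |x|) ≤ Real.sin (Real.pi * |x|) := by
    refine Real.mul_le_sin (by positivity) ?_
    nlinarith
  have h3 : 2 / Real.pi * (Real.pi * |x|) = 2 * |x| := by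
    field_simp
  rw [h3] at h2
  linarith

/-- For `|x| < 1` the distance of `ex x` to `1` is at least `4 min(|x|, 1 - |x|)`. -/
lemma four_mul_min_le_norm (x : ℝ) (hx : |x| ≤ 1) : 4 * min |x| (1 - |x|) ≤ ‖ex x - 1‖ := by
  rcases le_total |x| (1 / 2) with h | h
  · exact (mul_le_mul_of_nonneg_left (min_le_left _ _) (by norm_num)).trans
      (four_mul_abs_le_norm x h)
  · refine (mul_le_mul_of_nonneg_left (min_le_right _ _) (by norm_num)).trans ?_
    rcases abs_cases x with ⟨h0, h1⟩ | ⟨h0, h1⟩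
    · have h2 := four_mul_abs_le_norm (x - 1) (by
        rw [abs_le]; constructor <;> [(rw [h0] at h; linarith); (rw [h0] at hx; linarith)])
      have h3 : ex (x - 1) = ex x := by
        have := ex_add_int x (-1)
        rw [← this]; push_cast; rfl
      rw [h3] at h2
      rw [h0] at hx h ⊢
      rwa [abs_of_nonpos (by linarith : x - 1 ≤ 0), neg_sub] at h2
    · have h2 := four_mul_abs_le_norm (x + 1) (by
        rw [abs_le]; constructor <;> [(rw [h0] at hx; linarith); (rw [h0] at h; linarith)])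
      have h3 : ex (x + 1) = ex x := by
        have := ex_add_int x 1
        rw [← this]; push_cast; rfl
      rw [h3] at h2
      rw [h0] at hx h ⊢
      rw [abs_of_nonneg (by linarith : 0 ≤ x + 1)] at h2
      linarith

/-- The Dirichlet kernel. -/
noncomputable def dir (H : ℕ) (x : ℝ) : ℂ := ∑ n ∈ range H, ex (n * x)

lemma norm_dir_le (H : ℕ) (x : ℝ) : ‖dir H x‖ ≤ H := by
  unfold dir
  refine (norm_sum_le _ _).trans ?_
  simp [norm_ex]

lemma dir_mul (H : ℕ) (x : ℝ) : dir H x * (ex x - 1) = ex (H * x) - 1 := by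
  unfold dir
  have : ∀ n ∈ range H, ex (n * x) = ex x ^ n := fun n _ => ex_nat_mul n x
  rw [Finset.sum_congr rfl this, ex_nat_mul, geom_sum_mul]

lemma norm_dir_mul_le (H : ℕ) (x : ℝ) : ‖dir H x‖ * ‖ex x - 1‖ ≤ 2 := by
  rw [← norm_mul, dir_mul]
  calc ‖ex (H * x) - 1‖ ≤ ‖ex (H * x)‖ + ‖(1 : ℂ)‖ := norm_sub_le _ _
    _ = 2 := by rw [norm_ex]; norm_num

lemma dir_add_int (H : ℕ) (x : ℝ) (k : ℤ) : dir H (x + k) = dir H x := by
  unfold dir
  refine Finset.sum_congr rfl fun n _ => ?_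
  have : (n : ℝ) * (x + k) = n * x + ((n * k : ℤ) : ℝ) := by push_cast; ring
  rw [this, ex_add_int]

/-- The normalised modulus of the Dirichlet kernel with `b` terms. -/
noncomputable def phi (b : ℕ) (x : ℝ) : ℝ := ‖dir b x‖ / b

lemma phi_nonneg (b : ℕ) (x : ℝ) : 0 ≤ phi b x := by unfold phi; positivity

lemma phi_le_one (b : ℕ) (x : ℝ) : phi b x ≤ 1 := by
  unfold phi
  exact div_le_one_of_le₀ (norm_dir_le b x) (Nat.cast_nonneg b)

lemma phi_add_int (b : ℕ) (x : ℝ) (k : ℤ) : phi b (x + k) = phi b x := by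
  unfold phi; rw [dir_add_int]

/-- If `x` stays away from the integers, `phi b x` stays away from `1`. -/
lemma exists_phi_le {b : ℕ} (hb : 2 ≤ b) {τ : ℝ} (hτ : 0 < τ) (hτ2 : τ ≤ 1 / 2) :
    ∃ κ : ℝ, 0 < κ ∧ κ < 1 ∧ ∀ x : ℝ, (∀ n : ℤ, τ ≤ |x - n|) → phi b x ≤ κ := by
  -- `‖1 + ex x‖^2 = 2 + 2 cos (2 π x)`
  have hpi := Real.pi_pos
  set γ : ℝ := Real.cos (2 * Real.pi * τ) with hγ
  have hγ1 : γ < 1 := by
    rw [hγ, ← Real.cos_zero]
    refine Real.cos_lt_cos_of_nonneg_of_le_pi le_rfl ?_ (by positivity)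
    nlinarith
  have hγ0 : -1 ≤ γ := Real.neg_one_le_cos _
  have hb0 : (0 : ℝ) < b := by
    have : (2 : ℝ) ≤ b := by exact_mod_cast hb
    linarith
  have hb2 : (2 : ℝ) ≤ b := by exact_mod_cast hb
  have hs : Real.sqrt (2 + 2 * γ) < 2 := by
    rw [Real.sqrt_lt' (by norm_num)]
    linarith
  have hs0 := Real.sqrt_nonneg (2 + 2 * γ)
  refine ⟨max ((b - 2 + Real.sqrt (2 + 2 * γ)) / b) (1 / 2), by positivity, ?_, ?_⟩
  · refine max_lt ?_ (by norm_num)
    rw [div_lt_one hb0]
    linarith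
  · intro x hx
    refine le_trans ?_ (le_max_left _ _)
    unfold phi
    refine div_le_div_of_nonneg_right ?_ hb0.le
    -- split off the first two terms
    have h2 : ‖1 + ex x‖ ≤ Real.sqrt (2 + 2 * γ) := by
      apply Real.le_sqrt_of_sq_le
      have h3 : ‖1 + ex x‖ ^ 2 = 2 + 2 * Real.cos (2 * Real.pi * x) := by
        rw [← Complex.normSq_eq_norm_sq, Complex.normSq_apply]
        have hre : (ex x).re = Real.cos (2 * Real.pi * x) := by
          unfold ex; exact Complex.exp_ofReal_mul_I_re _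
        have him : (ex x).im = Real.sin (2 * Real.pi * x) := by
          unfold ex; exact Complex.exp_ofReal_mul_I_im _
        rw [Complex.add_re, Complex.add_im, hre, him, Complex.one_re, Complex.one_im]
        have := Real.sin_sq_add_cos_sq (2 * Real.pi * x)
        nlinarith
      rw [h3]
      have h4 : Real.cos (2 * Real.pi * x) ≤ γ := by
        set n : ℤ := round x with hn
        have h5 : |x - n| ≤ 1 / 2 := abs_sub_round x
        have h6 : Real.cos (2 * Real.pi * x) = Real.cos (2 * Real.pi * |x - n|) := by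
          have h7 : Real.cos (2 * Real.pi * |x - n|) = Real.cos (2 * Real.pi * (x - n)) := by
            rcases abs_cases (x - n) with ⟨h, _⟩ | ⟨h, _⟩
            · rw [h]
            · rw [h, mul_neg, Real.cos_neg]
          rw [h7]
          have h8 : 2 * Real.pi * (x - n) = 2 * Real.pi * x - n * (2 * Real.pi) := by ring
          rw [h8, Real.cos_sub_int_mul_two_pi]
        rw [h6, hγ]
        refine Real.cos_le_cos_of_nonneg_of_le_pi (by positivity) ?_ ?_
        · nlinarith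
        · have := hx n
          nlinarith
      linarith
    obtain ⟨c, rfl⟩ : ∃ c, b = c + 2 := ⟨b - 2, by omega⟩
    unfold dir
    rw [Finset.sum_range_succ', Finset.sum_range_succ']
    have e1 : ((0 + 1 : ℕ) : ℝ) * x = x := by push_cast; ring
    have e0 : ((0 : ℕ) : ℝ) * x = 0 := by push_cast; ring
    rw [e1, e0, ex_zero]
    calc ‖∑ k ∈ range c, ex (((k + 1 + 1 : ℕ) : ℝ) * x) + ex x + 1‖
        = ‖∑ k ∈ range c, ex (((k + 1 + 1 : ℕ) : ℝ) * x) + (1 + ex x)‖ := by
          congr 1; ring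
      _ ≤ ‖∑ k ∈ range c, ex (((k + 1 + 1 : ℕ) : ℝ) * x)‖ + ‖1 + ex x‖ := norm_add_le _ _
      _ ≤ c + Real.sqrt (2 + 2 * γ) := by
          refine add_le_add ?_ h2
          refine (norm_sum_le _ _).trans ?_
          simp [norm_ex]
      _ = ((c + 2 : ℕ) : ℝ) - 2 + Real.sqrt (2 + 2 * γ) := by push_cast; ring

end Pool.Agent.Pal
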