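import Pool.Agent.Pal.Palin

/-!
# Palindromic digit strings
-/

namespace Pool.Agent.Pal

open Finset

/-- `n` reads the same in both directions in base `b`. -/
def IsPal (b n : ℕ) : Prop := (Nat.digits b n).reverse = Nat.digits b n

instance (b n : ℕ) : Decidable (IsPal b n) := by unfold IsPal; infer_instance

lemma exists_list {b : ℕ} (hb : 2 ≤ b) (ℓ : ℕ) : ∀ h, h < b ^ (ℓ / 2 + 1) →
    ∃ l : List ℕ, l.length = ℓ + 1 ∧ (∀ d ∈ l, d < b) ∧ l.reverse = l ∧
      Nat.ofDigits b l = pal b ℓ h ∧ (b ^ (ℓ / 2) ≤ h → ∀ hne : l ≠ [], l.getLast hne ≠ 0) := by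
  induction ℓ using two_step_induction with
  | h0 =>
    intro h hh
    refine ⟨[h], by simp, ?_, by simp, by simp [pal_zero], ?_⟩
    · intro d hd
      have : d = h := by simpa using hd
      rw [this]; simpa using hh
    · intro h1 _
      simp only [List.getLast_singleton]
      have : 1 ≤ h := by simpa using h1
      omega
  | h1 =>
    intro h hh
    refine ⟨[h, h], by simp, ?_, by simp, ?_, ?_⟩
    · intro d hd
      have : d = h := by simpa using hd
      rw [this]; simpa using hh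
    · rw [pal_one]; simp [Nat.ofDigits_cons]; ring
    · intro h1 _
      have : 1 ≤ h := by simpa using h1
      simp
      omega
  | h2 ℓ ih =>
    intro h hh
    have e : (ℓ + 2) / 2 + 1 = (ℓ / 2 + 1) + 1 := by omega
    have e' : (ℓ + 2) / 2 = ℓ / 2 + 1 := by omega
    rw [e] at hh
    have hpos : 0 < b ^ (ℓ / 2 + 1) := pow_pos (by omega) _
    obtain ⟨l, hl1, hl2, hl3, hl4, _⟩ := ih (h % b ^ (ℓ / 2 + 1)) (Nat.mod_lt _ hpos)
    set x := h / b ^ (ℓ / 2 + 1) with hx
    have hxb : x < b := by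
      rw [hx, Nat.div_lt_iff_lt_mul hpos, mul_comm, ← pow_succ]; exact hh
    refine ⟨x :: (l ++ [x]), by simp [hl1], ?_, ?_, ?_, ?_⟩
    · intro d hd
      simp only [List.mem_cons, List.mem_append, List.not_mem_nil, or_false] at hd
      rcases hd with h1 | h1 | h1
      · omega
      · exact hl2 d h1
      · omega
    · simp [hl3]
    · rw [pal_succ_succ, Nat.ofDigits_cons, Nat.ofDigits_append, hl4, hl1, ← hx]
      simp
      ring
    · intro h1 _
      rw [e'] at h1
      have : 0 < x := Nat.div_pos h1 hpos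
      simp
      omega

lemma of_palindrome {b : ℕ} (hb : 2 ≤ b) {l : List ℕ} (hl : l.Palindrome) :
    (∀ d ∈ l, d < b) → ∀ ℓ, l.length = ℓ + 1 →
    ∃ h, h < b ^ (ℓ / 2 + 1) ∧ Nat.ofDigits b l = pal b ℓ h ∧
      ∀ hne : l ≠ [], l.getLast hne ≠ 0 → b ^ (ℓ / 2) ≤ h := by
  induction hl with
  | nil => intro _ ℓ h; simp at h
  | singleton x =>
    intro h ℓ hlen
    have hℓ : ℓ = 0 := by simp at hlen; omega
    subst hℓ
    refine ⟨x, by simpa using h x (by simp), by simp [pal_zero], ?_⟩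
    intro _ hx
    simp at hx ⊢
    omega
  | cons_concat x hl' ih =>
    rename_i l'
    intro h ℓ hlen
    have hxb : x < b := h x (by simp)
    rcases Nat.eq_zero_or_pos l'.length with h0 | hpos
    · have : l' = [] := List.length_eq_zero_iff.mp h0
      subst this
      have hℓ : ℓ = 1 := by simp at hlen; omega
      subst hℓ
      refine ⟨x, by simpa using hxb, ?_, ?_⟩
      · rw [pal_one]; simp [Nat.ofDigits_cons]; ring
      · intro _ hx
        simp at hx ⊢
        omega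
    · obtain ⟨ℓ', hℓ'⟩ : ∃ ℓ', l'.length = ℓ' + 1 := ⟨l'.length - 1, by omega⟩
      have hℓ : ℓ = ℓ' + 2 := by simp at hlen; omega
      subst hℓ
      obtain ⟨u, hu1, hu2, _⟩ := ih (fun d hd => h d (by simp [hd])) ℓ' hℓ'
      have e : (ℓ' + 2) / 2 + 1 = (ℓ' / 2 + 1) + 1 := by omega
      have e' : (ℓ' + 2) / 2 = ℓ' / 2 + 1 := by omega
      have hW : 0 < b ^ (ℓ' / 2 + 1) := pow_pos (by omega) _
      refine ⟨x * b ^ (ℓ' / 2 + 1) + u, ?_, ?_, ?_⟩
      · rw [e, pow_succ b (ℓ' / 2 + 1)]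
        calc x * b ^ (ℓ' / 2 + 1) + u < x * b ^ (ℓ' / 2 + 1) + b ^ (ℓ' / 2 + 1) := by omega
          _ = (x + 1) * b ^ (ℓ' / 2 + 1) := by ring
          _ ≤ b * b ^ (ℓ' / 2 + 1) := Nat.mul_le_mul_right _ hxb
          _ = b ^ (ℓ' / 2 + 1) * b := by ring
      · rw [pal_split ℓ' x u hu1, Nat.ofDigits_cons, Nat.ofDigits_append, hu2, hℓ']
        simp
        ring
      · intro _ hx
        rw [e']
        have : 1 ≤ x := by
          simp at hx
          omega
        calc b ^ (ℓ' / 2 + 1) = 1 * b ^ (ℓ' / 2 + 1) := (one_mul _).symm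
          _ ≤ x * b ^ (ℓ' / 2 + 1) := Nat.mul_le_mul_right _ this
          _ ≤ _ := Nat.le_add_right _ _

/-- The palindromes with exactly `ℓ + 1` digits. -/
lemma isPal_pal {b : ℕ} (hb : 2 ≤ b) {ℓ h : ℕ} (h1 : b ^ (ℓ / 2) ≤ h) (h2 : h < b ^ (ℓ / 2 + 1)) :
    IsPal b (pal b ℓ h) ∧ (Nat.digits b (pal b ℓ h)).length = ℓ + 1 ∧ 1 ≤ pal b ℓ h := by
  obtain ⟨l, hl1, hl2, hl3, hl4, hl5⟩ := exists_list hb ℓ h h2
  have hd : Nat.digits b (pal b ℓ h) = l := by
    rw [← hl4]
    exact Nat.digits_ofDigits b (by omega) l hl2 (fun hne => hl5 h1 hne)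
  refine ⟨?_, ?_, ?_⟩
  · unfold IsPal; rw [hd, hl3]
  · rw [hd, hl1]
  · rcases Nat.eq_zero_or_pos (pal b ℓ h) with h0 | h0
    · rw [h0, Nat.digits_zero] at hd
      rw [← hd] at hl1
      simp at hl1
    · exact h0

lemma exists_of_isPal {b n ℓ : ℕ} (hb : 2 ≤ b) (hn : 1 ≤ n) (hp : IsPal b n)
    (hlen : (Nat.digits b n).length = ℓ + 1) :
    ∃ h, b ^ (ℓ / 2) ≤ h ∧ h < b ^ (ℓ / 2 + 1) ∧ pal b ℓ h = n := by
  have hpal : (Nat.digits b n).Palindrome := List.Palindrome.of_reverse_eq hp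
  obtain ⟨h, h1, h2, h3⟩ := of_palindrome hb hpal (fun d hd => Nat.digits_lt_base (by omega) hd) ℓ hlen
  rw [Nat.ofDigits_digits] at h2
  have hne : Nat.digits b n ≠ [] := Nat.digits_ne_nil_iff_ne_zero.mpr (by omega)
  exact ⟨h, h3 hne (Nat.getLast_digit_ne_zero b (by omega)), h1, h2.symm⟩

/-- Number of palindromes `n ≤ Y` with `n ≡ a (mod q)`. -/
def palCount (b Y q : ℕ) (a : ℤ) : ℕ :=
  ((Icc 1 Y).filter (fun n : ℕ => IsPal b n ∧ (n : ℤ) ≡ a [ZMOD q])).card

/-- Number of `h < H` with `pal b ℓ h ≡ a (mod q)`. -/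
def cnt (b ℓ H q : ℕ) (a : ℤ) : ℕ :=
  ((range H).filter (fun h : ℕ => (pal b ℓ h : ℤ) ≡ a [ZMOD q])).card

/-- Number of `h` such that `pal b ℓ h ≤ Y`. -/
def thr (b ℓ Y : ℕ) : ℕ := ((range (b ^ (ℓ / 2 + 1))).filter (fun h => pal b ℓ h ≤ Y)).card

lemma thr_le (b ℓ Y : ℕ) : thr b ℓ Y ≤ b ^ (ℓ / 2 + 1) := by
  unfold thr
  exact (card_filter_le _ _).trans (by rw [card_range])

lemma filter_eq_range {b : ℕ} (hb : 2 ≤ b) (ℓ Y : ℕ) :
    (range (b ^ (ℓ / 2 + 1))).filter (fun h => pal b ℓ h ≤ Y) = range (thr b ℓ Y) := by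
  -- a down-closed subset of a range is a range
  have key : ∀ s : Finset ℕ, (∀ x ∈ s, ∀ y < x, y ∈ s) → s = range s.card := by
    intro s hs
    refine (Finset.eq_of_subset_of_card_le ?_ ?_)
    · intro x hx
      rw [mem_range]
      have : range (x + 1) ⊆ s := by
        intro y hy
        rw [mem_range] at hy
        rcases Nat.lt_or_ge y x with h | h
        · exact hs x hx y h
        · have : y = x := by omega
          rw [this]; exact hx
      have := card_le_card this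
      rw [card_range] at this
      omega
    · rw [card_range]
  unfold thr
  refine key _ ?_
  intro x hx y hy
  rw [mem_filter, mem_range] at hx ⊢
  refine ⟨by omega, ?_⟩
  exact (pal_strictMono (by omega) ℓ y x hy hx.1).le.trans hx.2

lemma palCount_eq {b : ℕ} (hb : 2 ≤ b) {Λ Y : ℕ} (hY : Y < b ^ (Λ + 1)) (q : ℕ) (a : ℤ) :
    (palCount b Y q a : ℝ) = ∑ ℓ ∈ range (Λ + 1),
      ((cnt b ℓ (thr b ℓ Y) q a : ℝ) - (cnt b ℓ (min (thr b ℓ Y) (b ^ (ℓ / 2))) q a : ℝ)) := by
  unfold palCount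
  rw [Finset.card_eq_sum_card_fiberwise (f := fun n => (Nat.digits b n).length - 1)
    (t := range (Λ + 1))]
  · rw [Nat.cast_sum]
    refine Finset.sum_congr rfl fun ℓ _ => ?_
    have hfib : (((Icc 1 Y).filter (fun n : ℕ => IsPal b n ∧ (n : ℤ) ≡ a [ZMOD q])).filter
        (fun n => (Nat.digits b n).length - 1 = ℓ)) =
        ((Ico (min (thr b ℓ Y) (b ^ (ℓ / 2))) (thr b ℓ Y)).filter
          (fun h : ℕ => (pal b ℓ h : ℤ) ≡ a [ZMOD q])).image (pal b ℓ) := by
      ext n
      rw [mem_filter, mem_filter, mem_Icc, mem_image]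
      constructor
      · rintro ⟨⟨⟨h1, h2⟩, h3, h4⟩, h5⟩
        have hlen : (Nat.digits b n).length = ℓ + 1 := by
          have : 0 < (Nat.digits b n).length :=
            List.length_pos_iff.mpr (Nat.digits_ne_nil_iff_ne_zero.mpr (by omega))
          omega
        obtain ⟨h, e1, e2, e3⟩ := exists_of_isPal hb h1 h3 hlen
        refine ⟨h, ?_, e3⟩
        rw [mem_filter, mem_Ico]
        refine ⟨⟨(min_le_right _ _).trans e1, ?_⟩, ?_⟩
        · have : h ∈ (range (b ^ (ℓ / 2 + 1))).filter (fun h => pal b ℓ h ≤ Y) := by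
            rw [mem_filter, mem_range]; exact ⟨e2, by rw [e3]; exact h2⟩
          rw [filter_eq_range hb, mem_range] at this
          exact this
        · rw [e3]; exact h4
      · rintro ⟨h, hh, rfl⟩
        rw [mem_filter, mem_Ico] at hh
        obtain ⟨⟨h1, h2⟩, h3⟩ := hh
        have h4 : h ∈ (range (b ^ (ℓ / 2 + 1))).filter (fun h => pal b ℓ h ≤ Y) := by
          rw [filter_eq_range hb, mem_range]; exact h2
        rw [mem_filter, mem_range] at h4
        have h5 : b ^ (ℓ / 2) ≤ h := by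
          rcases min_cases (thr b ℓ Y) (b ^ (ℓ / 2)) with ⟨h6, _⟩ | ⟨h6, _⟩
          · rw [h6] at h1; omega
          · rw [h6] at h1; exact h1
        obtain ⟨g1, g2, g3⟩ := isPal_pal hb h5 h4.1
        refine ⟨⟨⟨g3, h4.2⟩, g1, h3⟩, by omega⟩
    rw [hfib, card_image_of_injOn]
    · have hsplit : (range (thr b ℓ Y)).filter (fun h : ℕ => (pal b ℓ h : ℤ) ≡ a [ZMOD q]) =
          ((range (min (thr b ℓ Y) (b ^ (ℓ / 2)))).filter
            (fun h : ℕ => (pal b ℓ h : ℤ) ≡ a [ZMOD q])) ∪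
          ((Ico (min (thr b ℓ Y) (b ^ (ℓ / 2))) (thr b ℓ Y)).filter
            (fun h : ℕ => (pal b ℓ h : ℤ) ≡ a [ZMOD q])) := by
        rw [← filter_union]
        congr 1
        ext h
        rw [mem_union, mem_range, mem_range, mem_Ico]
        have := min_le_left (thr b ℓ Y) (b ^ (ℓ / 2))
        omega
      have hdisj : Disjoint ((range (min (thr b ℓ Y) (b ^ (ℓ / 2)))).filter
            (fun h : ℕ => (pal b ℓ h : ℤ) ≡ a [ZMOD q]))
          ((Ico (min (thr b ℓ Y) (b ^ (ℓ / 2))) (thr b ℓ Y)).filter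
            (fun h : ℕ => (pal b ℓ h : ℤ) ≡ a [ZMOD q])) := by
        rw [Finset.disjoint_left]
        intro h h1 h2
        rw [mem_filter, mem_range] at h1
        rw [mem_filter, mem_Ico] at h2
        omega
      have : cnt b ℓ (thr b ℓ Y) q a = cnt b ℓ (min (thr b ℓ Y) (b ^ (ℓ / 2))) q a +
          ((Ico (min (thr b ℓ Y) (b ^ (ℓ / 2))) (thr b ℓ Y)).filter
            (fun h : ℕ => (pal b ℓ h : ℤ) ≡ a [ZMOD q])).card := by
        unfold cnt
        rw [hsplit, card_union_of_disjoint hdisj]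
      rw [this]
      push_cast
      ring
    · intro x hx y hy hxy
      have hx' := mem_coe.mp hx
      have hy' := mem_coe.mp hy
      rw [mem_filter, mem_Ico] at hx' hy'
      have hle := thr_le b ℓ Y
      by_contra hne
      rcases Nat.lt_or_gt_of_ne hne with h | h
      · have := pal_strictMono (by omega : 1 ≤ b) ℓ x y h (by omega)
        omega
      · have := pal_strictMono (by omega : 1 ≤ b) ℓ y x h (by omega)
        omega
  · intro n hn
    have hn' := mem_coe.mp hn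
    rw [mem_filter, mem_Icc] at hn'
    rw [mem_coe, mem_range]
    have h1 : (Nat.digits b n).length ≤ Λ + 1 := by
      rw [Nat.digits_length_le_iff (by omega)]
      omega
    show (Nat.digits b n).length - 1 < Λ + 1
    omega

end Pool.Agent.Pal
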