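import Pool.Agent.Pal.Moments
import Pool.Agent.Pal.Divisor

/-!
# Second moment of the outer block over all fractions
-/

namespace Pool.Agent.Pal

open Finset

lemma sum_ex_eq {N : ℕ} (hN : 0 < N) (n : ℤ) :
    ∑ c ∈ range N, ex ((c : ℝ) * ((n : ℝ) / N)) = if (N : ℤ) ∣ n then (N : ℂ) else 0 := by
  have hN0 : (N : ℝ) ≠ 0 := by exact_mod_cast hN.ne'
  split_ifs with h
  · obtain ⟨q, rfl⟩ := h
    have : ∀ c ∈ range N, ex ((c : ℝ) * ((((N : ℤ) * q : ℤ) : ℝ) / N)) = 1 := by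
      intro c _
      have : (c : ℝ) * ((((N : ℤ) * q : ℤ) : ℝ) / N) = ((c * q : ℤ) : ℝ) := by
        push_cast; field_simp
      rw [this, ex_int]
    rw [Finset.sum_congr rfl this]; simp
  · have h1 := dir_mul N ((n : ℝ) / N)
    have h2 : (N : ℝ) * ((n : ℝ) / N) = (n : ℝ) := by field_simp
    rw [h2, ex_int, sub_self] at h1
    rcases mul_eq_zero.mp h1 with h3 | h3
    · exact h3
    · exfalso
      apply h
      have h4 : ex ((n : ℝ) / N) = 1 := by linear_combination h3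
      unfold ex at h4
      rw [Complex.exp_eq_one_iff] at h4
      obtain ⟨k, hk⟩ := h4
      have h5 : (((n : ℝ) / N : ℝ) : ℂ) = ((k : ℝ) : ℂ) := by
        have h6 : ((2 * Real.pi * ((n : ℝ) / N) : ℝ) : ℂ) * Complex.I =
            (2 * Real.pi * Complex.I) * (((n : ℝ) / N : ℝ) : ℂ) := by push_cast; ring
        rw [h6] at hk
        have h7 : (k : ℂ) * (2 * Real.pi * Complex.I) =
            (2 * Real.pi * Complex.I) * ((k : ℝ) : ℂ) := by push_cast; ring
        rw [h7] at hk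
        exact mul_left_cancel₀ Complex.two_pi_I_ne_zero hk
      have h6 : (n : ℝ) / N = k := by exact_mod_cast h5
      rw [div_eq_iff hN0] at h6
      refine ⟨k, ?_⟩
      have : (n : ℝ) = ((N * k : ℤ) : ℝ) := by push_cast; linarith
      exact_mod_cast this

lemma norm_sq_sum_ex (s : Finset ℕ) (f : ℕ → ℕ) (α : ℝ) :
    ((‖∑ h ∈ s, ex (f h * α)‖ ^ 2 : ℝ) : ℂ) =
      ∑ h ∈ s, ∑ h' ∈ s, ex (((f h : ℤ) - (f h' : ℤ) : ℤ) * α) := by
  have h1 : ((‖∑ h ∈ s, ex (f h * α)‖ ^ 2 : ℝ) : ℂ) =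
      (∑ h ∈ s, ex (f h * α)) * (starRingEnd ℂ) (∑ h ∈ s, ex (f h * α)) := by
    rw [Complex.mul_conj, Complex.normSq_eq_norm_sq]
  rw [h1, map_sum, Finset.sum_mul_sum]
  refine Finset.sum_congr rfl fun h _ => Finset.sum_congr rfl fun h' _ => ?_
  rw [← ex_sub]
  congr 1
  push_cast
  ring

open Classical in
/-- Parseval on `ℤ/N`. -/
lemma sum_norm_sq_eq {N : ℕ} (hN : 0 < N) (s : Finset ℕ) (f : ℕ → ℕ) :
    ∑ c ∈ range N, ‖∑ h ∈ s, ex (f h * ((c : ℝ) / N))‖ ^ 2 =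
      N * ∑ h ∈ s, ∑ h' ∈ s, (if (N : ℤ) ∣ (f h : ℤ) - (f h' : ℤ) then (1 : ℝ) else 0) := by
  have key : ((∑ c ∈ range N, ‖∑ h ∈ s, ex (f h * ((c : ℝ) / N))‖ ^ 2 : ℝ) : ℂ) =
      ((N * ∑ h ∈ s, ∑ h' ∈ s, (if (N : ℤ) ∣ (f h : ℤ) - (f h' : ℤ) then (1 : ℝ) else 0) : ℝ) : ℂ)
        := by
    rw [Complex.ofReal_sum,
      Finset.sum_congr rfl fun (c : ℕ) _ => norm_sq_sum_ex s f ((c : ℝ) / (N : ℝ))]
    rw [Finset.sum_comm]
    rw [Complex.ofReal_mul, Complex.ofReal_sum, Finset.mul_sum]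
    refine Finset.sum_congr rfl fun h _ => ?_
    rw [Finset.sum_comm, Complex.ofReal_sum, Finset.mul_sum]
    refine Finset.sum_congr rfl fun h' _ => ?_
    have e1 : ∀ c ∈ range N, ex (((f h : ℤ) - (f h' : ℤ) : ℤ) * ((c : ℝ) / N)) =
        ex ((c : ℝ) * ((((f h : ℤ) - (f h' : ℤ) : ℤ) : ℝ) / N)) := by
      intro c _; congr 1; ring
    rw [Finset.sum_congr rfl e1, sum_ex_eq hN]
    split_ifs <;> simp
  exact_mod_cast key

/-- Second moment of the outer block over all the fractions. -/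
lemma sum_blk_sq_outer {b : ℕ} (hb : 2 ≤ b) {η C : ℝ} (hη : 0 < η) (hC : 1 ≤ C)
    (hdiv : ∀ n : ℕ, 1 ≤ n → (n.divisors.card : ℝ) ≤ C * (n : ℝ) ^ η) {ℓ k D : ℕ}
    (hk : 2 * k ≤ ℓ + 1) :
    ∑ x ∈ J b D, (blk b ℓ 0 k (pt b x)) ^ 2 ≤
      2 * BB b * ((D : ℝ) ^ 2 / (b : ℝ) ^ k + D * (C * ((b : ℝ) ^ (ℓ + 1)) ^ η)) := by
  classical
  have hb0 : (0 : ℝ) < b := by
    have : 0 < b := by omega
    exact_mod_cast this
  have hBp := BB_pos hb
  have hB3 := sq_sub_one_pos hb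
  set B : ℕ := b ^ 2 - 1 with hB
  set R : ℕ := b ^ k with hR
  set f : ℕ → ℕ := pf b k (ℓ + 1 - k) with hf
  have hinj : Set.InjOn f (range R : Finset ℕ) := pf_injOn (by omega)
  have hlt : ∀ h ∈ range R, f h < b ^ (ℓ + 1) := by
    intro h hh
    have := pf_lt (b := b) (k := k) (e := ℓ + 1 - k) (h := h) (by omega) (by omega) (mem_range.mp hh)
    have e : ℓ + 1 - k + k = ℓ + 1 := by omega
    rwa [e] at this
  -- enlarge the sum
  set g : ℝ → ℝ := fun α => (blk b ℓ 0 k α) ^ 2 with hg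
  have hg0 : ∀ α, 0 ≤ g α := fun α => by simp only [hg]; positivity
  have h1 : ∑ x ∈ J b D, g (pt b x) ≤
      ∑ d ∈ Ico D (2 * D), ∑ c ∈ range (B * d), g ((c : ℝ) / ((B * d : ℕ) : ℝ)) := by
    rw [Finset.sum_sigma']
    have h2 : ∑ x ∈ J b D, g (pt b x) =
        ∑ y ∈ (J b D).image (fun x => (⟨x.1, x.2⟩ : Σ _ : ℕ, ℕ)),
          g ((y.2 : ℝ) / ((B * y.1 : ℕ) : ℝ)) := by
      rw [sum_image]
      · rfl
      · intro x _ y _ hxy
        simp only [Sigma.mk.injEq, heq_eq_eq] at hxy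
        exact Prod.ext hxy.1 hxy.2
    rw [h2]
    refine sum_le_sum_of_subset_of_nonneg ?_ fun y _ _ => hg0 _
    intro y hy
    obtain ⟨x, hx, rfl⟩ := mem_image.mp hy
    rw [mem_J] at hx
    rw [mem_sigma, mem_Ico, mem_range]
    exact ⟨⟨hx.1, hx.2.1⟩, hx.2.2.2.1⟩
  refine h1.trans ?_
  have hRpos : (0 : ℝ) < (R : ℝ) := by
    have : 0 < R := pow_pos (by omega) k
    exact_mod_cast this
  have hRk : (R : ℝ) = (b : ℝ) ^ k := by rw [hR]; push_cast; rfl
  -- Parseval for each `d`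
  have h2 : ∀ d ∈ Ico D (2 * D), ∑ c ∈ range (B * d), g ((c : ℝ) / ((B * d : ℕ) : ℝ)) ≤
      (B * (2 * D)) / (R : ℝ) ^ 2 * (R + ∑ h ∈ range R, ∑ h' ∈ (range R).erase h,
        (if (d : ℤ) ∣ (f h : ℤ) - (f h' : ℤ) then (1 : ℝ) else 0)) := by
    intro d hd
    rw [mem_Ico] at hd
    rcases Nat.eq_zero_or_pos (B * d) with h0 | hpos
    · rw [h0]
      simp only [range_zero, sum_empty]
      have : 0 ≤ ∑ h ∈ range R, ∑ h' ∈ (range R).erase h,
        (if (d : ℤ) ∣ (f h : ℤ) - (f h' : ℤ) then (1 : ℝ) else 0) :=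
        Finset.sum_nonneg fun _ _ => Finset.sum_nonneg fun _ _ => by split_ifs <;> norm_num
      positivity
    have h3 := sum_norm_sq_eq hpos (range R) f
    have h4 : ∀ c ∈ range (B * d), ‖∑ h ∈ range R, ex (f h * ((c : ℝ) / ((B * d : ℕ) : ℝ)))‖ ^ 2 =
        (R : ℝ) ^ 2 * g ((c : ℝ) / ((B * d : ℕ) : ℝ)) := by
      intro c _
      rw [hR, hf, ← blk_eq (by omega) (by omega)]
      simp only [hg]
      push_cast
      ring
    rw [Finset.sum_congr rfl h4, ← Finset.mul_sum] at h3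
    have h5 : ∑ c ∈ range (B * d), g ((c : ℝ) / ((B * d : ℕ) : ℝ)) =
        ((B * d : ℕ) : ℝ) / (R : ℝ) ^ 2 * ∑ h ∈ range R, ∑ h' ∈ range R,
          (if ((B * d : ℕ) : ℤ) ∣ (f h : ℤ) - (f h' : ℤ) then (1 : ℝ) else 0) := by
      field_simp
      linarith [h3]
    rw [h5]
    have h6 : ∑ h ∈ range R, ∑ h' ∈ range R,
          (if ((B * d : ℕ) : ℤ) ∣ (f h : ℤ) - (f h' : ℤ) then (1 : ℝ) else 0) ≤
        R + ∑ h ∈ range R, ∑ h' ∈ (range R).erase h,
        (if (d : ℤ) ∣ (f h : ℤ) - (f h' : ℤ) then (1 : ℝ) else 0) := by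
      have h7 : (R : ℝ) = ∑ h ∈ range R, (1 : ℝ) := by simp
      rw [h7, ← Finset.sum_add_distrib]
      refine Finset.sum_le_sum fun h hh => ?_
      rw [← Finset.add_sum_erase _ _ hh]
      refine add_le_add ?_ (Finset.sum_le_sum fun h' _ => ?_)
      · split_ifs <;> norm_num
      · by_cases hdvd : ((B * d : ℕ) : ℤ) ∣ (f h : ℤ) - (f h' : ℤ)
        · have : (d : ℤ) ∣ (f h : ℤ) - (f h' : ℤ) :=
            (Int.natCast_dvd_natCast.mpr (Dvd.intro_left _ rfl)).trans hdvd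
          rw [if_pos hdvd, if_pos this]
        · rw [if_neg hdvd]
          split_ifs <;> norm_num
    have h8 : ((B * d : ℕ) : ℝ) ≤ B * (2 * D) := by
      push_cast
      have : (d : ℝ) ≤ 2 * D := by exact_mod_cast hd.2.le
      exact mul_le_mul_of_nonneg_left this (Nat.cast_nonneg _)
    have h9 : 0 ≤ ∑ h ∈ range R, ∑ h' ∈ range R,
          (if ((B * d : ℕ) : ℤ) ∣ (f h : ℤ) - (f h' : ℤ) then (1 : ℝ) else 0) :=
        Finset.sum_nonneg fun _ _ => Finset.sum_nonneg fun _ _ => by split_ifs <;> norm_num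
    exact mul_le_mul (div_le_div_of_nonneg_right h8 (by positivity)) h6 h9 (by positivity)
  refine (Finset.sum_le_sum h2).trans ?_
  rw [← Finset.mul_sum, Finset.sum_add_distrib, sum_const, Nat.card_Ico]
  have hDD : 2 * D - D = D := by omega
  rw [hDD, nsmul_eq_mul]
  -- swap the sums
  have h3 : ∑ d ∈ Ico D (2 * D), ∑ h ∈ range R, ∑ h' ∈ (range R).erase h,
        (if (d : ℤ) ∣ (f h : ℤ) - (f h' : ℤ) then (1 : ℝ) else 0) ≤
      (R : ℝ) ^ 2 * (C * ((b : ℝ) ^ (ℓ + 1)) ^ η) := by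
    rw [Finset.sum_comm]
    have h4 : ∀ h ∈ range R, ∑ d ∈ Ico D (2 * D), ∑ h' ∈ (range R).erase h,
        (if (d : ℤ) ∣ (f h : ℤ) - (f h' : ℤ) then (1 : ℝ) else 0) ≤
        R * (C * ((b : ℝ) ^ (ℓ + 1)) ^ η) := by
      intro h hh
      rw [Finset.sum_comm]
      have h5 : ∀ h' ∈ (range R).erase h, ∑ d ∈ Ico D (2 * D),
          (if (d : ℤ) ∣ (f h : ℤ) - (f h' : ℤ) then (1 : ℝ) else 0) ≤
          C * ((b : ℝ) ^ (ℓ + 1)) ^ η := by
        intro h' hh'
        rw [mem_erase] at hh'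
        have hne : f h ≠ f h' := fun e => hh'.1 (hinj (by exact_mod_cast hh) (by exact_mod_cast hh'.2) e).symm
        set n : ℕ := ((f h : ℤ) - (f h' : ℤ)).natAbs with hn
        have hn1 : 1 ≤ n := by
          have : n ≠ 0 := by
            rw [hn, Int.natAbs_ne_zero]
            intro e
            apply hne
            have : (f h : ℤ) = f h' := by linarith
            exact_mod_cast this
          omega
        have hnlt : n ≤ b ^ (ℓ + 1) := by
          have e1 := hlt h hh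
          have e2 := hlt h' hh'.2
          omega
        have h6 : ∑ d ∈ Ico D (2 * D),
            (if (d : ℤ) ∣ (f h : ℤ) - (f h' : ℤ) then (1 : ℝ) else 0) ≤ (n.divisors.card : ℝ) := by
          rw [← Finset.sum_filter, sum_const, nsmul_eq_mul, mul_one]
          have : (Ico D (2 * D)).filter (fun d : ℕ => (d : ℤ) ∣ (f h : ℤ) - (f h' : ℤ)) ⊆
              n.divisors := by
            intro d hd
            rw [mem_filter] at hd
            rw [Nat.mem_divisors]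
            refine ⟨?_, by omega⟩
            rw [hn]
            exact Int.natCast_dvd.mp hd.2
          exact_mod_cast card_le_card this
        refine h6.trans ((hdiv n hn1).trans ?_)
        refine mul_le_mul_of_nonneg_left ?_ (by linarith)
        refine Real.rpow_le_rpow (by positivity) ?_ hη.le
        exact_mod_cast hnlt
      refine (Finset.sum_le_sum h5).trans ?_
      rw [sum_const, nsmul_eq_mul]
      refine mul_le_mul_of_nonneg_right ?_ (by positivity)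
      have : ((range R).erase h).card ≤ R := by
        refine (card_le_card (erase_subset _ _)).trans ?_
        rw [card_range]
      exact_mod_cast this
    refine (Finset.sum_le_sum h4).trans ?_
    rw [sum_const, card_range, nsmul_eq_mul]
    exact le_of_eq (by ring)
  calc (B * (2 * D)) / (R : ℝ) ^ 2 * ((D : ℝ) * R + ∑ d ∈ Ico D (2 * D), ∑ h ∈ range R,
        ∑ h' ∈ (range R).erase h, (if (d : ℤ) ∣ (f h : ℤ) - (f h' : ℤ) then (1 : ℝ) else 0))
      ≤ (B * (2 * D)) / (R : ℝ) ^ 2 * ((D : ℝ) * R +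
          (R : ℝ) ^ 2 * (C * ((b : ℝ) ^ (ℓ + 1)) ^ η)) := by
        refine mul_le_mul_of_nonneg_left (by linarith) (by positivity)
    _ = 2 * BB b * ((D : ℝ) ^ 2 / (b : ℝ) ^ k + D * (C * ((b : ℝ) ^ (ℓ + 1)) ^ η)) := by
        rw [← hRk]
        have hBB : BB b = (B : ℝ) := rfl
        rw [hBB]
        field_simp

end Pool.Agent.Pal
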