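import Pool.Agent.Pal.Digits

/-!
# From exponential sums to residue classes
-/

namespace Pool.Agent.Pal

open Finset

/-- The frequencies `c < q` with `q ∣ B c` detect the residue class modulo `gcd(q, B)`. -/
lemma sum_ex_dvd {q B : ℕ} (hq : 0 < q) (n : ℤ) :
    ∑ c ∈ (range q).filter (fun c => q ∣ B * c), ex ((c : ℝ) * ((n : ℝ) / q)) =
      if ((Nat.gcd q B : ℕ) : ℤ) ∣ n then ((Nat.gcd q B : ℕ) : ℂ) else 0 := by
  set g := Nat.gcd q B with hg
  have hgpos : 0 < g := Nat.gcd_pos_of_pos_left _ hq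
  obtain ⟨q', hq'⟩ : g ∣ q := Nat.gcd_dvd_left _ _
  have hq'pos : 0 < q' := by
    rcases Nat.eq_zero_or_pos q' with h | h
    · rw [h] at hq'; omega
    · exact h
  have hset : (range q).filter (fun c => q ∣ B * c) = (range g).image (fun c => q' * c) := by
    ext c
    rw [mem_filter, mem_range, mem_image]
    constructor
    · rintro ⟨h1, h2⟩
      obtain ⟨B', hB'⟩ : g ∣ B := Nat.gcd_dvd_right _ _
      have hcop : q'.Coprime B' := by
        have := Nat.coprime_div_gcd_div_gcd (m := q) (n := B) (by rw [← hg]; exact hgpos)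
        rw [← hg] at this
        have e1 : q / g = q' := by rw [hq']; exact Nat.mul_div_cancel_left _ hgpos
        have e2 : B / g = B' := by rw [hB']; exact Nat.mul_div_cancel_left _ hgpos
        rwa [e1, e2] at this
      have h3 : q' ∣ B' * c := by
        rw [hq', hB', mul_assoc] at h2
        exact Nat.dvd_of_mul_dvd_mul_left hgpos h2
      have h4 : q' ∣ c := Nat.Coprime.dvd_of_dvd_mul_left hcop h3
      obtain ⟨c', hc'⟩ := h4
      refine ⟨c', ?_, hc'.symm⟩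
      rw [mem_range]
      rw [hc', hq', mul_comm g] at h1
      exact lt_of_mul_lt_mul_left h1 (Nat.zero_le _)
    · rintro ⟨c', h1, rfl⟩
      rw [mem_range] at h1
      refine ⟨?_, ?_⟩
      · rw [hq', mul_comm g]
        exact Nat.mul_lt_mul_of_pos_left h1 hq'pos
      · obtain ⟨B', hB'⟩ : g ∣ B := Nat.gcd_dvd_right _ _
        refine ⟨B' * c', ?_⟩
        rw [hB', hq']
        ring
  rw [hset, sum_image (by
    intro x _ y _ hxy
    exact Nat.eq_of_mul_eq_mul_left hq'pos hxy)]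
  rw [← sum_ex_eq hgpos n]
  refine Finset.sum_congr rfl fun c _ => ?_
  congr 1
  have hgr : (g : ℝ) ≠ 0 := by exact_mod_cast hgpos.ne'
  have hqr : (q' : ℝ) ≠ 0 := by exact_mod_cast hq'pos.ne'
  have : (q : ℝ) = g * q' := by rw [hq']; push_cast; ring
  rw [this]
  push_cast
  field_simp

/-- Comparison of a residue class modulo `q` with one modulo `gcd(q, B)`. -/
lemma cnt_diff_le {b : ℕ} (hb : 2 ≤ b) {ℓ H q : ℕ} (hq : 0 < q) (hH : H ≤ b ^ (ℓ / 2 + 1)) (a : ℤ) :
    |(cnt b ℓ H q a : ℝ) - (Nat.gcd q (b ^ 2 - 1) : ℕ) / q * (cnt b ℓ H (Nat.gcd q (b ^ 2 - 1)) a : ℝ)|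
      ≤ 1 / q * ∑ c ∈ (range q).filter (fun c => ¬ q ∣ (b ^ 2 - 1) * c), S b ℓ ((c : ℝ) / q) := by
  set B := b ^ 2 - 1 with hB
  set g := Nat.gcd q B with hg
  have hqr : (0 : ℝ) < q := by exact_mod_cast hq
  have hind : ∀ n : ℤ, ∀ m : ℕ, (if (n ≡ a [ZMOD m]) then (1 : ℂ) else 0) =
      if ((m : ℤ) ∣ n - a) then (1 : ℂ) else 0 := by
    intro n m
    have : (n ≡ a [ZMOD m]) ↔ ((m : ℤ) ∣ n - a) := by
      rw [Int.modEq_comm]; exact Int.modEq_iff_dvd
    by_cases h : n ≡ a [ZMOD m]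
    · rw [if_pos h, if_pos (this.mp h)]
    · rw [if_neg h, if_neg (fun h' => h (this.mpr h'))]
  have h1 : ∀ m : ℕ, ((cnt b ℓ H m a : ℝ) : ℂ) =
      ∑ h ∈ range H, if ((m : ℤ) ∣ (pal b ℓ h : ℤ) - a) then (1 : ℂ) else 0 := by
    intro m
    unfold cnt
    rw [Finset.card_filter]
    push_cast
    refine Finset.sum_congr rfl fun h _ => ?_
    rw [← hind _ m]
    split_ifs <;> simp
  -- difference of the indicators
  have h2 : ∀ n : ℤ, (q : ℂ) * ((if ((q : ℤ) ∣ n) then (1 : ℂ) else 0) -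
      (g : ℂ) / q * (if ((g : ℤ) ∣ n) then (1 : ℂ) else 0)) =
      ∑ c ∈ (range q).filter (fun c => ¬ q ∣ B * c), ex ((c : ℝ) * ((n : ℝ) / q)) := by
    intro n
    have e1 := sum_ex_eq hq n
    have e2 := sum_ex_dvd (B := B) hq n
    rw [← hg] at e2
    rw [← Finset.sum_filter_add_sum_filter_not (range q) (fun c => q ∣ B * c), e2] at e1
    have hqc : (q : ℂ) ≠ 0 := by exact_mod_cast hqr.ne'
    have e3 : ∑ c ∈ (range q).filter (fun c => ¬ q ∣ B * c), ex ((c : ℝ) * ((n : ℝ) / q)) =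
        (if (q : ℤ) ∣ n then (q : ℂ) else 0) - (if (g : ℤ) ∣ n then (g : ℂ) else 0) := by
      rw [← e1]; ring
    rw [e3]
    split_ifs <;> field_simp <;> ring
  have h3 : ((((cnt b ℓ H q a : ℝ) - (g : ℝ) / q * (cnt b ℓ H g a : ℝ)) : ℝ) : ℂ) =
      1 / q * ∑ c ∈ (range q).filter (fun c => ¬ q ∣ B * c),
        ex (-(c * (a / q))) * E b ℓ H ((c : ℝ) / q) := by
    have hqc : (q : ℂ) ≠ 0 := by exact_mod_cast hqr.ne'
    rw [Complex.ofReal_sub, Complex.ofReal_mul, h1 q, h1 g, Complex.ofReal_div]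
    rw [Finset.mul_sum, ← Finset.sum_sub_distrib]
    have e1 : ∀ h ∈ range H, ((if ((q : ℤ) ∣ (pal b ℓ h : ℤ) - a) then (1 : ℂ) else 0) -
        ((g : ℝ) : ℂ) / ((q : ℝ) : ℂ) * (if ((g : ℤ) ∣ (pal b ℓ h : ℤ) - a) then (1 : ℂ) else 0)) =
        1 / q * ∑ c ∈ (range q).filter (fun c => ¬ q ∣ B * c),
          ex ((c : ℝ) * ((((pal b ℓ h : ℤ) - a : ℤ) : ℝ) / q)) := by
      intro h _
      rw [← h2]
      push_cast
      field_simp
    rw [Finset.sum_congr rfl e1, ← Finset.mul_sum]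
    congr 1
    rw [Finset.sum_comm]
    refine Finset.sum_congr rfl fun c _ => ?_
    unfold E
    rw [Finset.mul_sum]
    refine Finset.sum_congr rfl fun h _ => ?_
    rw [← ex_add]
    congr 1
    push_cast
    field_simp
    ring
  have h4 : |(cnt b ℓ H q a : ℝ) - (g : ℝ) / q * (cnt b ℓ H g a : ℝ)| =
      ‖((((cnt b ℓ H q a : ℝ) - (g : ℝ) / q * (cnt b ℓ H g a : ℝ)) : ℝ) : ℂ)‖ := by
    rw [Complex.norm_real, Real.norm_eq_abs]
  rw [h4, h3, norm_mul]
  have h5 : ‖(1 / (q : ℂ))‖ = 1 / q := by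
    rw [norm_div, norm_one, Complex.norm_natCast]
  rw [h5]
  refine mul_le_mul_of_nonneg_left ?_ (by positivity)
  refine (norm_sum_le _ _).trans (Finset.sum_le_sum fun c _ => ?_)
  rw [norm_mul, norm_ex, one_mul]
  exact norm_E_le_S (by omega) ℓ H _ hH

/-- Grouping the fractions `c / q` according to their denominators. -/
lemma sum_frac_le {b : ℕ} (hb : 2 ≤ b) {q Q : ℕ} (hq : 0 < q) (hqQ : q ≤ Q) (hcop : q.Coprime b)
    (g : ℝ → ℝ) (hg : ∀ x, 0 ≤ g x) :
    ∑ c ∈ (range q).filter (fun c => ¬ q ∣ (b ^ 2 - 1) * c), g ((c : ℝ) / q) ≤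
      ∑ j ∈ Ico 1 (Nat.log 2 Q + 1), ∑ x ∈ (J b (2 ^ j)).filter (fun x => x.1 ∣ q), g (pt b x) := by
  classical
  set B := b ^ 2 - 1 with hB
  have hBpos : 0 < B := by have := sq_sub_one_pos hb; omega
  set φ : ℕ → ℕ × ℕ := fun c => (q / Nat.gcd (B * c) q, B * c / Nat.gcd (B * c) q) with hφ
  set ψ : ℕ → (Σ _ : ℕ, ℕ × ℕ) := fun c => ⟨Nat.log 2 (φ c).1, φ c⟩ with hψ
  have hqr : (0 : ℝ) < q := by exact_mod_cast hq
  have hBr : (0 : ℝ) < B := by exact_mod_cast hBpos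
  have hpt : ∀ c, pt b (φ c) = (c : ℝ) / q := by
    intro c
    unfold pt
    simp only [hφ]
    set γ := Nat.gcd (B * c) q with hγ
    have hγpos : 0 < γ := Nat.gcd_pos_of_pos_right _ hq
    have hγr : (γ : ℝ) ≠ 0 := by exact_mod_cast hγpos.ne'
    obtain ⟨u, hu⟩ : γ ∣ B * c := Nat.gcd_dvd_left _ _
    obtain ⟨v, hv⟩ : γ ∣ q := Nat.gcd_dvd_right _ _
    have e1 : B * c / γ = u := by rw [hu]; exact Nat.mul_div_cancel_left _ hγpos
    have e2 : q / γ = v := by rw [hv]; exact Nat.mul_div_cancel_left _ hγpos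
    rw [e1, e2, ← hB]
    have hvpos : 0 < v := by
      rcases Nat.eq_zero_or_pos v with h | h
      · rw [h] at hv; omega
      · exact h
    have hvr : (v : ℝ) ≠ 0 := by exact_mod_cast hvpos.ne'
    have e3 : (B : ℝ) * c = γ * u := by exact_mod_cast hu
    have e4 : (q : ℝ) = γ * v := by exact_mod_cast hv
    push_cast
    rw [e4, div_eq_div_iff (by positivity) (by positivity)]
    calc (u : ℝ) * (γ * v) = (γ * u) * v := by ring
      _ = (B * c) * v := by rw [e3]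
      _ = c * (B * v) := by ring
  have hinj : Set.InjOn ψ ((range q).filter (fun c => ¬ q ∣ B * c) : Finset ℕ) := by
    intro c _ c' _ h
    simp only [hψ, Sigma.mk.injEq, heq_eq_eq] at h
    have h1 := hpt c
    rw [h.2, hpt c'] at h1
    have h2 : (c' : ℝ) = c := by
      field_simp at h1
      exact h1
    exact_mod_cast h2.symm
  have hmem : ∀ c ∈ (range q).filter (fun c => ¬ q ∣ B * c),
      ψ c ∈ (Ico 1 (Nat.log 2 Q + 1)).sigma (fun j => (J b (2 ^ j)).filter (fun x => x.1 ∣ q)) := by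
    intro c hc
    rw [mem_filter, mem_range] at hc
    obtain ⟨hcq, hnd⟩ := hc
    set γ := Nat.gcd (B * c) q with hγ
    have hγpos : 0 < γ := Nat.gcd_pos_of_pos_right _ hq
    have hγq : γ ∣ q := Nat.gcd_dvd_right _ _
    have hγBc : γ ∣ B * c := Nat.gcd_dvd_left _ _
    have hd : q / γ * γ = q := Nat.div_mul_cancel hγq
    have hdpos : 0 < q / γ := Nat.div_pos (Nat.le_of_dvd hq hγq) hγpos
    have hdne : q / γ ≠ 1 := by
      intro h
      apply hnd
      rw [h, one_mul] at hd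
      rw [← hd]; exact hγBc
    have hd2 : 2 ≤ q / γ := by omega
    have hdq : q / γ ∣ q := Nat.div_dvd_of_dvd hγq
    rw [mem_sigma]
    simp only [hψ, hφ, ← hγ]
    rw [mem_Ico, mem_filter, mem_J]
    refine ⟨⟨?_, ?_⟩, ⟨?_, ?_, ?_, ?_, ?_⟩, hdq⟩
    · exact Nat.log_pos (by norm_num) hd2
    · have : Nat.log 2 (q / γ) ≤ Nat.log 2 Q :=
        Nat.log_mono_right ((Nat.div_le_self _ _).trans hqQ)
      omega
    · exact Nat.pow_log_le_self 2 (by omega)
    · have := Nat.lt_pow_succ_log_self (b := 2) (by norm_num) (q / γ)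
      rw [pow_succ, mul_comm] at this
      exact this
    · exact Nat.Coprime.coprime_dvd_left hdq hcop
    · rw [← hB]
      have h1 : B * c < B * q := Nat.mul_lt_mul_of_pos_left hcq hBpos
      rw [Nat.div_lt_iff_lt_mul hγpos, mul_assoc, hd]
      exact h1
    · exact Nat.coprime_div_gcd_div_gcd hγpos
  calc ∑ c ∈ (range q).filter (fun c => ¬ q ∣ B * c), g ((c : ℝ) / q)
      = ∑ y ∈ ((range q).filter (fun c => ¬ q ∣ B * c)).image ψ, g (pt b y.2) := by
        rw [sum_image hinj]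
        refine Finset.sum_congr rfl fun c _ => ?_
        rw [← hpt c]
    _ ≤ ∑ y ∈ (Ico 1 (Nat.log 2 Q + 1)).sigma (fun j => (J b (2 ^ j)).filter (fun x => x.1 ∣ q)),
          g (pt b y.2) := by
        refine sum_le_sum_of_subset_of_nonneg ?_ fun _ _ _ => hg _
        intro y hy
        obtain ⟨c, hc, rfl⟩ := mem_image.mp hy
        exact hmem c hc
    _ = _ := by rw [Finset.sum_sigma]

/-- Harmonic sum. -/
lemma sum_inv_le (Q : ℕ) : ∑ e ∈ Icc 1 Q, (1 : ℝ) / e ≤ 1 + Real.log Q := by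
  have h := harmonic_le_one_add_log Q
  rw [harmonic_eq_sum_Icc] at h
  push_cast at h
  simpa only [one_div] using h

end Pool.Agent.Pal
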