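import Pool.Agent.Pal.Level

/-!
# Level of distribution of the palindromes
-/

namespace Pool.Agent.Pal

open Finset

/-- The average over the moduli of the majorants. -/
lemma sum_moduli_le {b : ℕ} (hb : 2 ≤ b) {ε : ℝ} (hε : 0 < ε) (hε4 : ε ≤ 1 / 4) :
    ∃ (σ C : ℝ), 0 < σ ∧ 0 < C ∧ ∀ Λ ℓ Q : ℕ, ℓ ≤ Λ → 1 ≤ Q →
      Real.log Q ≤ (1 / 4 - ε) * Real.log b * Λ →
      ∑ q ∈ (Icc 1 Q).filter (fun q => q.Coprime b), 1 / (q : ℝ) *
        ∑ c ∈ (range q).filter (fun c => ¬ q ∣ (b ^ 2 - 1) * c), S b ℓ ((c : ℝ) / q) ≤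
      (Nat.log 2 Q : ℝ) * (1 + Real.log Q) *
        (C * Real.sqrt ((b : ℝ) ^ Λ) * ((Λ : ℝ) + 1) * Real.exp (-σ * Real.sqrt Λ)) := by
  obtain ⟨σ, C, hσ, hC, hmain⟩ := sum_S_le hb hε hε4
  refine ⟨σ, C, hσ, hC, ?_⟩
  intro Λ ℓ Q hℓ hQ hQL
  have hlogQ : 0 ≤ Real.log Q := Real.log_nonneg (by exact_mod_cast hQ)
  set W : ℝ := C * Real.sqrt ((b : ℝ) ^ Λ) * ((Λ : ℝ) + 1) * Real.exp (-σ * Real.sqrt Λ) with hW
  have hW0 : 0 ≤ W := by positivity
  calc ∑ q ∈ (Icc 1 Q).filter (fun q => q.Coprime b), 1 / (q : ℝ) *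
        ∑ c ∈ (range q).filter (fun c => ¬ q ∣ (b ^ 2 - 1) * c), S b ℓ ((c : ℝ) / q)
      ≤ ∑ q ∈ (Icc 1 Q).filter (fun q => q.Coprime b), 1 / (q : ℝ) *
        ∑ j ∈ Ico 1 (Nat.log 2 Q + 1), ∑ x ∈ (J b (2 ^ j)).filter (fun x => x.1 ∣ q),
          S b ℓ (pt b x) := by
        refine Finset.sum_le_sum fun q hq => ?_
        rw [mem_filter, mem_Icc] at hq
        exact mul_le_mul_of_nonneg_left (sum_frac_le hb (by omega) hq.1.2 hq.2 (S b ℓ)
          (S_nonneg b ℓ)) (by positivity)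
    _ = ∑ j ∈ Ico 1 (Nat.log 2 Q + 1), ∑ x ∈ J b (2 ^ j), S b ℓ (pt b x) *
          ∑ q ∈ (Icc 1 Q).filter (fun q => q.Coprime b), (if x.1 ∣ q then 1 / (q : ℝ) else 0) := by
        simp_rw [Finset.mul_sum, Finset.sum_filter (fun x : ℕ × ℕ => x.1 ∣ _)]
        rw [Finset.sum_comm]
        refine Finset.sum_congr rfl fun j _ => ?_
        rw [Finset.sum_comm]
        refine Finset.sum_congr rfl fun x _ => ?_
        refine Finset.sum_congr rfl fun q _ => ?_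
        split_ifs <;> ring
    _ ≤ ∑ j ∈ Ico 1 (Nat.log 2 Q + 1), ∑ x ∈ J b (2 ^ j), S b ℓ (pt b x) *
          ((1 + Real.log Q) / 2 ^ j) := by
        refine Finset.sum_le_sum fun j _ => Finset.sum_le_sum fun x hx => ?_
        refine mul_le_mul_of_nonneg_left ?_ (S_nonneg _ _ _)
        rw [mem_J] at hx
        have hx1 : 0 < x.1 := lt_of_lt_of_le (by positivity) hx.1
        have hx1r : (0 : ℝ) < x.1 := by exact_mod_cast hx1
        have h2j : (2 : ℝ) ^ j ≤ x.1 := by exact_mod_cast hx.1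
        have h1 : ∑ q ∈ (Icc 1 Q).filter (fun q => q.Coprime b),
            (if x.1 ∣ q then 1 / (q : ℝ) else 0) ≤ ∑ e ∈ Icc 1 Q, 1 / (x.1 : ℝ) * (1 / (e : ℝ)) := by
          rw [← Finset.sum_filter]
          have h2 : ∑ e ∈ Icc 1 Q, 1 / (x.1 : ℝ) * (1 / (e : ℝ)) =
              ∑ q ∈ (Icc 1 Q).image (fun e => x.1 * e), 1 / (q : ℝ) := by
            rw [sum_image (by
              intro u _ v _ huv
              exact Nat.eq_of_mul_eq_mul_left hx1 huv)]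
            refine Finset.sum_congr rfl fun e _ => ?_
            push_cast
            rw [one_div_mul_one_div]
          rw [h2]
          refine sum_le_sum_of_subset_of_nonneg ?_ fun _ _ _ => by positivity
          intro q hq
          rw [mem_filter, mem_filter, mem_Icc] at hq
          obtain ⟨⟨⟨q1, q2⟩, _⟩, e, he⟩ := hq
          rw [mem_image]
          refine ⟨e, ?_, he.symm⟩
          rw [mem_Icc]
          constructor
          · rcases Nat.eq_zero_or_pos e with h | h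
            · rw [h] at he; omega
            · exact h
          · calc e ≤ x.1 * e := Nat.le_mul_of_pos_left e hx1
              _ = q := he.symm
              _ ≤ Q := q2
        refine h1.trans ?_
        rw [← Finset.mul_sum]
        calc 1 / (x.1 : ℝ) * ∑ e ∈ Icc 1 Q, 1 / (e : ℝ) ≤ 1 / 2 ^ j * (1 + Real.log Q) := by
              refine mul_le_mul ?_ (sum_inv_le Q) (Finset.sum_nonneg fun _ _ => by positivity)
                (by positivity)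
              exact one_div_le_one_div_of_le (by positivity) h2j
          _ = _ := by ring
    _ ≤ ∑ j ∈ Ico 1 (Nat.log 2 Q + 1), (1 + Real.log Q) * W := by
        refine Finset.sum_le_sum fun j hj => ?_
        rw [mem_Ico] at hj
        rw [← Finset.sum_mul]
        have h2j : 2 ≤ 2 ^ j := by
          calc 2 = 2 ^ 1 := by norm_num
            _ ≤ 2 ^ j := Nat.pow_le_pow_right (by norm_num) hj.1
        have h2jQ : 2 ^ j ≤ Q := by
          calc 2 ^ j ≤ 2 ^ Nat.log 2 Q := Nat.pow_le_pow_right (by norm_num) (by omega)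
            _ ≤ Q := Nat.pow_log_le_self 2 (by omega)
        have hlog : Real.log ((2 ^ j : ℕ) : ℝ) ≤ (1 / 4 - ε) * Real.log b * Λ := by
          refine le_trans (Real.log_le_log ?_ ?_) hQL
          · have : 0 < 2 ^ j := by positivity
            exact_mod_cast this
          · exact_mod_cast h2jQ
        have h := hmain Λ ℓ (2 ^ j) hℓ h2j hlog
        have hjpos : (0 : ℝ) < 2 ^ j := by positivity
        calc (∑ x ∈ J b (2 ^ j), S b ℓ (pt b x)) * ((1 + Real.log Q) / 2 ^ j)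
            ≤ (C * Real.sqrt ((b : ℝ) ^ Λ) * ((2 ^ j : ℕ) : ℝ) * ((Λ : ℝ) + 1) *
                Real.exp (-σ * Real.sqrt Λ)) * ((1 + Real.log Q) / 2 ^ j) :=
              mul_le_mul_of_nonneg_right h (by positivity)
          _ = (1 + Real.log Q) * W := by
              rw [hW]; push_cast; field_simp
    _ = _ := by
        rw [sum_const, Nat.card_Ico, nsmul_eq_mul]
        have : Nat.log 2 Q + 1 - 1 = Nat.log 2 Q := by omega
        rw [this]
        ring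

/-- Lower bound for the number of palindromes. -/
lemma palCount_ge {b : ℕ} (hb : 2 ≤ b) {Λ X : ℕ} (hX : b ^ Λ ≤ X) :
    Real.sqrt ((b : ℝ) ^ Λ) ≤ b * (palCount b X 1 0 : ℝ) := by
  have hb0 : (2 : ℝ) ≤ b := by exact_mod_cast hb
  have hb1 : (1 : ℝ) ≤ b := by linarith
  have hmod : ∀ n : ℤ, n ≡ 0 [ZMOD ((1 : ℕ) : ℤ)] := by
    intro n
    rw [Int.modEq_comm, Int.modEq_iff_dvd]
    simp
  rcases Nat.eq_zero_or_pos Λ with h0 | hpos
  · subst h0
    have h1 : 1 ≤ palCount b X 1 0 := by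
      unfold palCount
      rw [Nat.one_le_iff_ne_zero, Finset.card_ne_zero]
      refine ⟨1, ?_⟩
      rw [mem_filter, mem_Icc]
      refine ⟨⟨le_rfl, by simpa using hX⟩, ?_, hmod _⟩
      unfold IsPal
      rw [Nat.digits_of_lt b 1 (by norm_num) (by omega)]
      rfl
    have h2 : (1 : ℝ) ≤ (palCount b X 1 0 : ℝ) := by exact_mod_cast h1
    rw [pow_zero, Real.sqrt_one]
    nlinarith
  · obtain ⟨ℓ, rfl⟩ : ∃ ℓ, Λ = ℓ + 1 := ⟨Λ - 1, by omega⟩
    have h1 : b ^ (ℓ / 2) ≤ palCount b X 1 0 := by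
      have hsub : (Ico (b ^ (ℓ / 2)) (b ^ (ℓ / 2 + 1))).image (pal b ℓ) ⊆
          (Icc 1 X).filter (fun n : ℕ => IsPal b n ∧ (n : ℤ) ≡ 0 [ZMOD ((1 : ℕ) : ℤ)]) := by
        intro n hn
        obtain ⟨h, hh, rfl⟩ := mem_image.mp hn
        rw [mem_Ico] at hh
        obtain ⟨g1, _, g3⟩ := isPal_pal hb hh.1 hh.2
        rw [mem_filter, mem_Icc]
        exact ⟨⟨g3, (pal_lt (by omega) ℓ h hh.2).le.trans hX⟩, g1, hmod _⟩
      have hcard : ((Ico (b ^ (ℓ / 2)) (b ^ (ℓ / 2 + 1))).image (pal b ℓ)).card =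
          b ^ (ℓ / 2 + 1) - b ^ (ℓ / 2) := by
        rw [card_image_of_injOn, Nat.card_Ico]
        intro x hx y hy hxy
        have hx' := mem_coe.mp hx
        have hy' := mem_coe.mp hy
        rw [mem_Ico] at hx' hy'
        by_contra hne
        rcases Nat.lt_or_gt_of_ne hne with h | h
        · have := pal_strictMono (by omega : 1 ≤ b) ℓ x y h hy'.2
          omega
        · have := pal_strictMono (by omega : 1 ≤ b) ℓ y x h hx'.2
          omega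
      have h2 := card_le_card hsub
      rw [hcard] at h2
      have h3 : 2 * b ^ (ℓ / 2) ≤ b ^ (ℓ / 2 + 1) := by
        rw [pow_succ, mul_comm]; exact Nat.mul_le_mul_left _ hb
      unfold palCount
      omega
    have h2 : ((b : ℝ) ^ (ℓ / 2)) ≤ (palCount b X 1 0 : ℝ) := by exact_mod_cast h1
    calc Real.sqrt ((b : ℝ) ^ (ℓ + 1)) ≤ b * (b : ℝ) ^ (ℓ / 2) := by
          rw [Real.sqrt_le_left (by positivity), mul_pow, ← pow_mul, ← pow_add]
          exact pow_le_pow_right₀ hb1 (by omega)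
      _ ≤ _ := mul_le_mul_of_nonneg_left h2 (by linarith)

/-- The bound for a single modulus. -/
lemma palCount_diff_le {b : ℕ} (hb : 2 ≤ b) {Λ Y q : ℕ} (hY : Y < b ^ (Λ + 1)) (hq : 0 < q)
    (a : ℤ) :
    |(palCount b Y q a : ℝ) -
      (Nat.gcd q (b ^ 2 - 1) : ℕ) / q * (palCount b Y (Nat.gcd q (b ^ 2 - 1)) a : ℝ)| ≤
      ∑ ℓ ∈ range (Λ + 1), 2 * (1 / (q : ℝ) *
        ∑ c ∈ (range q).filter (fun c => ¬ q ∣ (b ^ 2 - 1) * c), S b ℓ ((c : ℝ) / q)) := by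
  rw [palCount_eq hb hY, palCount_eq hb hY, Finset.mul_sum, ← Finset.sum_sub_distrib]
  refine (Finset.abs_sum_le_sum_abs _ _).trans (Finset.sum_le_sum fun ℓ _ => ?_)
  set g : ℝ := (Nat.gcd q (b ^ 2 - 1) : ℕ) / q
  have h1 := cnt_diff_le hb (ℓ := ℓ) (H := thr b ℓ Y) hq (thr_le b ℓ Y) a
  have h2 := cnt_diff_le hb (ℓ := ℓ) (H := min (thr b ℓ Y) (b ^ (ℓ / 2))) hq
    ((min_le_left _ _).trans (thr_le b ℓ Y)) a
  have h3 : (cnt b ℓ (thr b ℓ Y) q a : ℝ) - (cnt b ℓ (min (thr b ℓ Y) (b ^ (ℓ / 2))) q a : ℝ) -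
      g * ((cnt b ℓ (thr b ℓ Y) (Nat.gcd q (b ^ 2 - 1)) a : ℝ) -
        (cnt b ℓ (min (thr b ℓ Y) (b ^ (ℓ / 2))) (Nat.gcd q (b ^ 2 - 1)) a : ℝ)) =
      ((cnt b ℓ (thr b ℓ Y) q a : ℝ) - g * (cnt b ℓ (thr b ℓ Y) (Nat.gcd q (b ^ 2 - 1)) a : ℝ)) -
      ((cnt b ℓ (min (thr b ℓ Y) (b ^ (ℓ / 2))) q a : ℝ) -
        g * (cnt b ℓ (min (thr b ℓ Y) (b ^ (ℓ / 2))) (Nat.gcd q (b ^ 2 - 1)) a : ℝ)) := by ring
  rw [h3]
  refine (abs_sub _ _).trans ?_
  linarith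

lemma pow_four_mul_exp_le {σ : ℝ} (hσ : 0 < σ) (n : ℕ) :
    (n : ℝ) ^ 4 * Real.exp (-σ * Real.sqrt n) ≤
      (2 / σ) ^ 8 * 40320 * Real.exp (-(σ / 2) * Real.sqrt n) := by
  set u : ℝ := σ / 2 * Real.sqrt n with hu
  have hu0 : 0 ≤ u := by positivity
  have h1 := Real.pow_div_factorial_le_exp u hu0 8
  have hfac : ((Nat.factorial 8 : ℕ) : ℝ) = 40320 := by norm_num [Nat.factorial]
  rw [hfac, div_le_iff₀ (by norm_num)] at h1
  have h2 : (n : ℝ) ^ 4 = (2 / σ) ^ 8 * u ^ 8 := by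
    rw [hu, ← mul_pow]
    have : 2 / σ * (σ / 2 * Real.sqrt n) = Real.sqrt n := by field_simp
    rw [this]
    calc (n : ℝ) ^ 4 = ((Real.sqrt n) ^ 2) ^ 4 := by rw [Real.sq_sqrt (Nat.cast_nonneg _)]
      _ = _ := by rw [← pow_mul]
  have h3 : Real.exp (-σ * Real.sqrt n) = Real.exp (-(σ / 2) * Real.sqrt n) * Real.exp (-u) := by
    rw [← Real.exp_add]; congr 1; rw [hu]; ring
  rw [h2, h3]
  have h4 : u ^ 8 * Real.exp (-u) ≤ 40320 := by
    rw [Real.exp_neg, ← div_eq_mul_inv, div_le_iff₀ (Real.exp_pos _)]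
    linarith
  calc (2 / σ) ^ 8 * u ^ 8 * (Real.exp (-(σ / 2) * Real.sqrt n) * Real.exp (-u))
      = (2 / σ) ^ 8 * (u ^ 8 * Real.exp (-u)) * Real.exp (-(σ / 2) * Real.sqrt n) := by ring
    _ ≤ _ := by gcongr

/-- Level of distribution `1/4`, for `ε ≤ 1/4`. -/
theorem level_aux {b : ℕ} (hb : 2 ≤ b) {ε : ℝ} (hε : 0 < ε) (hε4 : ε ≤ 1 / 4) :
    ∃ (σ C : ℝ), 0 < σ ∧ 0 < C ∧ ∀ x : ℝ, 1 ≤ x → ∀ (y : ℕ → ℝ), (∀ q, y q ≤ x) → ∀ (a : ℕ → ℤ),
      ∑ q ∈ (Icc 1 ⌊x ^ (1 / 4 - ε)⌋₊).filter (fun q => q.Coprime b),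
        |(palCount b ⌊y q⌋₊ q (a q) : ℝ) -
          (Nat.gcd q (b ^ 2 - 1) : ℕ) / q *
            (palCount b ⌊y q⌋₊ (Nat.gcd q (b ^ 2 - 1)) (a q) : ℝ)| ≤
      C * (palCount b ⌊x⌋₊ 1 0 : ℝ) * Real.exp (-σ * Real.sqrt (Real.log x)) := by
  obtain ⟨σ, C, hσ, hC, hmain⟩ := sum_moduli_le hb hε hε4
  have hL := log_pos_b hb
  have hb0 : (2 : ℝ) ≤ b := by exact_mod_cast hb
  have hbp : (0 : ℝ) < b := by linarith
  set L := Real.log b with hLdef
  refine ⟨σ / 2 / Real.sqrt L, 8 * (1 + L) ^ 2 * C * b * ((2 / σ) ^ 8 * 40320) * b, by positivity,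
    by positivity, ?_⟩
  intro x hx y hy a
  have hx0 : 0 < x := by linarith
  set X := ⌊x⌋₊ with hX
  have hX1 : 1 ≤ X := by rw [hX, Nat.le_floor_iff hx0.le]; simpa using hx
  set Λ := Nat.log b X with hΛ
  have hΛ1 : b ^ Λ ≤ X := Nat.pow_log_le_self b (by omega)
  have hΛ2 : X < b ^ (Λ + 1) := Nat.lt_pow_succ_log_self (by omega) X
  have hxlt : x < (b : ℝ) ^ (Λ + 1) := by
    have : x < ((b ^ (Λ + 1) : ℕ) : ℝ) := by
      rw [← Nat.floor_lt hx0.le]; exact hΛ2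
    exact_mod_cast this
  have hlogx : Real.log x ≤ L * ((Λ + 1 : ℕ) : ℝ) := by
    have := Real.log_le_log hx0 hxlt.le
    rwa [Real.log_pow, mul_comm] at this
  have hlogx0 : 0 ≤ Real.log x := Real.log_nonneg hx
  set n : ℕ := Λ + 1 with hn
  have hn1 : (1 : ℝ) ≤ n := by rw [hn]; push_cast; linarith [(Nat.cast_nonneg Λ : (0:ℝ) ≤ Λ)]
  set Q := ⌊x ^ (1 / 4 - ε)⌋₊ with hQ
  have hQ1 : 1 ≤ Q := by
    rw [hQ, Nat.le_floor_iff (by positivity)]
    have := Real.one_le_rpow hx (by linarith : 0 ≤ 1 / 4 - ε)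
    simpa using this
  have hQr : (1 : ℝ) ≤ Q := by exact_mod_cast hQ1
  have hQlog : Real.log Q ≤ (1 / 4 - ε) * L * n := by
    have h1 : (Q : ℝ) ≤ x ^ (1 / 4 - ε) := Nat.floor_le (by positivity)
    have h2 := Real.log_le_log (by linarith) h1
    rw [Real.log_rpow hx0] at h2
    calc Real.log Q ≤ (1 / 4 - ε) * Real.log x := h2
      _ ≤ (1 / 4 - ε) * (L * n) := mul_le_mul_of_nonneg_left hlogx (by linarith)
      _ = _ := by ring
  have hQ0 : 0 ≤ Real.log Q := Real.log_nonneg hQr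
  have hQlog' : Real.log Q ≤ L * n := by
    refine hQlog.trans ?_
    have : 0 ≤ (3 / 4 + ε) * (L * n) := by positivity
    linarith
  -- single modulus bound
  have hstep : ∑ q ∈ (Icc 1 Q).filter (fun q => q.Coprime b),
        |(palCount b ⌊y q⌋₊ q (a q) : ℝ) -
          (Nat.gcd q (b ^ 2 - 1) : ℕ) / q *
            (palCount b ⌊y q⌋₊ (Nat.gcd q (b ^ 2 - 1)) (a q) : ℝ)| ≤
      ∑ ℓ ∈ range n, 2 * ∑ q ∈ (Icc 1 Q).filter (fun q => q.Coprime b), (1 / (q : ℝ) *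
        ∑ c ∈ (range q).filter (fun c => ¬ q ∣ (b ^ 2 - 1) * c), S b ℓ ((c : ℝ) / q)) := by
    have h1 : ∀ q ∈ (Icc 1 Q).filter (fun q => q.Coprime b),
        |(palCount b ⌊y q⌋₊ q (a q) : ℝ) -
          (Nat.gcd q (b ^ 2 - 1) : ℕ) / q *
            (palCount b ⌊y q⌋₊ (Nat.gcd q (b ^ 2 - 1)) (a q) : ℝ)| ≤
        ∑ ℓ ∈ range n, 2 * (1 / (q : ℝ) *
          ∑ c ∈ (range q).filter (fun c => ¬ q ∣ (b ^ 2 - 1) * c), S b ℓ ((c : ℝ) / q)) := by
      intro q hq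
      rw [mem_filter, mem_Icc] at hq
      refine palCount_diff_le hb ?_ (by omega) (a q)
      exact (Nat.floor_le_floor (hy q)).trans_lt hΛ2
    refine (Finset.sum_le_sum h1).trans (le_of_eq ?_)
    rw [Finset.sum_comm]
    refine Finset.sum_congr rfl fun ℓ _ => ?_
    rw [Finset.mul_sum]
  refine hstep.trans ?_
  -- apply the averaged bound
  set W : ℝ := C * Real.sqrt ((b : ℝ) ^ n) * ((n : ℝ) + 1) * Real.exp (-σ * Real.sqrt n) with hW
  have hW0 : 0 ≤ W := by positivity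
  have hlog2 : (Nat.log 2 Q : ℝ) ≤ 2 * (L * n) := by
    have h1 : 2 ^ Nat.log 2 Q ≤ Q := Nat.pow_log_le_self 2 (by omega)
    have h2 : ((2 : ℝ)) ^ Nat.log 2 Q ≤ Q := by exact_mod_cast h1
    have h3 := Real.log_le_log (by positivity) h2
    rw [Real.log_pow] at h3
    have h4 : (1 : ℝ) / 2 ≤ Real.log 2 := by
      have := Real.log_two_gt_d9; linarith
    have h5 : (Nat.log 2 Q : ℝ) * (1 / 2) ≤ (Nat.log 2 Q : ℝ) * Real.log 2 :=
      mul_le_mul_of_nonneg_left h4 (Nat.cast_nonneg _)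
    linarith
  have hcoef : (Nat.log 2 Q : ℝ) * (1 + Real.log Q) ≤ 2 * (1 + L) ^ 2 * (n : ℝ) ^ 2 := by
    calc (Nat.log 2 Q : ℝ) * (1 + Real.log Q) ≤ (2 * (L * n)) * (n + L * n) :=
          mul_le_mul hlog2 (by linarith) (by linarith) (by positivity)
      _ = 2 * (L * (1 + L)) * (n : ℝ) ^ 2 := by ring
      _ ≤ 2 * ((1 + L) * (1 + L)) * (n : ℝ) ^ 2 := by gcongr; linarith
      _ = _ := by ring
  have hbound : ∀ ℓ ∈ range n, 2 * ∑ q ∈ (Icc 1 Q).filter (fun q => q.Coprime b), (1 / (q : ℝ) *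
        ∑ c ∈ (range q).filter (fun c => ¬ q ∣ (b ^ 2 - 1) * c), S b ℓ ((c : ℝ) / q)) ≤
      2 * (2 * (1 + L) ^ 2 * (n : ℝ) ^ 2 * W) := by
    intro ℓ hℓ
    rw [mem_range] at hℓ
    refine mul_le_mul_of_nonneg_left ?_ (by norm_num)
    refine (hmain n ℓ Q hℓ.le hQ1 hQlog).trans ?_
    exact mul_le_mul_of_nonneg_right hcoef hW0
  refine (Finset.sum_le_sum hbound).trans ?_
  rw [sum_const, card_range, nsmul_eq_mul]
  -- final numerics
  have hsqrt : Real.sqrt ((b : ℝ) ^ n) ≤ b * Real.sqrt ((b : ℝ) ^ Λ) := by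
    rw [hn, pow_succ, Real.sqrt_mul (by positivity), mul_comm]
    refine mul_le_mul_of_nonneg_right ?_ (Real.sqrt_nonneg _)
    rw [Real.sqrt_le_left hbp.le]
    nlinarith
  have hcount := palCount_ge hb (Λ := Λ) (X := X) hΛ1
  have hexp := pow_four_mul_exp_le hσ n
  have hexp2 : Real.exp (-(σ / 2) * Real.sqrt n) ≤
      Real.exp (-(σ / 2 / Real.sqrt L) * Real.sqrt (Real.log x)) := by
    rw [Real.exp_le_exp]
    have h1 : Real.sqrt (Real.log x) ≤ Real.sqrt L * Real.sqrt n := by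
      rw [← Real.sqrt_mul hL.le]
      exact Real.sqrt_le_sqrt hlogx
    have hsL : 0 < Real.sqrt L := Real.sqrt_pos.mpr hL
    have h2 : σ / 2 / Real.sqrt L * Real.sqrt (Real.log x) ≤ σ / 2 * Real.sqrt n := by
      calc σ / 2 / Real.sqrt L * Real.sqrt (Real.log x)
          ≤ σ / 2 / Real.sqrt L * (Real.sqrt L * Real.sqrt n) :=
            mul_le_mul_of_nonneg_left h1 (by positivity)
        _ = σ / 2 * Real.sqrt n := by field_simp
    linarith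
  calc (n : ℝ) * (2 * (2 * (1 + L) ^ 2 * (n : ℝ) ^ 2 * W))
      = 4 * (1 + L) ^ 2 * C * Real.sqrt ((b : ℝ) ^ n) *
          ((n : ℝ) ^ 3 * ((n : ℝ) + 1) * Real.exp (-σ * Real.sqrt n)) := by rw [hW]; ring
    _ ≤ 4 * (1 + L) ^ 2 * C * (b * Real.sqrt ((b : ℝ) ^ Λ)) *
          ((n : ℝ) ^ 3 * (n + n) * Real.exp (-σ * Real.sqrt n)) := by
        gcongr
    _ = 8 * (1 + L) ^ 2 * C * b * Real.sqrt ((b : ℝ) ^ Λ) *
          ((n : ℝ) ^ 4 * Real.exp (-σ * Real.sqrt n)) := by ring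
    _ ≤ 8 * (1 + L) ^ 2 * C * b * (b * (palCount b X 1 0 : ℝ)) *
          ((2 / σ) ^ 8 * 40320 * Real.exp (-(σ / 2) * Real.sqrt n)) := by
        gcongr
    _ ≤ 8 * (1 + L) ^ 2 * C * b * (b * (palCount b X 1 0 : ℝ)) *
          ((2 / σ) ^ 8 * 40320 * Real.exp (-(σ / 2 / Real.sqrt L) * Real.sqrt (Real.log x))) := by
        gcongr
    _ = _ := by ring

/-- **Level of distribution `1/4`** for the palindromes in base `b`. -/
theorem level {b : ℕ} (hb : 2 ≤ b) {ε : ℝ} (hε : 0 < ε) :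
    ∃ (σ C : ℝ), 0 < σ ∧ 0 < C ∧ ∀ x : ℝ, 1 ≤ x → ∀ (y : ℕ → ℝ), (∀ q, y q ≤ x) → ∀ (a : ℕ → ℤ),
      ∑ q ∈ (Icc 1 ⌊x ^ (1 / 4 - ε)⌋₊).filter (fun q => q.Coprime b),
        |(palCount b ⌊y q⌋₊ q (a q) : ℝ) -
          (Nat.gcd q (b ^ 2 - 1) : ℕ) / q *
            (palCount b ⌊y q⌋₊ (Nat.gcd q (b ^ 2 - 1)) (a q) : ℝ)| ≤
      C * (palCount b ⌊x⌋₊ 1 0 : ℝ) * Real.exp (-σ * Real.sqrt (Real.log x)) := by
  obtain ⟨σ, C, hσ, hC, h⟩ := level_aux hb (ε := min ε (1 / 4)) (by positivity) (min_le_right _ _)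
  refine ⟨σ, C, hσ, hC, ?_⟩
  intro x hx y hy a
  refine le_trans ?_ (h x hx y hy a)
  refine sum_le_sum_of_subset_of_nonneg ?_ fun _ _ _ => abs_nonneg _
  refine filter_subset_filter _ (Icc_subset_Icc le_rfl ?_)
  refine Nat.floor_le_floor (Real.rpow_le_rpow_of_exponent_le hx ?_)
  have := min_le_left ε (1 / 4)
  linarith

end Pool.Agent.Pal
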