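import Pool.Agent.Pal.Dual

/-!
# First moment bounds for the exponential sum of palindromes
-/

namespace Pool.Agent.Pal

open Finset

/-- Parameters for the interpolation. -/
lemma exists_params {b : ℕ} (hb : 2 ≤ b) {κ : ℝ} (hκ : IsKappa b κ) :
    ∃ (lam lam' : ℕ) (s t ρ : ℝ), 0 < s ∧ s ≤ 1 ∧ 0 < t ∧ t ≤ 1 ∧ 0 < ρ ∧ ρ < 1 ∧
      t ^ 2 ≤ ρ ∧ s ^ 2 * (1 + b * κ ^ lam) ≤ ρ * t ^ (3 * lam) ∧
      (1 + b * κ ^ lam') ^ 2 ≤ ρ * b * (s * t) ^ (3 * lam') := by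
  obtain ⟨hκ0, hκ1, _⟩ := hκ
  have hb0 : (2 : ℝ) ≤ b := by exact_mod_cast hb
  have hbp : (0 : ℝ) < b := by linarith
  -- `lam'`
  obtain ⟨n', hn'⟩ := exists_pow_lt_of_lt_one (by positivity : (0 : ℝ) < 1 / (8 * b)) hκ1
  set L' := n' + 1 with hL'
  have hL'1 : (1 : ℝ) ≤ L' := by rw [hL']; push_cast; linarith [(Nat.cast_nonneg n' : (0:ℝ) ≤ n')]
  have h1 : b * κ ^ L' ≤ 1 / 8 := by
    have : κ ^ L' ≤ κ ^ n' := pow_le_pow_of_le_one hκ0.le hκ1.le (by omega)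
    have h2 : κ ^ L' ≤ 1 / (8 * b) := this.trans hn'.le
    calc b * κ ^ L' ≤ b * (1 / (8 * b)) := mul_le_mul_of_nonneg_left h2 hbp.le
      _ = 1 / 8 := by field_simp
  -- `s`
  set s : ℝ := 1 - 1 / (60 * L') with hs
  have hq : 0 < 1 / (60 * (L' : ℝ)) := by positivity
  have hq1 : 1 / (60 * (L' : ℝ)) ≤ 1 / 60 := by
    rw [div_le_div_iff₀ (by positivity) (by norm_num)]; linarith
  have hs0 : 0 < s := by rw [hs]; linarith
  have hs1 : s < 1 := by rw [hs]; linarith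
  have hs2 : 9 / 10 ≤ s ^ (2 * (3 * L')) := by
    have := one_add_mul_le_pow (a := -(1 / (60 * (L' : ℝ)))) (by linarith) (2 * (3 * L'))
    have e : 1 + -(1 / (60 * (L' : ℝ))) = s := by rw [hs]; ring
    rw [e] at this
    refine le_trans (le_of_eq ?_) this
    push_cast
    field_simp
    norm_num
  -- `lam`
  obtain ⟨n, hn⟩ := exists_pow_lt_of_lt_one (by have : 0 < 1 - s := by linarith
                                                positivity : (0 : ℝ) < (1 - s) / b) hκ1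
  set L := n + 1 with hL
  have hL1 : (1 : ℝ) ≤ L := by rw [hL]; push_cast; linarith [(Nat.cast_nonneg n : (0:ℝ) ≤ n)]
  have h2 : b * κ ^ L ≤ 1 - s := by
    have h3 : κ ^ L ≤ κ ^ n := pow_le_pow_of_le_one hκ0.le hκ1.le (by omega)
    have h4 : κ ^ L ≤ (1 - s) / b := h3.trans hn.le
    calc b * κ ^ L ≤ b * ((1 - s) / b) := mul_le_mul_of_nonneg_left h4 hbp.le
      _ = 1 - s := by field_simp
  -- `t`
  set t : ℝ := 1 - (1 - s) / (6 * L) with ht
  have hr : 0 < (1 - s) / (6 * (L : ℝ)) := by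
    have : 0 < 1 - s := by linarith
    positivity
  have hr1 : (1 - s) / (6 * (L : ℝ)) ≤ (1 - s) := by
    rw [div_le_iff₀ (by positivity)]
    nlinarith
  have ht0 : 0 < t := by rw [ht]; linarith
  have ht1 : t < 1 := by rw [ht]; linarith
  have hst : s ≤ t := by rw [ht]; linarith
  have ht2 : (1 + s) / 2 ≤ t ^ (3 * L) := by
    have := one_add_mul_le_pow (a := -((1 - s) / (6 * (L : ℝ)))) (by linarith) (3 * L)
    have e : 1 + -((1 - s) / (6 * (L : ℝ))) = t := by rw [ht]; ring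
    rw [e] at this
    refine le_trans (le_of_eq ?_) this
    push_cast
    field_simp
    ring
  refine ⟨L, L', s, t, max (t ^ 2) (max (2 * s / (1 + s)) (3 / 4)), hs0, hs1.le, ht0, ht1.le,
    by positivity, ?_, le_max_left _ _, ?_, ?_⟩
  · refine max_lt (by nlinarith) (max_lt ?_ (by norm_num))
    rw [div_lt_one (by linarith)]; linarith
  · have e1 : s ^ 2 * (1 + b * κ ^ L) ≤ s := by
      have e11 : s ^ 2 * (1 + b * κ ^ L) ≤ s ^ 2 * (2 - s) :=
        mul_le_mul_of_nonneg_left (by linarith) (by positivity)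
      have e12 : s * (2 - s) ≤ 1 := by nlinarith [sq_nonneg (1 - s)]
      have e13 : s * (s * (2 - s)) ≤ s * 1 := mul_le_mul_of_nonneg_left e12 hs0.le
      calc s ^ 2 * (1 + b * κ ^ L) ≤ s ^ 2 * (2 - s) := e11
        _ = s * (s * (2 - s)) := by ring
        _ ≤ s := by linarith
    have e2 : 2 * s / (1 + s) ≤ max (t ^ 2) (max (2 * s / (1 + s)) (3 / 4)) :=
      (le_max_left _ _).trans (le_max_right _ _)
    calc s ^ 2 * (1 + b * κ ^ L) ≤ s := e1
      _ = (2 * s / (1 + s)) * ((1 + s) / 2) := by field_simp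
      _ ≤ _ := mul_le_mul e2 ht2 (by linarith) (by positivity)
  · have e2 : 3 / 4 ≤ max (t ^ 2) (max (2 * s / (1 + s)) (3 / 4)) :=
      (le_max_right _ _).trans (le_max_right _ _)
    have e3 : 9 / 10 ≤ (s * t) ^ (3 * L') := by
      calc (9 : ℝ) / 10 ≤ s ^ (2 * (3 * L')) := hs2
        _ = (s * s) ^ (3 * L') := by rw [pow_mul]; ring
        _ ≤ (s * t) ^ (3 * L') := pow_le_pow_left₀ (by positivity) (by nlinarith) _
    have e4 : (1 + b * κ ^ L') ^ 2 ≤ (9 / 8) ^ 2 :=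
      pow_le_pow_left₀ (by positivity) (by linarith) 2
    calc (1 + b * κ ^ L') ^ 2 ≤ (9 / 8) ^ 2 := e4
      _ ≤ (3 / 4) * 2 * (9 / 10) := by norm_num
      _ ≤ max (t ^ 2) (max (2 * s / (1 + s)) (3 / 4)) * b * (s * t) ^ (3 * L') := by
        refine mul_le_mul (mul_le_mul e2 hb0 (by norm_num) (by positivity)) e3 (by norm_num)
          (by positivity)

/-- The pointwise interpolation inequality. -/
lemma mix {H G s t : ℝ} (hH0 : 0 ≤ H) (hH1 : H ≤ 1) (hG0 : 0 ≤ G) (hG1 : G ≤ 1) (hs : 0 < s)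
    (ht : 0 < t) (p p' : ℕ) :
    (G * H) ^ 2 ≤ t ^ 2 * H ^ 2 + s ^ 2 * (G / t) ^ p + (G * H / (s * t)) ^ p' := by
  have n1 : 0 ≤ t ^ 2 * H ^ 2 := by positivity
  have n2 : 0 ≤ s ^ 2 * (G / t) ^ p := by positivity
  have n3 : 0 ≤ (G * H / (s * t)) ^ p' := by positivity
  rcases le_or_gt G t with h1 | h1
  · have : (G * H) ^ 2 ≤ t ^ 2 * H ^ 2 := by
      rw [mul_pow]
      exact mul_le_mul_of_nonneg_right (pow_le_pow_left₀ hG0 h1 2) (by positivity)
    linarith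
  · rcases le_or_gt H s with h2 | h2
    · have h3 : 1 ≤ (G / t) ^ p := one_le_pow₀ ((one_le_div ht).mpr h1.le)
      have : (G * H) ^ 2 ≤ s ^ 2 * (G / t) ^ p := by
        calc (G * H) ^ 2 = G ^ 2 * H ^ 2 := mul_pow _ _ _
          _ ≤ 1 * s ^ 2 := mul_le_mul (pow_le_one₀ hG0 hG1) (pow_le_pow_left₀ hH0 h2 2)
              (by positivity) zero_le_one
          _ = s ^ 2 * 1 := by ring
          _ ≤ s ^ 2 * (G / t) ^ p := mul_le_mul_of_nonneg_left h3 (by positivity)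
      linarith
    · have h3 : 1 ≤ (G * H / (s * t)) ^ p' := by
        refine one_le_pow₀ ((one_le_div (by positivity)).mpr ?_)
        rw [mul_comm]
        exact mul_le_mul h1.le h2.le hs.le hG0
      have : (G * H) ^ 2 ≤ 1 := pow_le_one₀ (by positivity) (mul_le_one₀ hG1 hH0 hH1)
      linarith

/-- Second moment of a long inner block, with a saving. -/
lemma exists_main_sq {b : ℕ} (hb : 2 ≤ b) :
    ∃ (C ρ : ℝ), 0 < C ∧ 0 < ρ ∧ ρ < 1 ∧ ∀ (ℓ k g D : ℕ), g + 1 ≤ k → k + g + 1 ≤ (ℓ + 1) / 2 →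
      (D : ℝ) ≤ (b : ℝ) ^ k →
      ∑ x ∈ J b D, (blk b ℓ ((ℓ + 1) / 2 - k - g - 1) ((ℓ + 1) / 2) (pt b x)) ^ 2 ≤
        C * (b : ℝ) ^ k * ρ ^ g := by
  obtain ⟨κ, hκ⟩ := exists_isKappa hb
  obtain ⟨lam, lam', s, t, ρ, hs0, hs1, ht0, ht1, hρ0, hρ1, p1, p2, p3⟩ := exists_params hb hκ
  have hb0 : (2 : ℝ) ≤ b := by exact_mod_cast hb
  have hbp : (0 : ℝ) < b := by linarith
  have hBp := BB_pos hb
  have hκ0 := hκ.1
  refine ⟨432 * BB b * (b : ℝ) ^ 2, ρ, by positivity, hρ0, hρ1, ?_⟩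
  intro ℓ k g D hgk hkm hD
  set m := (ℓ + 1) / 2 with hm
  have hm1 : 2 * m ≤ ℓ + 1 := by omega
  have hm2 : ℓ + 1 ≤ 2 * m + 1 := by omega
  have hD2 : (D : ℝ) ^ 2 ≤ (b : ℝ) ^ (2 * k) := by
    rw [mul_comm, pow_mul]; exact pow_le_pow_left₀ (by positivity) hD 2
  have hb1 : (1 : ℝ) ≤ b := by linarith
  -- S1
  have S1 : ∑ x ∈ J b D, (blk b ℓ (m - k) m (pt b x)) ^ 2 ≤ 144 * BB b * (b : ℝ) ^ (k + 2) := by
    have h := sum_blk_sq hb (D := D) (ℓ := ℓ) (a := m - k) (k := k) (by omega) (hD2.trans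
      (pow_le_pow_right₀ hb1 (by omega)))
    have e : m - k + k = m := by omega
    rw [e] at h
    refine h.trans ?_
    have h2 : (b : ℝ) ^ (ℓ + 1 - 2 * (m - k)) / (b : ℝ) ^ k ≤ (b : ℝ) ^ (k + 1) := by
      rw [div_le_iff₀ (by positivity), ← pow_add]
      exact pow_le_pow_right₀ hb1 (by omega)
    calc 144 * BB b * (b : ℝ) ^ (ℓ + 1 - 2 * (m - k)) / (b : ℝ) ^ k * b
        = 144 * BB b * b * ((b : ℝ) ^ (ℓ + 1 - 2 * (m - k)) / (b : ℝ) ^ k) := by ring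
      _ ≤ 144 * BB b * b * (b : ℝ) ^ (k + 1) := mul_le_mul_of_nonneg_left h2 (by positivity)
      _ = 144 * BB b * (b : ℝ) ^ (k + 2) := by ring
  -- S2
  have S2 : ∑ x ∈ J b D, (blk b ℓ (m - k + g) m (pt b x)) ^ 2 *
      (blk b ℓ (m - k - g - 1) (m - k) (pt b x)) ^ (3 * lam) ≤
      144 * BB b * (b : ℝ) ^ (k + 2) * (1 + b * κ ^ lam) ^ g := by
    have h := sum_blk_sq_blk hb hκ (D := D) (ℓ := ℓ) (a := m - k + g) (k := k - g)
      (i0 := m - k - g - 1) (i1 := m - k) (by omega) (by omega) (by omega) (by omega)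
      (hD2.trans (pow_le_pow_right₀ hb1 (by omega))) lam
    have e1 : m - k + g + (k - g) = m := by omega
    have e2 : m - k - (m - k - g - 1) - 1 = g := by omega
    rw [e1, e2] at h
    refine h.trans ?_
    have h2 : (b : ℝ) ^ (ℓ + 1 - (m - k) - (m - k + g)) / (b : ℝ) ^ (k - g) ≤ (b : ℝ) ^ (k + 1) := by
      rw [div_le_iff₀ (by positivity), ← pow_add]
      exact pow_le_pow_right₀ hb1 (by omega)
    calc 144 * BB b * (b : ℝ) ^ (ℓ + 1 - (m - k) - (m - k + g)) / (b : ℝ) ^ (k - g) *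
          (b * (1 + b * κ ^ lam) ^ g)
        = 144 * BB b * b * (1 + b * κ ^ lam) ^ g *
          ((b : ℝ) ^ (ℓ + 1 - (m - k) - (m - k + g)) / (b : ℝ) ^ (k - g)) := by ring
      _ ≤ 144 * BB b * b * (1 + b * κ ^ lam) ^ g * (b : ℝ) ^ (k + 1) :=
          mul_le_mul_of_nonneg_left h2 (by positivity)
      _ = 144 * BB b * (b : ℝ) ^ (k + 2) * (1 + b * κ ^ lam) ^ g := by ring
  -- S3
  have S3 : ∑ x ∈ J b D, (blk b ℓ (m - k + g) m (pt b x)) ^ 2 *
      (blk b ℓ (m - k - g - 1) (m - k + g) (pt b x)) ^ (3 * lam') ≤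
      144 * BB b * (b : ℝ) ^ (k + 2) / (b : ℝ) ^ g * (1 + b * κ ^ lam') ^ (2 * g) := by
    have h := sum_blk_sq_blk hb hκ (D := D) (ℓ := ℓ) (a := m - k + g) (k := k - g)
      (i0 := m - k - g - 1) (i1 := m - k + g) (by omega) (by omega) (by omega) (by omega)
      (hD2.trans (pow_le_pow_right₀ hb1 (by omega))) lam'
    have e1 : m - k + g + (k - g) = m := by omega
    have e2 : m - k + g - (m - k - g - 1) - 1 = 2 * g := by omega
    rw [e1, e2] at h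
    refine h.trans ?_
    have h2 : (b : ℝ) ^ (ℓ + 1 - (m - k + g) - (m - k + g)) / (b : ℝ) ^ (k - g) ≤
        (b : ℝ) ^ (k + 1) / (b : ℝ) ^ g := by
      rw [div_le_div_iff₀ (by positivity) (by positivity), ← pow_add, ← pow_add]
      exact pow_le_pow_right₀ hb1 (by omega)
    calc 144 * BB b * (b : ℝ) ^ (ℓ + 1 - (m - k + g) - (m - k + g)) / (b : ℝ) ^ (k - g) *
          (b * (1 + b * κ ^ lam') ^ (2 * g))
        = 144 * BB b * b * (1 + b * κ ^ lam') ^ (2 * g) *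
          ((b : ℝ) ^ (ℓ + 1 - (m - k + g) - (m - k + g)) / (b : ℝ) ^ (k - g)) := by ring
      _ ≤ 144 * BB b * b * (1 + b * κ ^ lam') ^ (2 * g) * ((b : ℝ) ^ (k + 1) / (b : ℝ) ^ g) :=
          mul_le_mul_of_nonneg_left h2 (by positivity)
      _ = 144 * BB b * (b : ℝ) ^ (k + 2) / (b : ℝ) ^ g * (1 + b * κ ^ lam') ^ (2 * g) := by ring
  -- combine
  set S : ℝ := s ^ g with hS
  set T : ℝ := t ^ g with hT
  have hSp : 0 < S := by positivity
  have hTp : 0 < T := by positivity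
  have hpt : ∀ x ∈ J b D, (blk b ℓ (m - k - g - 1) m (pt b x)) ^ 2 ≤
      T ^ 2 * (blk b ℓ (m - k) m (pt b x)) ^ 2 +
      S ^ 2 / T ^ (3 * lam) * ((blk b ℓ (m - k + g) m (pt b x)) ^ 2 *
        (blk b ℓ (m - k - g - 1) (m - k) (pt b x)) ^ (3 * lam)) +
      1 / (S * T) ^ (3 * lam') * ((blk b ℓ (m - k + g) m (pt b x)) ^ 2 *
        (blk b ℓ (m - k - g - 1) (m - k + g) (pt b x)) ^ (3 * lam')) := by
    intro x _
    set A := blk b ℓ (m - k + g) m (pt b x) with hA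
    set Hh := blk b ℓ (m - k) (m - k + g) (pt b x) with hHh
    set G := blk b ℓ (m - k - g - 1) (m - k) (pt b x) with hG
    have e1 : blk b ℓ (m - k) m (pt b x) = Hh * A :=
      (blk_mul b ℓ (by omega) (by omega) _).symm
    have e2 : blk b ℓ (m - k - g - 1) (m - k + g) (pt b x) = G * Hh :=
      (blk_mul b ℓ (by omega) (by omega) _).symm
    have e3 : blk b ℓ (m - k - g - 1) m (pt b x) = G * Hh * A := by
      rw [← e2]; exact (blk_mul b ℓ (by omega) (by omega) _).symm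
    rw [e1, e2, e3]
    have hm := mix (blk_nonneg b ℓ (m - k) (m - k + g) (pt b x))
      (blk_le_one b ℓ (m - k) (m - k + g) (pt b x))
      (blk_nonneg b ℓ (m - k - g - 1) (m - k) (pt b x))
      (blk_le_one b ℓ (m - k - g - 1) (m - k) (pt b x)) hSp hTp (3 * lam) (3 * lam')
    have hA2 : 0 ≤ A ^ 2 := by positivity
    calc (G * Hh * A) ^ 2 = A ^ 2 * (G * Hh) ^ 2 := by ring
      _ ≤ A ^ 2 * (T ^ 2 * Hh ^ 2 + S ^ 2 * (G / T) ^ (3 * lam) +
            (G * Hh / (S * T)) ^ (3 * lam')) := mul_le_mul_of_nonneg_left hm hA2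
      _ = _ := by
        rw [div_pow, div_pow]
        ring
  refine (Finset.sum_le_sum hpt).trans ?_
  rw [Finset.sum_add_distrib, Finset.sum_add_distrib, ← Finset.mul_sum, ← Finset.mul_sum,
    ← Finset.mul_sum]
  have b1 : T ^ 2 * ∑ x ∈ J b D, (blk b ℓ (m - k) m (pt b x)) ^ 2 ≤
      144 * BB b * (b : ℝ) ^ 2 * (b : ℝ) ^ k * ρ ^ g := by
    calc T ^ 2 * ∑ x ∈ J b D, (blk b ℓ (m - k) m (pt b x)) ^ 2
        ≤ T ^ 2 * (144 * BB b * (b : ℝ) ^ (k + 2)) := mul_le_mul_of_nonneg_left S1 (by positivity)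
      _ = 144 * BB b * (b : ℝ) ^ 2 * (b : ℝ) ^ k * (t ^ 2) ^ g := by rw [hT]; ring
      _ ≤ _ := mul_le_mul_of_nonneg_left (pow_le_pow_left₀ (by positivity) p1 g) (by positivity)
  have b2 : S ^ 2 / T ^ (3 * lam) * ∑ x ∈ J b D, (blk b ℓ (m - k + g) m (pt b x)) ^ 2 *
        (blk b ℓ (m - k - g - 1) (m - k) (pt b x)) ^ (3 * lam) ≤
      144 * BB b * (b : ℝ) ^ 2 * (b : ℝ) ^ k * ρ ^ g := by
    calc S ^ 2 / T ^ (3 * lam) * ∑ x ∈ J b D, (blk b ℓ (m - k + g) m (pt b x)) ^ 2 *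
        (blk b ℓ (m - k - g - 1) (m - k) (pt b x)) ^ (3 * lam)
        ≤ S ^ 2 / T ^ (3 * lam) * (144 * BB b * (b : ℝ) ^ (k + 2) * (1 + b * κ ^ lam) ^ g) :=
          mul_le_mul_of_nonneg_left S2 (by positivity)
      _ = 144 * BB b * (b : ℝ) ^ 2 * (b : ℝ) ^ k *
          (s ^ 2 * (1 + b * κ ^ lam) / t ^ (3 * lam)) ^ g := by
          rw [hT, hS, div_pow, mul_pow, ← pow_mul, ← pow_mul, ← pow_mul, ← pow_mul,
            mul_comm g 2, mul_comm g (3 * lam)]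
          ring
      _ ≤ _ := by
        refine mul_le_mul_of_nonneg_left (pow_le_pow_left₀ (by positivity) ?_ g) (by positivity)
        rw [div_le_iff₀ (by positivity)]
        exact p2
  have b3 : 1 / (S * T) ^ (3 * lam') * ∑ x ∈ J b D, (blk b ℓ (m - k + g) m (pt b x)) ^ 2 *
        (blk b ℓ (m - k - g - 1) (m - k + g) (pt b x)) ^ (3 * lam') ≤
      144 * BB b * (b : ℝ) ^ 2 * (b : ℝ) ^ k * ρ ^ g := by
    calc 1 / (S * T) ^ (3 * lam') * ∑ x ∈ J b D, (blk b ℓ (m - k + g) m (pt b x)) ^ 2 *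
        (blk b ℓ (m - k - g - 1) (m - k + g) (pt b x)) ^ (3 * lam')
        ≤ 1 / (S * T) ^ (3 * lam') *
          (144 * BB b * (b : ℝ) ^ (k + 2) / (b : ℝ) ^ g * (1 + b * κ ^ lam') ^ (2 * g)) :=
          mul_le_mul_of_nonneg_left S3 (by positivity)
      _ = 144 * BB b * (b : ℝ) ^ 2 * (b : ℝ) ^ k *
          ((1 + b * κ ^ lam') ^ 2 / (b * (s * t) ^ (3 * lam'))) ^ g := by
          have eST : (S * T) ^ (3 * lam') = ((s * t) ^ (3 * lam')) ^ g := by
            rw [hS, hT, ← mul_pow, ← pow_mul, ← pow_mul, mul_comm g]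
          rw [eST, div_pow, mul_pow (b : ℝ) _ g, ← pow_mul (1 + b * κ ^ lam') 2 g, pow_add]
          have : ((s * t) ^ (3 * lam')) ^ g ≠ 0 := by positivity
          field_simp
      _ ≤ _ := by
        refine mul_le_mul_of_nonneg_left (pow_le_pow_left₀ (by positivity) ?_ g) (by positivity)
        rw [div_le_iff₀ (by positivity)]
        linarith
  linarith

end Pool.Agent.Pal
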