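import Pool.Agent.Pal.Points

/-!
# Moments of blocks over the fractions
-/

namespace Pool.Agent.Pal

open Finset

/-- The multiplicative constant `b^2 - 1`, as a real number. -/
noncomputable def BB (b : ℕ) : ℝ := ((b ^ 2 - 1 : ℕ) : ℝ)

lemma BB_pos {b : ℕ} (hb : 2 ≤ b) : 0 < BB b := by
  unfold BB
  have := sq_sub_one_pos hb
  have h : 0 < b ^ 2 - 1 := by omega
  exact_mod_cast h

/-- Squares of a block weighted by the pattern weight. -/
lemma sum_blk_sq_pattern {b D : ℕ} (hb : 2 ≤ b) {M K ℓ k : ℕ} (hk : 2 * k ≤ ℓ + 1)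
    (hM : ℓ + 1 ≤ M) (hD : (D : ℝ) ^ 2 ≤ (b : ℝ) ^ (M + K)) {ε : ℝ} (hε : 0 ≤ ε) :
    ∑ x ∈ J b D, (blk b ℓ 0 k (pt b x)) ^ 2 * ε ^ chg b K (pat b M K (BB b * pt b x)) ≤
      144 * BB b * (b : ℝ) ^ M / (b : ℝ) ^ k * (b * (1 + b * ε) ^ K) := by
  have hb0 : (0 : ℝ) < b := by
    have : 0 < b := by omega
    exact_mod_cast this
  have h3 := sq_sub_one_pos hb
  rw [← Finset.sum_fiberwise_of_maps_to (s := J b D) (t := range (b ^ K))
    (g := fun x => pat b M K (BB b * pt b x))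
    (fun x _ => mem_range.mpr (pat_lt (by omega) _ _ _))]
  calc ∑ U ∈ range (b ^ K), ∑ x ∈ (J b D).filter (fun x => pat b M K (BB b * pt b x) = U),
        (blk b ℓ 0 k (pt b x)) ^ 2 * ε ^ chg b K (pat b M K (BB b * pt b x))
      ≤ ∑ U ∈ range (b ^ K), (144 * BB b * (b : ℝ) ^ M / (b : ℝ) ^ k) * ε ^ chg b K U := by
        refine Finset.sum_le_sum fun U _ => ?_
        have e1 : ∀ x ∈ (J b D).filter (fun x => pat b M K (BB b * pt b x) = U),
            (blk b ℓ 0 k (pt b x)) ^ 2 * ε ^ chg b K (pat b M K (BB b * pt b x)) =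
            (blk b ℓ 0 k (pt b x)) ^ 2 * ε ^ chg b K U := by
          intro x hx
          rw [(mem_filter.mp hx).2]
        rw [Finset.sum_congr rfl e1, ← Finset.sum_mul]
        refine mul_le_mul_of_nonneg_right ?_ (by positivity)
        exact rls (B := b ^ 2 - 1) (by omega) _ (pt b) (fun x _ => pt_nonneg b x)
          (fun x hx => pt_lt_one (mem_filter.mp hx).1)
          (Q := 4 * ((b ^ 2 - 1 : ℕ) : ℝ) * (D : ℝ) ^ 2) (by omega)
          (fun x hx y hy hxy => pt_sep (mem_filter.mp hx).1 (mem_filter.mp hy).1 hxy)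
          (mul_le_mul_of_nonneg_left hD (by positivity))
          (fun x hx => (mem_filter.mp hx).2) hk hM
    _ = (144 * BB b * (b : ℝ) ^ M / (b : ℝ) ^ k) * ∑ U ∈ range (b ^ K), ε ^ chg b K U := by
        rw [Finset.mul_sum]
    _ ≤ _ := by
        refine mul_le_mul_of_nonneg_left (patsum_le hb hε K) ?_
        have := (BB_pos hb).le
        positivity

/-- Count of points weighted by the pattern weight. -/
lemma sum_pattern {b D : ℕ} (hb : 2 ≤ b) {K : ℕ} (hD : (D : ℝ) ^ 2 ≤ (b : ℝ) ^ K) {ε : ℝ}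
    (hε : 0 ≤ ε) :
    ∑ x ∈ J b D, ε ^ chg b K (pat b 0 K (BB b * pt b x)) ≤ 4 * BB b * (b * (1 + b * ε) ^ K) := by
  have h3 := sq_sub_one_pos hb
  rw [← Finset.sum_fiberwise_of_maps_to (s := J b D) (t := range (b ^ K))
    (g := fun x => pat b 0 K (BB b * pt b x))
    (fun x _ => mem_range.mpr (pat_lt (by omega) _ _ _))]
  calc ∑ U ∈ range (b ^ K), ∑ x ∈ (J b D).filter (fun x => pat b 0 K (BB b * pt b x) = U),
        ε ^ chg b K (pat b 0 K (BB b * pt b x))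
      ≤ ∑ U ∈ range (b ^ K), (4 * BB b) * ε ^ chg b K U := by
        refine Finset.sum_le_sum fun U _ => ?_
        have e1 : ∀ x ∈ (J b D).filter (fun x => pat b 0 K (BB b * pt b x) = U),
            ε ^ chg b K (pat b 0 K (BB b * pt b x)) = ε ^ chg b K U := by
          intro x hx
          rw [(mem_filter.mp hx).2]
        rw [Finset.sum_congr rfl e1, sum_const, nsmul_eq_mul]
        refine mul_le_mul_of_nonneg_right ?_ (by positivity)
        have := card_fiber_le (B := b ^ 2 - 1) (M := 0) (K := K) (U := U) (c := 0) (by omega : 0 < b)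
          ((J b D).filter (fun x => pat b 0 K (BB b * pt b x) = U)) (pt b)
          (fun x _ => pt_nonneg b x) (by omega)
          (Q := 4 * ((b ^ 2 - 1 : ℕ) : ℝ) * (D : ℝ) ^ 2)
          (fun x hx y hy hxy => pt_sep (mem_filter.mp hx).1 (mem_filter.mp hy).1 hxy)
          (by rw [zero_add]; exact mul_le_mul_of_nonneg_left hD (by positivity))
          (fun x hx => (mem_filter.mp hx).2)
          (fun x hx => by
            rw [pow_zero, one_mul, Nat.floor_eq_zero]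
            exact pt_lt_one (mem_filter.mp hx).1)
        unfold BB
        exact_mod_cast this
    _ = (4 * BB b) * ∑ U ∈ range (b ^ K), ε ^ chg b K U := by
        rw [Finset.mul_sum]
    _ ≤ _ := mul_le_mul_of_nonneg_left (patsum_le hb hε K) (by have := (BB_pos hb).le; positivity)

/-- Property of `κ`: the normalised kernel is at most `κ` away from the integers. -/
def IsKappa (b : ℕ) (κ : ℝ) : Prop :=
  0 < κ ∧ κ < 1 ∧ ∀ x : ℝ, (∀ n : ℤ, 1 / (4 * (b : ℝ) ^ 2) ≤ |x - n|) → phi b x ≤ κ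

lemma exists_isKappa {b : ℕ} (hb : 2 ≤ b) : ∃ κ, IsKappa b κ := by
  have hb0 : (2 : ℝ) ≤ b := by exact_mod_cast hb
  obtain ⟨κ, h1, h2, h3⟩ := exists_phi_le hb (τ := 1 / (4 * (b : ℝ) ^ 2)) (by positivity) (by
    rw [div_le_div_iff₀ (by positivity) (by norm_num)]
    nlinarith)
  exact ⟨κ, h1, h2, h3⟩

/-- Shifted pattern. -/
lemma pat_shift (b M M' K : ℕ) (hM : M' ≤ M) (B α : ℝ) :
    pat b M K (B * α) = pat b (M - M') K (B * ((b : ℝ) ^ M' * α)) := by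
  unfold pat
  congr 3
  have : (b : ℝ) ^ M = b ^ (M - M') * b ^ M' := by rw [← pow_add]; congr 1; omega
  rw [this]; ring

/-- General second moment with a high power of an outer block. -/
lemma sum_blk_sq_blk {b D : ℕ} (hb : 2 ≤ b) {κ : ℝ} (hκ : IsKappa b κ) {ℓ a k i0 i1 : ℕ}
    (hak : 2 * (a + k) ≤ ℓ + 1) (ha : 2 * a ≤ ℓ) (h01 : i0 < i1) (h1a : i1 ≤ a)
    (hD : (D : ℝ) ^ 2 ≤ (b : ℝ) ^ ((ℓ + 1 - i1 - a) + (i1 - i0 - 1))) (lam : ℕ) :
    ∑ x ∈ J b D, (blk b ℓ a (a + k) (pt b x)) ^ 2 * (blk b ℓ i0 i1 (pt b x)) ^ (3 * lam) ≤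
      144 * BB b * (b : ℝ) ^ (ℓ + 1 - i1 - a) / (b : ℝ) ^ k *
        (b * (1 + b * κ ^ lam) ^ (i1 - i0 - 1)) := by
  obtain ⟨hκ0, hκ1, hκ2⟩ := hκ
  set K := i1 - i0 - 1 with hK
  set M := ℓ + 1 - i1 - a with hM
  have hε : 0 ≤ κ ^ lam := by positivity
  set Φ : ℝ → ℝ := fun y => (blk b (ℓ - 2 * a) 0 k y) ^ 2 * (κ ^ lam) ^ chg b K (pat b M K (BB b * y))
    with hΦ
  have hper : ∀ (y : ℝ) (n : ℤ), Φ (y + n) = Φ y := by
    intro y n
    simp only [hΦ]
    rw [blk_add_int]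
    have : BB b * (y + n) = BB b * y + (((b ^ 2 - 1 : ℕ) * n : ℤ) : ℝ) := by
      unfold BB; push_cast; ring
    rw [this, pat_add_int]
  have hpt : ∀ x ∈ J b D, (blk b ℓ a (a + k) (pt b x)) ^ 2 *
      (blk b ℓ i0 i1 (pt b x)) ^ (3 * lam) ≤ Φ ((b : ℝ) ^ a * pt b x) := by
    intro x _
    simp only [hΦ]
    have e1 : blk b ℓ a (a + k) (pt b x) = blk b (ℓ - 2 * a) 0 k ((b : ℝ) ^ a * pt b x) := by
      have := blk_scale b (ℓ - 2 * a) 0 k a (by omega) (pt b x)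
      rw [← this]
      have e2 : ℓ - 2 * a + 2 * a = ℓ := by omega
      rw [e2, zero_add, add_comm k a]
    rw [e1]
    refine mul_le_mul_of_nonneg_left ?_ (by positivity)
    have e3 := blk_pow_le_chg hb h01 (by omega : 2 * i1 ≤ ℓ + 1) hκ0 hκ1.le hκ2 lam (pt b x)
    have e4 := pat_shift b (ℓ - i1 + 1) a K (by omega) (BB b) (pt b x)
    have e5 : ℓ - i1 + 1 - a = M := by omega
    rw [e5] at e4
    rw [← e4]
    exact e3
  refine (Finset.sum_le_sum hpt).trans ?_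
  rw [sum_J_mul a Φ hper]
  exact sum_blk_sq_pattern hb (by omega) (by omega) hD hε

/-- Plain second moment of a block. -/
lemma sum_blk_sq {b D : ℕ} (hb : 2 ≤ b) {ℓ a k : ℕ}
    (hak : 2 * (a + k) ≤ ℓ + 1) (hD : (D : ℝ) ^ 2 ≤ (b : ℝ) ^ (ℓ + 1 - 2 * a)) :
    ∑ x ∈ J b D, (blk b ℓ a (a + k) (pt b x)) ^ 2 ≤
      144 * BB b * (b : ℝ) ^ (ℓ + 1 - 2 * a) / (b : ℝ) ^ k * b := by
  set Φ : ℝ → ℝ := fun y => (blk b (ℓ - 2 * a) 0 k y) ^ 2 with hΦ
  have hper : ∀ (y : ℝ) (n : ℤ), Φ (y + n) = Φ y := by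
    intro y n
    simp only [hΦ]
    rw [blk_add_int]
  have hpt : ∀ x ∈ J b D, (blk b ℓ a (a + k) (pt b x)) ^ 2 = Φ ((b : ℝ) ^ a * pt b x) := by
    intro x _
    simp only [hΦ]
    have e1 : blk b ℓ a (a + k) (pt b x) = blk b (ℓ - 2 * a) 0 k ((b : ℝ) ^ a * pt b x) := by
      rcases Nat.eq_zero_or_pos k with hk | hk
      · subst hk
        unfold blk
        simp
      have := blk_scale b (ℓ - 2 * a) 0 k a (by omega) (pt b x)
      rw [← this]
      have e2 : ℓ - 2 * a + 2 * a = ℓ := by omega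
      rw [e2, zero_add, add_comm k a]
    rw [e1]
  rw [Finset.sum_congr rfl hpt, sum_J_mul a Φ hper]
  rcases Nat.lt_or_ge (2 * a) (ℓ + 1) with h2a | h2a
  · have h1 := sum_blk_sq_pattern hb (D := D) (M := ℓ + 1 - 2 * a) (K := 0) (ℓ := ℓ - 2 * a) (k := k)
      (by omega) (by omega) (by rwa [add_zero]) (ε := 1) zero_le_one
    simpa using h1
  · -- degenerate case `k = 0`, `D ≤ 1`
    have hk : k = 0 := by omega
    subst hk
    have h0 : ℓ + 1 - 2 * a = 0 := by omega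
    have h1 : ∑ x ∈ J b D, Φ (pt b x) = ((J b D).card : ℝ) := by
      simp [hΦ, blk]
    rw [h1, h0]
    rw [h0] at hD
    have h2 := card_J_le (b := b) (D := D)
    have hb0 : (2 : ℝ) ≤ b := by exact_mod_cast hb
    have hB := BB_pos hb
    have h3 : 2 * ((b ^ 2 - 1 : ℕ) : ℝ) * (D : ℝ) ^ 2 ≤ 2 * BB b * 1 := by
      refine mul_le_mul_of_nonneg_left (by simpa using hD) ?_
      positivity
    simp only [pow_zero, mul_one, div_one]
    nlinarith

/-- Pure high moment of a block. -/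
lemma sum_blk_pow {b D : ℕ} (hb : 2 ≤ b) {κ : ℝ} (hκ : IsKappa b κ) {ℓ i0 i1 : ℕ}
    (h01 : i0 < i1) (h1 : 2 * i1 ≤ ℓ + 1)
    (hD : (D : ℝ) ^ 2 ≤ (b : ℝ) ^ (i1 - i0 - 1)) (lam : ℕ) :
    ∑ x ∈ J b D, (blk b ℓ i0 i1 (pt b x)) ^ (3 * lam) ≤
      4 * BB b * (b * (1 + b * κ ^ lam) ^ (i1 - i0 - 1)) := by
  obtain ⟨hκ0, hκ1, hκ2⟩ := hκ
  set K := i1 - i0 - 1 with hK
  have hε : 0 ≤ κ ^ lam := by positivity
  set Φ : ℝ → ℝ := fun y => (κ ^ lam) ^ chg b K (pat b 0 K (BB b * y)) with hΦ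
  have hper : ∀ (y : ℝ) (n : ℤ), Φ (y + n) = Φ y := by
    intro y n
    simp only [hΦ]
    have : BB b * (y + n) = BB b * y + (((b ^ 2 - 1 : ℕ) * n : ℤ) : ℝ) := by
      unfold BB; push_cast; ring
    rw [this, pat_add_int]
  have hpt : ∀ x ∈ J b D, (blk b ℓ i0 i1 (pt b x)) ^ (3 * lam) ≤
      Φ ((b : ℝ) ^ (ℓ - i1 + 1) * pt b x) := by
    intro x _
    simp only [hΦ]
    have e3 := blk_pow_le_chg hb h01 h1 hκ0 hκ1.le hκ2 lam (pt b x)
    have e4 := pat_shift b (ℓ - i1 + 1) (ℓ - i1 + 1) K le_rfl (BB b) (pt b x)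
    rw [Nat.sub_self] at e4
    rw [← e4]
    exact e3
  refine (Finset.sum_le_sum hpt).trans ?_
  rw [sum_J_mul _ Φ hper]
  exact sum_pattern hb hD hε

end Pool.Agent.Pal
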