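import Pool.Agent.Pal.Central

/-!
# Palindromes of a given length and their exponential sums
-/

namespace Pool.Agent.Pal

open Finset

/-- The palindrome with `ℓ + 1` digits (leading zeros allowed) whose `ℓ / 2 + 1` leading digits
are the digits of `h`. -/
def pal (b : ℕ) : ℕ → ℕ → ℕ
  | 0, h => h
  | 1, h => h * (1 + b)
  | ℓ + 2, h => (h / b ^ (ℓ / 2 + 1)) * (1 + b ^ (ℓ + 2)) + b * pal b ℓ (h % b ^ (ℓ / 2 + 1))

lemma pal_zero (b h : ℕ) : pal b 0 h = h := rfl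
lemma pal_one (b h : ℕ) : pal b 1 h = h * (1 + b) := rfl
lemma pal_succ_succ (b ℓ h : ℕ) : pal b (ℓ + 2) h =
    (h / b ^ (ℓ / 2 + 1)) * (1 + b ^ (ℓ + 2)) + b * pal b ℓ (h % b ^ (ℓ / 2 + 1)) := rfl

lemma pal_split {b : ℕ} (ℓ c h : ℕ) (hh : h < b ^ (ℓ / 2 + 1)) :
    pal b (ℓ + 2) (c * b ^ (ℓ / 2 + 1) + h) = c * (1 + b ^ (ℓ + 2)) + b * pal b ℓ h := by
  have hpos : 0 < b ^ (ℓ / 2 + 1) := by omega
  rw [pal_succ_succ]
  have e1 : (c * b ^ (ℓ / 2 + 1) + h) % b ^ (ℓ / 2 + 1) = h := by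
    rw [add_comm, Nat.add_mul_mod_self_right, Nat.mod_eq_of_lt hh]
  have e2 : (c * b ^ (ℓ / 2 + 1) + h) / b ^ (ℓ / 2 + 1) = c := by
    rw [mul_comm c, Nat.mul_add_div hpos, Nat.div_eq_of_lt hh, add_zero]
  rw [e1, e2]

/-- Induction in steps of two. -/
lemma two_step_induction {P : ℕ → Prop} (h0 : P 0) (h1 : P 1) (h2 : ∀ n, P n → P (n + 2)) :
    ∀ n, P n
  | 0 => h0
  | 1 => h1
  | n + 2 => h2 n (two_step_induction h0 h1 h2 n)

lemma pal_lt {b : ℕ} (hb : 1 ≤ b) (ℓ : ℕ) : ∀ h, h < b ^ (ℓ / 2 + 1) → pal b ℓ h < b ^ (ℓ + 1) := by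
  induction ℓ using two_step_induction with
  | h0 => intro h hh; simpa [pal_zero] using hh
  | h1 =>
    intro h hh
    rw [pal_one]
    have : h + 1 ≤ b := by simpa using hh
    calc h * (1 + b) < (h + 1) * b := by nlinarith
      _ ≤ b * b := Nat.mul_le_mul_right _ this
      _ = b ^ (1 + 1) := by ring
  | h2 ℓ ih =>
    intro h hh
    have e : (ℓ + 2) / 2 + 1 = (ℓ / 2 + 1) + 1 := by omega
    rw [e] at hh
    have hpos : 0 < b ^ (ℓ / 2 + 1) := pow_pos (by omega) _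
    have h1 := ih (h % b ^ (ℓ / 2 + 1)) (Nat.mod_lt _ hpos)
    have h2 : h / b ^ (ℓ / 2 + 1) + 1 ≤ b := by
      have : h / b ^ (ℓ / 2 + 1) < b := by
        rw [Nat.div_lt_iff_lt_mul hpos, mul_comm, ← pow_succ]; exact hh
      omega
    rw [pal_succ_succ]
    set c := h / b ^ (ℓ / 2 + 1)
    set p := pal b ℓ (h % b ^ (ℓ / 2 + 1))
    have hc : c ≤ b ^ (ℓ + 2) := by
      calc c ≤ b := by omega
        _ = b ^ 1 := (pow_one b).symm
        _ ≤ b ^ (ℓ + 2) := Nat.pow_le_pow_right hb (by omega)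
    have e3 : b ^ (ℓ + 2) = b * b ^ (ℓ + 1) := by ring
    have h3 : b * (p + 1) ≤ b ^ (ℓ + 2) := by rw [e3]; exact Nat.mul_le_mul_left _ h1
    calc c * (1 + b ^ (ℓ + 2)) + b * p < c * (1 + b ^ (ℓ + 2)) + b ^ (ℓ + 2) - c + 0 + 0 := by
          -- `c < b ≤ b` handled below
          have : c + b * p < b ^ (ℓ + 2) := by nlinarith
          have : c * (1 + b ^ (ℓ + 2)) = c + c * b ^ (ℓ + 2) := by ring
          omega
      _ = (c + 1) * b ^ (ℓ + 2) := by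
          have : c * (1 + b ^ (ℓ + 2)) = c + c * b ^ (ℓ + 2) := by ring
          have h5 : (c + 1) * b ^ (ℓ + 2) = c * b ^ (ℓ + 2) + b ^ (ℓ + 2) := by ring
          omega
      _ ≤ b * b ^ (ℓ + 2) := Nat.mul_le_mul_right _ h2
      _ = b ^ (ℓ + 2 + 1) := by ring

lemma pal_strictMono {b : ℕ} (hb : 1 ≤ b) (ℓ : ℕ) : ∀ h h', h < h' → h' < b ^ (ℓ / 2 + 1) →
    pal b ℓ h < pal b ℓ h' := by
  induction ℓ using two_step_induction with
  | h0 => intro h h' hlt _; simpa [pal_zero] using hlt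
  | h1 =>
    intro h h' hlt _
    rw [pal_one, pal_one]
    exact Nat.mul_lt_mul_of_pos_right hlt (by omega)
  | h2 ℓ ih =>
    intro h h' hlt hh'
    have hpos : 0 < b ^ (ℓ / 2 + 1) := pow_pos (by omega) _
    set W := b ^ (ℓ / 2 + 1) with hW
    have d1 := Nat.div_add_mod h W
    have d2 := Nat.div_add_mod h' W
    have m1 := Nat.mod_lt h hpos
    have m2 := Nat.mod_lt h' hpos
    rw [pal_succ_succ, pal_succ_succ, ← hW]
    rcases Nat.lt_or_ge (h / W) (h' / W) with hc | hc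
    · have h1 := pal_lt hb ℓ (h % W) m1
      have e3 : b ^ (ℓ + 2) = b * b ^ (ℓ + 1) := by ring
      have h3 : b * (pal b ℓ (h % W) + 1) ≤ b ^ (ℓ + 2) := by
        rw [e3]; exact Nat.mul_le_mul_left _ h1
      calc h / W * (1 + b ^ (ℓ + 2)) + b * pal b ℓ (h % W)
          < h / W * (1 + b ^ (ℓ + 2)) + (1 + b ^ (ℓ + 2)) := by nlinarith
        _ = (h / W + 1) * (1 + b ^ (ℓ + 2)) := by ring
        _ ≤ h' / W * (1 + b ^ (ℓ + 2)) := Nat.mul_le_mul_right _ hc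
        _ ≤ _ := Nat.le_add_right _ _
    · have hle : h / W ≤ h' / W := Nat.div_le_div_right hlt.le
      have heq : h / W = h' / W := le_antisymm hle hc
      rw [heq] at d1 ⊢
      have := ih (h % W) (h' % W) (by omega) m2
      have h4 : b * pal b ℓ (h % W) < b * pal b ℓ (h' % W) :=
        Nat.mul_lt_mul_of_pos_left this (by omega)
      omega

/-- The exponential sum over the first `H` palindromes of length `ℓ + 1`. -/
noncomputable def E (b ℓ H : ℕ) (α : ℝ) : ℂ := ∑ h ∈ range H, ex (pal b ℓ h * α)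

lemma E_split {b : ℕ} (ℓ C H : ℕ) (hH : H ≤ b ^ (ℓ / 2 + 1)) (α : ℝ) :
    E b (ℓ + 2) (C * b ^ (ℓ / 2 + 1) + H) α =
      dir C (α * ((1 + b ^ (ℓ + 2) : ℕ) : ℝ)) * E b ℓ (b ^ (ℓ / 2 + 1)) (b * α) +
      ex (C * ((1 + b ^ (ℓ + 2) : ℕ) : ℝ) * α) * E b ℓ H (b * α) := by
  have hterm : ∀ c h, h < b ^ (ℓ / 2 + 1) → ex (pal b (ℓ + 2) (c * b ^ (ℓ / 2 + 1) + h) * α) =
      ex (c * ((1 + b ^ (ℓ + 2) : ℕ) : ℝ) * α) * ex (pal b ℓ h * (b * α)) := by
    intro c h hh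
    rw [pal_split ℓ c h hh, ← ex_add]
    congr 1
    push_cast
    ring
  unfold E
  rw [Finset.sum_range_add, sum_range_mul]
  congr 1
  · unfold dir
    rw [Finset.sum_mul]
    refine Finset.sum_congr rfl fun c _ => ?_
    rw [Finset.mul_sum]
    refine Finset.sum_congr rfl fun h hh => ?_
    rw [hterm c h (mem_range.mp hh)]
    congr 2
    ring
  · rw [Finset.mul_sum]
    refine Finset.sum_congr rfl fun h hh => ?_
    rw [hterm C h ((mem_range.mp hh).trans_le hH)]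

/-- The full sum. -/
lemma norm_E_full {b : ℕ} (hb : 1 ≤ b) (ℓ : ℕ) : ∀ α : ℝ,
    ‖E b ℓ (b ^ (ℓ / 2 + 1)) α‖ ≤ (b : ℝ) ^ (ℓ / 2 + 1) * blk b ℓ 0 ((ℓ + 1) / 2) α := by
  have hb0 : (0 : ℝ) < b := by exact_mod_cast hb
  induction ℓ using two_step_induction with
  | h0 =>
    intro α
    have : blk b 0 0 ((0 + 1) / 2) α = 1 := by simp [blk]
    rw [this, mul_one]
    unfold E
    refine (norm_sum_le _ _).trans ?_
    simp [norm_ex]
  | h1 =>
    intro α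
    have e1 : blk b 1 0 ((1 + 1) / 2) α = phi b (α * ((1 + b : ℕ) : ℝ)) := by
      simp [blk, wt]
    have e2 : E b 1 (b ^ (1 / 2 + 1)) α = dir b (α * ((1 + b : ℕ) : ℝ)) := by
      unfold E dir
      norm_num
      refine Finset.sum_congr rfl fun h _ => ?_
      rw [pal_one]
      congr 1
      push_cast
      ring
    rw [e1, e2, norm_dir_eq (by omega)]
    norm_num
  | h2 ℓ ih =>
    intro α
    have e : (ℓ + 2) / 2 + 1 = (ℓ / 2 + 1) + 1 := by omega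
    have e1 : b ^ ((ℓ + 2) / 2 + 1) = b * b ^ (ℓ / 2 + 1) + 0 := by
      rw [e, pow_succ, mul_comm, add_zero]
    rw [e1, E_split ℓ b 0 (Nat.zero_le _)]
    have e2 : E b ℓ 0 (b * α) = 0 := by simp [E]
    rw [e2, mul_zero, add_zero, norm_mul, norm_dir_eq (by omega)]
    have e3 : blk b (ℓ + 2) 0 ((ℓ + 2 + 1) / 2) α =
        phi b (α * ((1 + b ^ (ℓ + 2) : ℕ) : ℝ)) * blk b ℓ 0 ((ℓ + 1) / 2) (b * α) := by
      have h4 : (ℓ + 2 + 1) / 2 = (ℓ + 1) / 2 + 1 := by omega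
      rw [h4, ← blk_mul b (ℓ + 2) (Nat.zero_le 1) (by omega : 1 ≤ (ℓ + 1) / 2 + 1)]
      have h5 := blk_scale b ℓ 0 ((ℓ + 1) / 2) 1 (by omega) α
      rw [pow_one, mul_one, zero_add] at h5
      rw [h5]
      congr 1
      simp [blk, wt]
    rw [e3, e, pow_succ]
    calc (b : ℝ) * phi b (α * ((1 + b ^ (ℓ + 2) : ℕ) : ℝ)) * ‖E b ℓ (b ^ (ℓ / 2 + 1)) (b * α)‖
        ≤ (b : ℝ) * phi b (α * ((1 + b ^ (ℓ + 2) : ℕ) : ℝ)) *
          ((b : ℝ) ^ (ℓ / 2 + 1) * blk b ℓ 0 ((ℓ + 1) / 2) (b * α)) :=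
          mul_le_mul_of_nonneg_left (ih (b * α)) (mul_nonneg hb0.le (phi_nonneg _ _))
      _ = _ := by ring_nf

/-- Majorant of all the partial sums of length `ℓ + 1`. -/
noncomputable def S (b : ℕ) : ℕ → ℝ → ℝ
  | 0, _ => b
  | 1, _ => b
  | ℓ + 2, α => (b : ℝ) ^ (ℓ / 2 + 2) * blk b ℓ 0 ((ℓ + 1) / 2) (b * α) + S b ℓ (b * α)

lemma S_nonneg (b ℓ : ℕ) : ∀ α, 0 ≤ S b ℓ α := by
  induction ℓ using two_step_induction with
  | h0 => intro α; exact Nat.cast_nonneg b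
  | h1 => intro α; exact Nat.cast_nonneg b
  | h2 ℓ ih =>
    intro α
    have := ih (b * α)
    have h2 := blk_nonneg b ℓ 0 ((ℓ + 1) / 2) (b * α)
    show 0 ≤ (b : ℝ) ^ (ℓ / 2 + 2) * blk b ℓ 0 ((ℓ + 1) / 2) (b * α) + S b ℓ (b * α)
    positivity

lemma S_add_int (b ℓ : ℕ) : ∀ (α : ℝ) (n : ℤ), S b ℓ (α + n) = S b ℓ α := by
  induction ℓ using two_step_induction with
  | h0 => intro α n; rfl
  | h1 => intro α n; rfl
  | h2 ℓ ih =>
    intro α n
    show (b : ℝ) ^ (ℓ / 2 + 2) * blk b ℓ 0 ((ℓ + 1) / 2) (b * (α + n)) + S b ℓ (b * (α + n)) =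
      (b : ℝ) ^ (ℓ / 2 + 2) * blk b ℓ 0 ((ℓ + 1) / 2) (b * α) + S b ℓ (b * α)
    have : (b : ℝ) * (α + n) = b * α + ((b * n : ℤ) : ℝ) := by push_cast; ring
    rw [this, ih, blk_add_int]

lemma norm_E_le_S {b : ℕ} (hb : 1 ≤ b) (ℓ : ℕ) : ∀ (H : ℕ) (α : ℝ), H ≤ b ^ (ℓ / 2 + 1) →
    ‖E b ℓ H α‖ ≤ S b ℓ α := by
  have hb0 : (0 : ℝ) < b := by exact_mod_cast hb
  induction ℓ using two_step_induction with
  | h0 =>
    intro H α hH
    show _ ≤ (b : ℝ)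
    unfold E
    refine (norm_sum_le _ _).trans ?_
    simp only [norm_ex, sum_const, card_range, nsmul_eq_mul, mul_one]
    have : H ≤ b := by simpa using hH
    exact_mod_cast this
  | h1 =>
    intro H α hH
    show _ ≤ (b : ℝ)
    unfold E
    refine (norm_sum_le _ _).trans ?_
    simp only [norm_ex, sum_const, card_range, nsmul_eq_mul, mul_one]
    have : H ≤ b := by simpa using hH
    exact_mod_cast this
  | h2 ℓ ih =>
    intro H α hH
    have e : (ℓ + 2) / 2 + 1 = (ℓ / 2 + 1) + 1 := by omega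
    have hpos : 0 < b ^ (ℓ / 2 + 1) := pow_pos (by omega) _
    have h1 := Nat.div_add_mod H (b ^ (ℓ / 2 + 1))
    have h2 := Nat.mod_lt H hpos
    have h3 : H / b ^ (ℓ / 2 + 1) ≤ b := by
      rw [e, pow_succ] at hH
      exact Nat.div_le_of_le_mul hH
    set C := H / b ^ (ℓ / 2 + 1) with hC
    set H' := H % b ^ (ℓ / 2 + 1) with hH'
    have h4 : H = C * b ^ (ℓ / 2 + 1) + H' := by rw [mul_comm]; exact h1.symm
    rw [h4, E_split ℓ C H' h2.le]
    refine (norm_add_le _ _).trans ?_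
    show _ ≤ (b : ℝ) ^ (ℓ / 2 + 2) * blk b ℓ 0 ((ℓ + 1) / 2) (b * α) + S b ℓ (b * α)
    refine add_le_add ?_ ?_
    · rw [norm_mul]
      have h5 := norm_E_full hb ℓ (b * α)
      have h6 : ‖dir C (α * ((1 + b ^ (ℓ + 2) : ℕ) : ℝ))‖ ≤ b :=
        (norm_dir_le _ _).trans (by exact_mod_cast h3)
      calc ‖dir C (α * ((1 + b ^ (ℓ + 2) : ℕ) : ℝ))‖ * ‖E b ℓ (b ^ (ℓ / 2 + 1)) (b * α)‖
          ≤ b * ((b : ℝ) ^ (ℓ / 2 + 1) * blk b ℓ 0 ((ℓ + 1) / 2) (b * α)) :=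
            mul_le_mul h6 h5 (norm_nonneg _) hb0.le
        _ = _ := by ring
    · rw [norm_mul, norm_ex, one_mul]
      exact ih H' (b * α) h2.le

/-- The majorant summed over the fractions. -/
lemma sum_S_le {b : ℕ} (hb : 2 ≤ b) {ε : ℝ} (hε : 0 < ε) (hε4 : ε ≤ 1 / 4) :
    ∃ (σ C : ℝ), 0 < σ ∧ 0 < C ∧ ∀ Λ ℓ D : ℕ, ℓ ≤ Λ → 2 ≤ D →
      Real.log D ≤ (1 / 4 - ε) * Real.log b * Λ →
      ∑ x ∈ J b D, S b ℓ (pt b x) ≤
        C * Real.sqrt ((b : ℝ) ^ Λ) * D * ((Λ : ℝ) + 1) * Real.exp (-σ * Real.sqrt Λ) := by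
  obtain ⟨σ, C, hσ, hC, hmain⟩ := central hb hε hε4
  have hb0 : (2 : ℝ) ≤ b := by exact_mod_cast hb
  have hbp : (0 : ℝ) < b := by linarith
  have hb1 : (1 : ℝ) ≤ b := by linarith
  have hL := log_pos_b hb
  have hBp := BB_pos hb
  refine ⟨min (σ / 2) (Real.log b / 4), b * (2 * BB b) + b ^ 2 * Real.sqrt C, by positivity,
    by positivity, ?_⟩
  intro Λ ℓ D hℓ hD hDL
  have hDp : (0 : ℝ) < D := by
    have : 0 < D := by omega
    exact_mod_cast this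
  set M : ℝ := Real.sqrt ((b : ℝ) ^ Λ) * D * Real.exp (-(min (σ / 2) (Real.log b / 4)) * Real.sqrt Λ)
    with hM
  have hM0 : 0 < M := by positivity
  -- each `T` term
  have hT : ∀ ℓ' : ℕ, ℓ' ≤ Λ → (b : ℝ) ^ (ℓ' / 2 + 2) * T b ℓ' D ≤ b ^ 2 * Real.sqrt C * M := by
    intro ℓ' hℓ'
    have h1 := hmain Λ ℓ' D hℓ' hD hDL
    unfold Bd at h1
    have h2 : ((b : ℝ) ^ (ℓ' / 2) * T b ℓ' D) ^ 2 ≤ C * (b : ℝ) ^ Λ * (D : ℝ) ^ 2 *
        Real.exp (-σ * Real.sqrt Λ) := by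
      refine le_trans ?_ h1
      rw [mul_pow]
      refine mul_le_mul_of_nonneg_right ?_ (by positivity)
      rw [← pow_mul]
      exact pow_le_pow_right₀ hb1 (by omega)
    have h3 : (b : ℝ) ^ (ℓ' / 2) * T b ℓ' D ≤ Real.sqrt C * Real.sqrt ((b : ℝ) ^ Λ) * D *
        Real.exp (-(σ / 2) * Real.sqrt Λ) := by
      refine le_of_sq_le_sq ?_ (by positivity)
      refine h2.trans (le_of_eq ?_)
      rw [mul_pow, mul_pow, mul_pow, Real.sq_sqrt hC.le, Real.sq_sqrt (by positivity),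
        ← Real.exp_nat_mul]
      congr 2
      push_cast; ring
    have h4 : Real.exp (-(σ / 2) * Real.sqrt Λ) ≤
        Real.exp (-(min (σ / 2) (Real.log b / 4)) * Real.sqrt Λ) := by
      rw [Real.exp_le_exp]
      have := Real.sqrt_nonneg (Λ : ℝ)
      have h5 := min_le_left (σ / 2) (Real.log b / 4)
      nlinarith
    calc (b : ℝ) ^ (ℓ' / 2 + 2) * T b ℓ' D = b ^ 2 * ((b : ℝ) ^ (ℓ' / 2) * T b ℓ' D) := by
          rw [pow_add]; ring
      _ ≤ b ^ 2 * (Real.sqrt C * Real.sqrt ((b : ℝ) ^ Λ) * D *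
          Real.exp (-(σ / 2) * Real.sqrt Λ)) := mul_le_mul_of_nonneg_left h3 (by positivity)
      _ ≤ b ^ 2 * (Real.sqrt C * Real.sqrt ((b : ℝ) ^ Λ) * D *
          Real.exp (-(min (σ / 2) (Real.log b / 4)) * Real.sqrt Λ)) := by gcongr
      _ = _ := by rw [hM]; ring
  -- the trivial term
  have hJ : (b : ℝ) * ((J b D).card : ℝ) ≤ b * (2 * BB b) * M := by
    have h1 := card_J_le (b := b) (D := D)
    have h2 : (D : ℝ) ≤ Real.sqrt ((b : ℝ) ^ Λ) *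
        Real.exp (-(min (σ / 2) (Real.log b / 4)) * Real.sqrt Λ) := by
      have h3 : Real.sqrt ((b : ℝ) ^ Λ) = Real.exp (Real.log b * Λ / 2) := by
        rw [Real.sqrt_eq_iff_mul_self_eq (by positivity) (Real.exp_pos _).le, ← Real.exp_add,
          pow_eq_exp hb]
        congr 1; ring
      rw [h3, ← Real.exp_add]
      nth_rewrite 1 [← Real.exp_log hDp]
      rw [Real.exp_le_exp]
      have h5 := sqrt_nat_le Λ
      have h6 : min (σ / 2) (Real.log b / 4) * Real.sqrt Λ ≤ Real.log b / 4 * Λ := by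
        refine mul_le_mul (min_le_right _ _) h5 (Real.sqrt_nonneg _) (by positivity)
      have h7 : 0 ≤ ε * Real.log b * Λ := by positivity
      linarith
    calc (b : ℝ) * ((J b D).card : ℝ) ≤ b * (2 * BB b * (D : ℝ) ^ 2) :=
          mul_le_mul_of_nonneg_left h1 hbp.le
      _ = b * (2 * BB b) * (D * D) := by ring
      _ ≤ b * (2 * BB b) * (D * (Real.sqrt ((b : ℝ) ^ Λ) *
        Real.exp (-(min (σ / 2) (Real.log b / 4)) * Real.sqrt Λ))) := by gcongr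
      _ = _ := by rw [hM]; ring
  -- recursion
  have hrec : ∀ ℓ' : ℕ, ℓ' ≤ Λ → ∑ x ∈ J b D, S b ℓ' (pt b x) ≤
      b * (2 * BB b) * M + ℓ' * (b ^ 2 * Real.sqrt C * M) := by
    intro ℓ'
    induction ℓ' using two_step_induction with
    | h0 =>
      intro _
      have : ∑ x ∈ J b D, S b 0 (pt b x) = (b : ℝ) * ((J b D).card : ℝ) := by
        show ∑ x ∈ J b D, (b : ℝ) = _
        rw [sum_const, nsmul_eq_mul, mul_comm]
      rw [this]
      simpa using hJ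
    | h1 =>
      intro _
      have : ∑ x ∈ J b D, S b 1 (pt b x) = (b : ℝ) * ((J b D).card : ℝ) := by
        show ∑ x ∈ J b D, (b : ℝ) = _
        rw [sum_const, nsmul_eq_mul, mul_comm]
      rw [this]
      have : 0 ≤ ((1 : ℕ) : ℝ) * (b ^ 2 * Real.sqrt C * M) := by positivity
      linarith
    | h2 ℓ' ih =>
      intro hℓ'
      have h1 := ih (by omega)
      have h2 := hT ℓ' (by omega)
      have h3 : ∑ x ∈ J b D, S b (ℓ' + 2) (pt b x) =
          (b : ℝ) ^ (ℓ' / 2 + 2) * T b ℓ' D + ∑ x ∈ J b D, S b ℓ' (pt b x) := by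
        have h4 : ∀ x ∈ J b D, S b (ℓ' + 2) (pt b x) =
            (b : ℝ) ^ (ℓ' / 2 + 2) * blk b ℓ' 0 ((ℓ' + 1) / 2) ((b : ℝ) ^ 1 * pt b x) +
              S b ℓ' ((b : ℝ) ^ 1 * pt b x) := by
          intro x _
          rw [pow_one]
          rfl
        rw [Finset.sum_congr rfl h4, Finset.sum_add_distrib, ← Finset.mul_sum,
          sum_J_mul 1 (fun y => blk b ℓ' 0 ((ℓ' + 1) / 2) y) (fun y n => blk_add_int _ _ _ _ _ _),
          sum_J_mul 1 (S b ℓ') (S_add_int b ℓ')]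
        rfl
      rw [h3]
      push_cast
      have h5 : 0 ≤ b ^ 2 * Real.sqrt C * M := by positivity
      linarith
  refine (hrec ℓ hℓ).trans ?_
  have hℓr : (ℓ : ℝ) ≤ Λ := by exact_mod_cast hℓ
  have hΛ0 : (0 : ℝ) ≤ Λ := Nat.cast_nonneg _
  calc b * (2 * BB b) * M + ℓ * (b ^ 2 * Real.sqrt C * M)
      ≤ b * (2 * BB b) * M * ((Λ : ℝ) + 1) + ((Λ : ℝ) + 1) * (b ^ 2 * Real.sqrt C * M) := by
        refine add_le_add ?_ ?_
        · have : 0 ≤ b * (2 * BB b) * M := by positivity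
          nlinarith
        · refine mul_le_mul_of_nonneg_right (by linarith) (by positivity)
    _ = _ := by rw [hM]; ring

end Pool.Agent.Pal
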