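import Pool.Agent.Pal.Rls

/-!
# Digit patterns forced by large blocks
-/

namespace Pool.Agent.Pal

open Finset

/-- Number of pairs of adjacent different digits among the `K` lowest base-`b` digits of `U`. -/
def chg (b K U : ℕ) : ℕ := ((range (K - 1)).filter (fun j => U / b ^ j % b ≠ U / b ^ (j + 1) % b)).card

lemma chg_succ {b : ℕ} (K U : ℕ) :
    chg b (K + 2) U = (if U % b ≠ U / b % b then 1 else 0) + chg b (K + 1) (U / b) := by
  unfold chg
  have e1 : K + 2 - 1 = K + 1 := by omega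
  have e2 : K + 1 - 1 = K := by omega
  rw [e1, e2]
  rw [Finset.card_filter, Finset.card_filter, Finset.sum_range_succ', add_comm]
  congr 1
  · simp
  · refine Finset.sum_congr rfl fun j _ => ?_
    rw [Nat.div_div_eq_div_mul, Nat.div_div_eq_div_mul, ← pow_succ', ← pow_succ']

lemma patsum_le {b : ℕ} (hb : 2 ≤ b) {ε : ℝ} (hε : 0 ≤ ε) (K : ℕ) :
    ∑ U ∈ range (b ^ K), ε ^ chg b K U ≤ b * (1 + b * ε) ^ K := by
  have hb0 : (2 : ℝ) ≤ b := by exact_mod_cast hb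
  have hbε : 0 ≤ b * ε := by positivity
  have main : ∀ K : ℕ, ∑ U ∈ range (b ^ (K + 1)), ε ^ chg b (K + 1) U ≤ b * (1 + b * ε) ^ K := by
    intro K
    induction K with
    | zero => simp [chg]
    | succ K ih =>
      have h1 : b ^ (K + 1 + 1) = b ^ (K + 1) * b := pow_succ _ _
      rw [h1, sum_range_mul]
      have h2 : ∀ c ∈ range (b ^ (K + 1)), ∑ h ∈ range b, ε ^ chg b (K + 1 + 1) (c * b + h) ≤
          ε ^ chg b (K + 1) c * (1 + b * ε) := by
        intro c _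
        have h3 : ∀ h ∈ range b, ε ^ chg b (K + 1 + 1) (c * b + h) ≤
            ε ^ chg b (K + 1) c * ((if h = c % b then 1 else 0) + ε) := by
          intro h hh
          rw [mem_range] at hh
          rw [chg_succ]
          have e1 : (c * b + h) % b = h := by
            rw [add_comm, Nat.add_mul_mod_self_right, Nat.mod_eq_of_lt hh]
          have e2 : (c * b + h) / b = c := by
            rw [mul_comm c, Nat.mul_add_div (by omega), Nat.div_eq_of_lt hh, add_zero]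
          rw [e1, e2, pow_add, mul_comm]
          refine mul_le_mul_of_nonneg_left ?_ (by positivity)
          by_cases h4 : h = c % b
          · simp [h4, hε]
          · simp [h4]
        refine (Finset.sum_le_sum h3).trans ?_
        rw [← Finset.mul_sum]
        refine mul_le_mul_of_nonneg_left ?_ (by positivity)
        rw [Finset.sum_add_distrib, Finset.sum_ite_eq']
        have : c % b ∈ range b := mem_range.mpr (Nat.mod_lt _ (by omega))
        rw [if_pos this]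
        simp
      refine (Finset.sum_le_sum h2).trans ?_
      rw [← Finset.sum_mul]
      calc (∑ i ∈ range (b ^ (K + 1)), ε ^ chg b (K + 1) i) * (1 + b * ε)
          ≤ (b * (1 + b * ε) ^ K) * (1 + b * ε) :=
            mul_le_mul_of_nonneg_right ih (by positivity)
        _ = b * (1 + b * ε) ^ (K + 1) := by ring
  cases K with
  | zero =>
    simp [chg]
    linarith
  | succ K =>
    refine (main K).trans ?_
    refine mul_le_mul_of_nonneg_left ?_ (by positivity)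
    exact pow_le_pow_right₀ (by linarith) (Nat.le_succ K)

/-- The digits of the pattern. -/
lemma pat_digit {b : ℕ} (hb : 0 < b) {M K j : ℕ} (hj : j < K) (z : ℝ) :
    pat b M K z / b ^ j % b = ⌊(b : ℝ) * Int.fract ((b : ℝ) ^ (M + K - 1 - j) * z)⌋₊ := by
  have hb0 : (0 : ℝ) < b := by exact_mod_cast hb
  unfold pat
  set β : ℝ := Int.fract ((b : ℝ) ^ M * z) with hβ
  have hβ0 : 0 ≤ β := Int.fract_nonneg _
  have h1 : ⌊(b : ℝ) ^ K * β⌋₊ / b ^ j = ⌊(b : ℝ) * ((b : ℝ) ^ (K - 1 - j) * β)⌋₊ := by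
    rw [← Nat.floor_div_natCast]
    congr 1
    have : (b : ℝ) ^ K = b * b ^ (K - 1 - j) * b ^ j := by
      rw [← pow_succ', ← pow_add]; congr 1; omega
    rw [this]
    push_cast
    field_simp
  rw [h1]
  set y : ℝ := (b : ℝ) ^ (K - 1 - j) * β with hy
  have hy0 : 0 ≤ y := by positivity
  have h2 : Int.fract ((b : ℝ) ^ (M + K - 1 - j) * z) = Int.fract y := by
    have h3 : (b : ℝ) ^ (M + K - 1 - j) * z =
        y + ((b ^ (K - 1 - j) * ⌊(b : ℝ) ^ M * z⌋ : ℤ) : ℝ) := by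
      have h4 : (b : ℝ) ^ (M + K - 1 - j) = b ^ (K - 1 - j) * b ^ M := by
        rw [← pow_add]; congr 1; omega
      rw [h4, hy, hβ, Int.fract]
      push_cast
      ring
    rw [h3, Int.fract_add_intCast]
  rw [h2]
  have h5 : (b : ℝ) * y = ((b * ⌊y⌋₊ : ℕ) : ℝ) + b * Int.fract y := by
    have : Int.fract y = y - ⌊y⌋₊ := by
      rw [Int.fract, natCast_floor_eq_intCast_floor hy0]
    rw [this]; push_cast; ring
  have h6 : 0 ≤ (b : ℝ) * Int.fract y := mul_nonneg hb0.le (Int.fract_nonneg _)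
  have h7 : ⌊(b : ℝ) * Int.fract y⌋₊ < b := by
    rw [Nat.floor_lt h6]
    have := Int.fract_lt_one y
    nlinarith
  rw [h5, add_comm, Nat.floor_add_natCast h6, Nat.add_mul_mod_self_left, Nat.mod_eq_of_lt h7]

/-- Two successive shifts close to integers have the same leading digit. -/
lemma digit_eq_of_near {b : ℕ} (hb : 2 ≤ b) {y : ℝ} {n1 n0 : ℤ}
    (h1 : |y - n1| ≤ 3 / (8 * b)) (h0 : |b * y - n0| ≤ 3 / (8 * b)) :
    ⌊(b : ℝ) * Int.fract y⌋₊ = ⌊(b : ℝ) * Int.fract (b * y)⌋₊ := by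
  have hb0 : (2 : ℝ) ≤ b := by exact_mod_cast hb
  have hbp : (0 : ℝ) < b := by linarith
  set δ1 : ℝ := y - n1 with hδ1
  set δ0 : ℝ := b * y - n0 with hδ0
  have hB : (b : ℝ) * (3 / (8 * b)) = 3 / 8 := by field_simp
  have hq : (3 : ℝ) / (8 * b) ≤ 3 / 16 := by
    rw [div_le_div_iff₀ (by positivity) (by norm_num)]; linarith
  have hq0 : (0 : ℝ) < 3 / (8 * b) := by positivity
  have h2 : n0 = b * n1 := by
    have h3 : ((n0 - b * n1 : ℤ) : ℝ) = b * δ1 - δ0 := by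
      rw [hδ1, hδ0]; push_cast; ring
    have h4 : |((n0 - b * n1 : ℤ) : ℝ)| < 1 := by
      rw [h3, abs_lt]
      rw [abs_le] at h1 h0
      constructor <;> nlinarith
    have h5 : |n0 - b * n1| < 1 := by exact_mod_cast h4
    have := Int.abs_lt_one_iff.mp h5
    linarith
  have h3 : δ0 = b * δ1 := by rw [hδ0, hδ1, h2]; push_cast; ring
  have hf1 : Int.fract y = Int.fract δ1 := by
    have : y = δ1 + (n1 : ℝ) := by rw [hδ1]; ring
    rw [this, Int.fract_add_intCast]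
  have hf0 : Int.fract (b * y) = Int.fract δ0 := by
    have : (b : ℝ) * y = δ0 + (n0 : ℝ) := by rw [hδ0]; ring
    rw [this, Int.fract_add_intCast]
  rw [hf1, hf0]
  rw [abs_le] at h1 h0
  rcases le_or_gt 0 δ1 with hpos | hneg
  · have e1 : Int.fract δ1 = δ1 := by
      rw [Int.fract_eq_self]; constructor <;> linarith
    have h00 : 0 ≤ δ0 := by rw [h3]; positivity
    have e0 : Int.fract δ0 = δ0 := by
      rw [Int.fract_eq_self]; constructor <;> linarith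
    rw [e1, e0]
    have f1 : ⌊(b : ℝ) * δ1⌋₊ = 0 := by
      rw [Nat.floor_eq_zero]; nlinarith
    have f0 : ⌊(b : ℝ) * δ0⌋₊ = 0 := by
      rw [Nat.floor_eq_zero]; nlinarith
    rw [f1, f0]
  · have e1 : Int.fract δ1 = δ1 + 1 := by
      rw [Int.fract_eq_iff]; refine ⟨by linarith, by linarith, -1, by push_cast; ring⟩
    have h00 : δ0 < 0 := by rw [h3]; nlinarith
    have e0 : Int.fract δ0 = δ0 + 1 := by
      rw [Int.fract_eq_iff]; refine ⟨by linarith, by linarith, -1, by push_cast; ring⟩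
    rw [e1, e0]
    have hbm : ((b - 1 : ℕ) : ℝ) = (b : ℝ) - 1 := by
      rw [Nat.cast_sub (by omega)]; norm_num
    have f1 : ⌊(b : ℝ) * (δ1 + 1)⌋₊ = b - 1 := by
      rw [Nat.floor_eq_iff (by nlinarith), hbm]
      constructor <;> nlinarith
    have f0 : ⌊(b : ℝ) * (δ0 + 1)⌋₊ = b - 1 := by
      rw [Nat.floor_eq_iff (by nlinarith), hbm]
      constructor <;> nlinarith
    rw [f1, f0]

lemma wt_rel {b ℓ i : ℕ} (hb : 1 ≤ b) (hi : i < ℓ) :
    (b : ℝ) * wt b ℓ i - wt b ℓ (i + 1) = ((b ^ 2 - 1 : ℕ) : ℝ) * (b : ℝ) ^ (ℓ - i - 1) := by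
  unfold wt
  obtain ⟨r, hr⟩ : ∃ r, ℓ - i = r + 1 := ⟨ℓ - i - 1, by omega⟩
  have h1 : ℓ - (i + 1) = r := by omega
  have h2 : ℓ - i - 1 = r := by omega
  rw [h1, hr, Nat.add_sub_cancel]
  have h3 : 1 ≤ b ^ 2 := Nat.one_le_pow _ _ hb
  push_cast [Nat.cast_sub h3]
  ring

/-- If the angles of two successive pairs are near integers, so is a shift of `(b^2-1) α`. -/
lemma near_of_good {b ℓ i : ℕ} (hb : 2 ≤ b) (hi : i < ℓ) {α : ℝ} {n n' : ℤ}
    (h : |α * wt b ℓ i - n| ≤ 1 / (4 * b ^ 2)) (h' : |α * wt b ℓ (i + 1) - n'| ≤ 1 / (4 * b ^ 2)) :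
    |(b : ℝ) ^ (ℓ - i - 1) * (((b ^ 2 - 1 : ℕ) : ℝ) * α) - ((b * n - n' : ℤ) : ℝ)| ≤
      3 / (8 * b) := by
  have hb0 : (2 : ℝ) ≤ b := by exact_mod_cast hb
  have h1 := wt_rel (b := b) (by omega : 1 ≤ b) hi
  have h2 : (b : ℝ) ^ (ℓ - i - 1) * (((b ^ 2 - 1 : ℕ) : ℝ) * α) - ((b * n - n' : ℤ) : ℝ) =
      b * (α * wt b ℓ i - n) - (α * wt b ℓ (i + 1) - n') := by
    push_cast
    have : (b : ℝ) ^ (ℓ - i - 1) * (((b ^ 2 - 1 : ℕ) : ℝ) * α) =
        α * (b * wt b ℓ i - wt b ℓ (i + 1)) := by rw [h1]; ring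
    rw [this]
    ring
  rw [h2]
  have h3 : (b : ℝ) * (1 / (4 * b ^ 2)) + 1 / (4 * b ^ 2) ≤ 3 / (8 * b) := by
    have : (b : ℝ) * (1 / (4 * b ^ 2)) + 1 / (4 * b ^ 2) = (b + 1) / (4 * b ^ 2) := by
      field_simp
    rw [this, div_le_div_iff₀ (by positivity) (by positivity)]
    nlinarith
  rw [abs_le] at h h' ⊢
  constructor
  · nlinarith [h.1, h.2, h'.1, h'.2]
  · nlinarith [h.1, h.2, h'.1, h'.2]

/-- The index `i` is bad when its angle is far from the integers. -/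
def bad (b ℓ : ℕ) (α : ℝ) (i : ℕ) : Prop :=
  ∀ n : ℤ, 1 / (4 * (b : ℝ) ^ 2) ≤ |α * wt b ℓ i - n|

open Classical in
/-- A block is small when it contains many bad indices. -/
lemma blk_le_pow_bad {b : ℕ} {κ : ℝ} (hκ0 : 0 < κ)
    (hκ : ∀ x : ℝ, (∀ n : ℤ, 1 / (4 * (b : ℝ) ^ 2) ≤ |x - n|) → phi b x ≤ κ) (ℓ i0 i1 : ℕ) (α : ℝ) :
    blk b ℓ i0 i1 α ≤ κ ^ ((Ico i0 i1).filter (bad b ℓ α)).card := by
  unfold blk
  rw [Finset.card_filter, ← Finset.prod_pow_eq_pow_sum]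
  refine Finset.prod_le_prod (fun _ _ => phi_nonneg _ _) fun i _ => ?_
  by_cases h : bad b ℓ α i
  · rw [if_pos h, pow_one]
    exact hκ _ h
  · rw [if_neg h, pow_zero]
    exact phi_le_one _ _

open Classical in
/-- Every digit change of the pattern is caused by a bad index. -/
lemma chg_le_bad {b ℓ i0 i1 : ℕ} (hb : 2 ≤ b) (h01 : i0 < i1) (h1 : 2 * i1 ≤ ℓ + 1) (α : ℝ) :
    chg b (i1 - i0 - 1) (pat b (ℓ - i1 + 1) (i1 - i0 - 1) (((b ^ 2 - 1 : ℕ) : ℝ) * α)) ≤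
      3 * ((Ico i0 i1).filter (bad b ℓ α)).card := by
  set K := i1 - i0 - 1 with hK
  set S := (Ico i0 i1).filter (bad b ℓ α) with hS
  unfold chg
  have hsub : (range (K - 1)).filter (fun j =>
      pat b (ℓ - i1 + 1) K (((b ^ 2 - 1 : ℕ) : ℝ) * α) / b ^ j % b ≠
      pat b (ℓ - i1 + 1) K (((b ^ 2 - 1 : ℕ) : ℝ) * α) / b ^ (j + 1) % b) ⊆
      (S.image (fun i => i - i0)) ∪ (S.image (fun i => i - i0 - 1)) ∪
        (S.image (fun i => i - i0 - 2)) := by
    intro j hj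
    rw [mem_filter, mem_range] at hj
    obtain ⟨hjK, hne⟩ := hj
    by_contra hnot
    rw [mem_union, mem_union, not_or, not_or] at hnot
    obtain ⟨⟨hA, hB⟩, hC⟩ := hnot
    have gA : ¬ bad b ℓ α (i0 + j) := by
      intro h
      exact hA (mem_image.mpr ⟨i0 + j, mem_filter.mpr ⟨mem_Ico.mpr ⟨by omega, by omega⟩, h⟩,
        by omega⟩)
    have gB : ¬ bad b ℓ α (i0 + j + 1) := by
      intro h
      exact hB (mem_image.mpr ⟨i0 + j + 1, mem_filter.mpr ⟨mem_Ico.mpr ⟨by omega, by omega⟩, h⟩,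
        by omega⟩)
    have gC : ¬ bad b ℓ α (i0 + j + 2) := by
      intro h
      exact hC (mem_image.mpr ⟨i0 + j + 2, mem_filter.mpr ⟨mem_Ico.mpr ⟨by omega, by omega⟩, h⟩,
        by omega⟩)
    unfold bad at gA gB gC
    push Not at gA gB gC
    obtain ⟨nA, hnA⟩ := gA
    obtain ⟨nB, hnB⟩ := gB
    obtain ⟨nC, hnC⟩ := gC
    have e1 := near_of_good hb (ℓ := ℓ) (i := i0 + j + 1) (by omega) hnB.le hnC.le
    have e0 := near_of_good hb (ℓ := ℓ) (i := i0 + j) (by omega) hnA.le hnB.le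
    have hexp : ℓ - (i0 + j) - 1 = (ℓ - (i0 + j + 1) - 1) + 1 := by omega
    rw [hexp, pow_succ', mul_assoc] at e0
    have hd := digit_eq_of_near hb e1 e0
    apply hne
    rw [pat_digit (by omega) (by omega), pat_digit (by omega) (by omega)]
    have x1 : ℓ - i1 + 1 + K - 1 - (j + 1) = ℓ - (i0 + j + 1) - 1 := by omega
    have x0 : ℓ - i1 + 1 + K - 1 - j = (ℓ - (i0 + j + 1) - 1) + 1 := by omega
    rw [x1, x0, hd, pow_succ' (b : ℝ) (ℓ - (i0 + j + 1) - 1), mul_assoc]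
  refine (card_le_card hsub).trans ?_
  refine (card_union_le _ _).trans ?_
  have c1 := card_union_le (S.image (fun i => i - i0)) (S.image (fun i => i - i0 - 1))
  have c2 := card_image_le (s := S) (f := fun i => i - i0)
  have c3 := card_image_le (s := S) (f := fun i => i - i0 - 1)
  have c4 := card_image_le (s := S) (f := fun i => i - i0 - 2)
  omega

/-- High powers of blocks are controlled by the digit pattern. -/
lemma blk_pow_le_chg {b ℓ i0 i1 : ℕ} (hb : 2 ≤ b) (h01 : i0 < i1) (h1 : 2 * i1 ≤ ℓ + 1) {κ : ℝ}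
    (hκ0 : 0 < κ) (hκ1 : κ ≤ 1)
    (hκ : ∀ x : ℝ, (∀ n : ℤ, 1 / (4 * (b : ℝ) ^ 2) ≤ |x - n|) → phi b x ≤ κ) (lam : ℕ) (α : ℝ) :
    (blk b ℓ i0 i1 α) ^ (3 * lam) ≤ (κ ^ lam) ^
      chg b (i1 - i0 - 1) (pat b (ℓ - i1 + 1) (i1 - i0 - 1) (((b ^ 2 - 1 : ℕ) : ℝ) * α)) := by
  classical
  have e1 := blk_le_pow_bad hκ0 hκ ℓ i0 i1 α
  have e2 := chg_le_bad hb h01 h1 α
  calc (blk b ℓ i0 i1 α) ^ (3 * lam)
      ≤ (κ ^ ((Ico i0 i1).filter (bad b ℓ α)).card) ^ (3 * lam) :=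
        pow_le_pow_left₀ (blk_nonneg _ _ _ _ _) e1 _
    _ = κ ^ (lam * (3 * ((Ico i0 i1).filter (bad b ℓ α)).card)) := by
        rw [← pow_mul]; congr 1; ring
    _ ≤ κ ^ (lam * chg b (i1 - i0 - 1)
          (pat b (ℓ - i1 + 1) (i1 - i0 - 1) (((b ^ 2 - 1 : ℕ) : ℝ) * α))) :=
        pow_le_pow_of_le_one hκ0.le hκ1 (Nat.mul_le_mul_left _ e2)
    _ = _ := pow_mul _ _ _

end Pool.Agent.Pal
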