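import Pool.Agent.Pal.Pattern

/-!
# The fractions `c / ((b^2-1) d)` with `D ≤ d < 2 D`
-/

namespace Pool.Agent.Pal

open Finset

/-- Index set of the fractions `c / ((b^2-1) d)`, `D ≤ d < 2 D`, `(d, b) = (c, d) = 1`. -/
def J (b D : ℕ) : Finset (ℕ × ℕ) :=
  ((Ico D (2 * D)) ×ˢ (range ((b ^ 2 - 1) * (2 * D)))).filter
    (fun x => x.1.Coprime b ∧ x.2 < (b ^ 2 - 1) * x.1 ∧ x.2.Coprime x.1)

/-- The fraction `c / ((b^2-1) d)`. -/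
noncomputable def pt (b : ℕ) (x : ℕ × ℕ) : ℝ := (x.2 : ℝ) / (((b ^ 2 - 1) * x.1 : ℕ) : ℝ)

lemma mem_J {b D : ℕ} {x : ℕ × ℕ} : x ∈ J b D ↔
    D ≤ x.1 ∧ x.1 < 2 * D ∧ x.1.Coprime b ∧ x.2 < (b ^ 2 - 1) * x.1 ∧ x.2.Coprime x.1 := by
  unfold J
  rw [mem_filter, mem_product, mem_Ico, mem_range]
  constructor
  · rintro ⟨⟨⟨h1, h2⟩, h3⟩, h4, h5, h6⟩
    exact ⟨h1, h2, h4, h5, h6⟩
  · rintro ⟨h1, h2, h3, h4, h5⟩
    refine ⟨⟨⟨h1, h2⟩, ?_⟩, h3, h4, h5⟩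
    exact h4.trans_le (Nat.mul_le_mul_left _ h2.le)

lemma sq_sub_one_pos {b : ℕ} (hb : 2 ≤ b) : 3 ≤ b ^ 2 - 1 := by
  have : 2 ^ 2 ≤ b ^ 2 := Nat.pow_le_pow_left hb 2
  omega

lemma card_J_le {b D : ℕ} : ((J b D).card : ℝ) ≤ 2 * ((b ^ 2 - 1 : ℕ) : ℝ) * (D : ℝ) ^ 2 := by
  have h : (J b D).card ≤ D * ((b ^ 2 - 1) * (2 * D)) := by
    unfold J
    refine (card_filter_le _ _).trans ?_
    rw [card_product, card_range, Nat.card_Ico]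
    have : 2 * D - D = D := by omega
    rw [this]
  calc ((J b D).card : ℝ) ≤ ((D * ((b ^ 2 - 1) * (2 * D)) : ℕ) : ℝ) := by exact_mod_cast h
    _ = _ := by push_cast; ring

lemma pt_nonneg (b : ℕ) (x : ℕ × ℕ) : 0 ≤ pt b x := by unfold pt; positivity

lemma pt_lt_one {b D : ℕ} {x : ℕ × ℕ} (hx : x ∈ J b D) : pt b x < 1 := by
  rw [mem_J] at hx
  unfold pt
  have h : (0 : ℝ) < (((b ^ 2 - 1) * x.1 : ℕ) : ℝ) := by
    have : 0 < (b ^ 2 - 1) * x.1 := by omega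
    exact_mod_cast this
  rw [div_lt_one h]
  exact_mod_cast hx.2.2.2.1

lemma pt_sep {b D : ℕ} {x y : ℕ × ℕ} (hx : x ∈ J b D) (hy : y ∈ J b D) (hxy : x ≠ y) :
    1 ≤ 4 * ((b ^ 2 - 1 : ℕ) : ℝ) * (D : ℝ) ^ 2 * |pt b x - pt b y| := by
  rw [mem_J] at hx hy
  obtain ⟨hx1, hx2, hx3, hx4, hx5⟩ := hx
  obtain ⟨hy1, hy2, hy3, hy4, hy5⟩ := hy
  have hBpos : 0 < b ^ 2 - 1 := by
    rcases Nat.eq_zero_or_pos (b ^ 2 - 1) with h | h
    · rw [h] at hx4; simp at hx4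
    · exact h
  have hx1p : 0 < x.1 := by
    rcases Nat.eq_zero_or_pos x.1 with h | h
    · rw [h] at hx4; simp at hx4
    · exact h
  have hy1p : 0 < y.1 := by
    rcases Nat.eq_zero_or_pos y.1 with h | h
    · rw [h] at hy4; simp at hy4
    · exact h
  have hB : (0 : ℝ) < ((b ^ 2 - 1 : ℕ) : ℝ) := by exact_mod_cast hBpos
  have hX : (0 : ℝ) < x.1 := by exact_mod_cast hx1p
  have hY : (0 : ℝ) < y.1 := by exact_mod_cast hy1p
  have hne : (x.2 * y.1 : ℤ) - y.2 * x.1 ≠ 0 := by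
    intro h
    have h1 : x.2 * y.1 = y.2 * x.1 := by
      have : (x.2 * y.1 : ℤ) = y.2 * x.1 := by linarith
      exact_mod_cast this
    have h2 : x.1 ∣ y.1 := by
      have : x.1 ∣ x.2 * y.1 := ⟨y.2, by rw [h1]; ring⟩
      exact (Nat.Coprime.dvd_of_dvd_mul_left hx5.symm this)
    have h3 : y.1 ∣ x.1 := by
      have : y.1 ∣ y.2 * x.1 := ⟨x.2, by rw [← h1]; ring⟩
      exact (Nat.Coprime.dvd_of_dvd_mul_left hy5.symm this)
    have h4 : x.1 = y.1 := Nat.dvd_antisymm h2 h3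
    rw [h4] at h1
    have h5 : x.2 = y.2 := Nat.eq_of_mul_eq_mul_right hy1p h1
    exact hxy (Prod.ext h4 h5)
  have habs : (1 : ℝ) ≤ |((x.2 * y.1 : ℤ) - y.2 * x.1 : ℤ)| := by
    have := Int.one_le_abs hne
    exact_mod_cast this
  have hdiff : pt b x - pt b y = ((((x.2 * y.1 : ℤ) - y.2 * x.1 : ℤ)) : ℝ) /
      (((b ^ 2 - 1 : ℕ) : ℝ) * x.1 * y.1) := by
    unfold pt
    push_cast
    field_simp
  rw [hdiff, abs_div, abs_of_pos (by positivity : (0:ℝ) < ((b ^ 2 - 1 : ℕ) : ℝ) * x.1 * y.1),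
    ← mul_div_assoc, one_le_div (by positivity)]
  have hxD : (x.1 : ℝ) ≤ 2 * D := by exact_mod_cast hx2.le
  have hyD : (y.1 : ℝ) ≤ 2 * D := by exact_mod_cast hy2.le
  calc ((b ^ 2 - 1 : ℕ) : ℝ) * x.1 * y.1 ≤ ((b ^ 2 - 1 : ℕ) : ℝ) * (2 * D) * (2 * D) := by
        gcongr
    _ = 4 * ((b ^ 2 - 1 : ℕ) : ℝ) * (D : ℝ) ^ 2 * 1 := by ring
    _ ≤ _ := mul_le_mul_of_nonneg_left (by exact_mod_cast habs) (by positivity)

/-- Multiplication by `b ^ a` permutes the fractions modulo one. -/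
lemma sum_J_mul {b D : ℕ} (a : ℕ) (Φ : ℝ → ℝ) (hΦ : ∀ (y : ℝ) (n : ℤ), Φ (y + n) = Φ y) :
    ∑ x ∈ J b D, Φ ((b : ℝ) ^ a * pt b x) = ∑ x ∈ J b D, Φ (pt b x) := by
  classical
  set σ : ℕ × ℕ → ℕ × ℕ := fun x => (x.1, (b ^ a * x.2) % ((b ^ 2 - 1) * x.1)) with hσ
  have hcop : ∀ x ∈ J b D, (b ^ a).Coprime ((b ^ 2 - 1) * x.1) := by
    intro x hx
    rw [mem_J] at hx
    refine Nat.Coprime.pow_left _ (Nat.Coprime.mul_right ?_ hx.2.2.1.symm)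
    have hb1 : 1 ≤ b ^ 2 := by
      rcases Nat.eq_zero_or_pos (b ^ 2) with h | h
      · exfalso
        have := hx.2.2.2.1
        rw [h] at this; simp at this
      · exact h
    have h2 : b ^ 2 - 1 + 1 = b ^ 2 := Nat.sub_add_cancel hb1
    have h3 : (b ^ 2 - 1).Coprime (b ^ 2) := by
      rw [← h2]; simp
    exact (Nat.Coprime.coprime_dvd_right (dvd_pow_self b two_ne_zero) h3).symm
  have hpos : ∀ x ∈ J b D, 0 < (b ^ 2 - 1) * x.1 := by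
    intro x hx
    rw [mem_J] at hx
    omega
  have hmem : ∀ x ∈ J b D, σ x ∈ J b D := by
    intro x hx
    have hc := hcop x hx
    have hp := hpos x hx
    rw [mem_J] at hx ⊢
    obtain ⟨h1, h2, h3, h4, h5⟩ := hx
    refine ⟨h1, h2, h3, Nat.mod_lt _ hp, ?_⟩
    simp only [hσ]
    have hmod : (b ^ a * x.2) % ((b ^ 2 - 1) * x.1) ≡ b ^ a * x.2 [MOD x.1] :=
      (Nat.mod_modEq _ _).of_dvd (Dvd.intro_left _ rfl)
    have : Nat.gcd ((b ^ a * x.2) % ((b ^ 2 - 1) * x.1)) x.1 = Nat.gcd (b ^ a * x.2) x.1 :=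
      hmod.gcd_eq
    unfold Nat.Coprime
    rw [this]
    exact Nat.Coprime.mul_left (Nat.Coprime.coprime_dvd_right (Dvd.intro_left _ rfl) hc) h5
  have hinj : Set.InjOn σ (J b D) := by
    intro x hx y hy hxy
    simp only [hσ, Prod.mk.injEq] at hxy
    obtain ⟨e1, e2⟩ := hxy
    rw [← e1] at e2
    have hc := hcop x hx
    have hx' := mem_J.mp hx
    have hy' := mem_J.mp hy
    have e3 : x.2 ≡ y.2 [MOD (b ^ 2 - 1) * x.1] :=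
      Nat.ModEq.cancel_left_of_coprime (c := b ^ a) hc.symm e2
    have e4 : x.2 = y.2 := Nat.ModEq.eq_of_lt_of_lt e3 hx'.2.2.2.1 (by
      rw [e1]; exact hy'.2.2.2.1)
    exact Prod.ext e1 e4
  have himg : (J b D).image σ = J b D := by
    refine Finset.eq_of_subset_of_card_le ?_ ?_
    · intro y hy
      obtain ⟨x, hx, rfl⟩ := mem_image.mp hy
      exact hmem x hx
    · rw [card_image_of_injOn hinj]
  conv_rhs => rw [← himg]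
  rw [sum_image hinj]
  refine Finset.sum_congr rfl fun x hx => ?_
  have hp : (0 : ℝ) < (((b ^ 2 - 1) * x.1 : ℕ) : ℝ) := by exact_mod_cast hpos x hx
  have h1 : (b : ℝ) ^ a * pt b x = pt b (σ x) +
      (((b ^ a * x.2 / ((b ^ 2 - 1) * x.1) : ℕ) : ℤ) : ℝ) := by
    have h2 := Nat.mod_add_div (b ^ a * x.2) ((b ^ 2 - 1) * x.1)
    have h3 : ((b ^ a * x.2 : ℕ) : ℝ) = (((b ^ a * x.2) % ((b ^ 2 - 1) * x.1) : ℕ) : ℝ) +
        (((b ^ 2 - 1) * x.1 : ℕ) : ℝ) * ((b ^ a * x.2 / ((b ^ 2 - 1) * x.1) : ℕ) : ℝ) := by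
      rw [← Nat.cast_mul, ← Nat.cast_add, h2]
    unfold pt
    simp only [hσ]
    rw [Int.cast_natCast]
    have h4 : (b : ℝ) ^ a * ((x.2 : ℝ) / (((b ^ 2 - 1) * x.1 : ℕ) : ℝ)) =
        ((b ^ a * x.2 : ℕ) : ℝ) / (((b ^ 2 - 1) * x.1 : ℕ) : ℝ) := by
      push_cast; ring
    rw [h4, h3, add_div, mul_div_cancel_left₀ _ hp.ne']
  rw [h1, hΦ]

end Pool.Agent.Pal
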