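import Pool.Agent.Pal.LargeSieve

/-!
# Blocks of digit pairs of a palindrome and their exponential sums
-/

namespace Pool.Agent.Pal

open Finset

lemma sum_range_mul {A : Type*} [AddCommMonoid A] (F : ℕ → A) (a n : ℕ) :
    ∑ h ∈ range (a * n), F h = ∑ c ∈ range a, ∑ h ∈ range n, F (c * n + h) := by
  induction a with
  | zero => simp
  | succ a ih =>
    rw [Finset.sum_range_succ, ← ih, Nat.succ_mul, Finset.sum_range_add]

/-- The weight of the `i`-th pair of digits of a palindrome with `ℓ + 1` digits. -/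
def wt (b ℓ i : ℕ) : ℕ := b ^ i + b ^ (ℓ - i)

/-- Product of the normalised kernels over the pairs `i0 ≤ i < i1`. -/
noncomputable def blk (b ℓ i0 i1 : ℕ) (α : ℝ) : ℝ := ∏ i ∈ Ico i0 i1, phi b (α * wt b ℓ i)

lemma blk_nonneg (b ℓ i0 i1 : ℕ) (α : ℝ) : 0 ≤ blk b ℓ i0 i1 α :=
  Finset.prod_nonneg fun _ _ => phi_nonneg _ _

lemma blk_le_one (b ℓ i0 i1 : ℕ) (α : ℝ) : blk b ℓ i0 i1 α ≤ 1 :=
  Finset.prod_le_one (fun _ _ => phi_nonneg _ _) fun _ _ => phi_le_one _ _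

lemma blk_mul (b ℓ : ℕ) {i0 i1 i2 : ℕ} (h01 : i0 ≤ i1) (h12 : i1 ≤ i2) (α : ℝ) :
    blk b ℓ i0 i1 α * blk b ℓ i1 i2 α = blk b ℓ i0 i2 α :=
  Finset.prod_Ico_consecutive _ h01 h12

lemma blk_add_int (b ℓ i0 i1 : ℕ) (α : ℝ) (k : ℤ) :
    blk b ℓ i0 i1 (α + k) = blk b ℓ i0 i1 α := by
  unfold blk
  refine Finset.prod_congr rfl fun i _ => ?_
  have : (α + k) * (wt b ℓ i : ℝ) = α * wt b ℓ i + ((k * wt b ℓ i : ℤ) : ℝ) := by
    push_cast; ring
  rw [this, phi_add_int]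

lemma blk_le_of_le (b ℓ : ℕ) {i0 i1 j0 j1 : ℕ} (h0 : i0 ≤ j0) (h1 : j1 ≤ i1) (α : ℝ) :
    blk b ℓ i0 i1 α ≤ blk b ℓ j0 j1 α := by
  rcases Nat.lt_or_ge j0 j1 with h | h
  · rw [← blk_mul b ℓ h0 (by omega : j0 ≤ i1) α, ← blk_mul b ℓ (by omega : j0 ≤ j1) h1 α]
    have e1 := blk_le_one b ℓ i0 j0 α
    have e2 := blk_le_one b ℓ j1 i1 α
    have e3 := blk_nonneg b ℓ j0 j1 α
    have e4 := blk_nonneg b ℓ j1 i1 α
    have e5 := blk_nonneg b ℓ i0 j0 α
    calc blk b ℓ i0 j0 α * (blk b ℓ j0 j1 α * blk b ℓ j1 i1 α)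
        ≤ 1 * (blk b ℓ j0 j1 α * 1) := by
          refine mul_le_mul e1 (mul_le_mul_of_nonneg_left e2 e3) (by positivity) zero_le_one
      _ = blk b ℓ j0 j1 α := by ring
  · have : blk b ℓ j0 j1 α = 1 := by unfold blk; rw [Ico_eq_empty (by omega)]; simp
    rw [this]
    exact blk_le_one _ _ _ _ _

/-- Scaling: the pairs `i0 + r ≤ i < i1 + r` of length `ℓ + 2 r` at `α` are the pairs
`i0 ≤ i < i1` of length `ℓ` at `b ^ r α`. -/
lemma blk_scale (b ℓ i0 i1 r : ℕ) (h : i1 ≤ ℓ + 1) (α : ℝ) :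
    blk b (ℓ + 2 * r) (i0 + r) (i1 + r) α = blk b ℓ i0 i1 (b ^ r * α) := by
  unfold blk
  rw [← Finset.prod_Ico_add']
  refine Finset.prod_congr rfl fun i hi => ?_
  rw [mem_Ico] at hi
  congr 1
  unfold wt
  have e : ℓ + 2 * r - (i + r) = (ℓ - i) + r := by omega
  rw [e]
  push_cast
  rw [pow_add, pow_add]
  ring

/-- `pf b k e h` is the sum over `i < k` of the `i`-th digit of `h` times
`b ^ i + b ^ (e + k - 1 - i)`. -/
def pf (b : ℕ) : ℕ → ℕ → ℕ → ℕ
  | 0, _, _ => 0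
  | k + 1, e, h => pf b k (e + 1) (h % b ^ k) + (h / b ^ k) * (b ^ k + b ^ e)

lemma pf_eq {b : ℕ} (k : ℕ) : ∀ e h : ℕ, h < b ^ k →
    ∃ R, R < b ^ k ∧ pf b k e h = h + b ^ e * R := by
  induction k with
  | zero =>
    intro e h hh
    refine ⟨0, by simp, ?_⟩
    simp only [pow_zero, Nat.lt_one_iff] at hh
    simp [pf, hh]
  | succ k ih =>
    intro e h hh
    have hpos : 0 < b ^ k := by
      rcases Nat.eq_zero_or_pos (b ^ k) with h0 | h0
      · rw [pow_succ, h0] at hh; simp at hh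
      · exact h0
    obtain ⟨R, hR, hpf⟩ := ih (e + 1) (h % b ^ k) (Nat.mod_lt _ hpos)
    have hq : h / b ^ k < b := by
      rw [Nat.div_lt_iff_lt_mul hpos]
      rw [pow_succ] at hh
      linarith [mul_comm b (b ^ k)]
    refine ⟨b * R + h / b ^ k, ?_, ?_⟩
    · rw [pow_succ]
      calc b * R + h / b ^ k < b * R + b := by omega
        _ = b * (R + 1) := by ring
        _ ≤ b * b ^ k := Nat.mul_le_mul_left _ hR
        _ = b ^ k * b := by ring
    · show pf b k (e + 1) (h % b ^ k) + (h / b ^ k) * (b ^ k + b ^ e) = _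
      rw [hpf]
      have := Nat.div_add_mod h (b ^ k)
      rw [pow_succ]
      nlinarith

lemma pf_injOn {b k e : ℕ} (hke : k ≤ e) : Set.InjOn (pf b k e) (range (b ^ k) : Finset ℕ) := by
  intro x hx y hy hxy
  simp only [coe_range, Set.mem_Iio] at hx hy
  obtain ⟨R, _, hR⟩ := pf_eq k e x hx
  obtain ⟨S, _, hS⟩ := pf_eq k e y hy
  rw [hR, hS] at hxy
  have h1 : x ≡ y [MOD b ^ k] := by
    have hd : b ^ k ∣ b ^ e := pow_dvd_pow b hke
    have e1 : x + b ^ e * R ≡ x [MOD b ^ k] := by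
      have : b ^ e * R ≡ 0 [MOD b ^ k] := (Nat.modEq_zero_iff_dvd).mpr (Dvd.dvd.mul_right hd R)
      simpa using (Nat.ModEq.refl x).add this
    have e2 : y + b ^ e * S ≡ y [MOD b ^ k] := by
      have : b ^ e * S ≡ 0 [MOD b ^ k] := (Nat.modEq_zero_iff_dvd).mpr (Dvd.dvd.mul_right hd S)
      simpa using (Nat.ModEq.refl y).add this
    rw [hxy] at e1
    exact e1.symm.trans e2
  exact Nat.ModEq.eq_of_lt_of_lt h1 hx hy

lemma pf_lt {b k e h : ℕ} (hb : 0 < b) (hke : k ≤ e) (hh : h < b ^ k) :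
    pf b k e h < b ^ (e + k) := by
  obtain ⟨R, hR, hpf⟩ := pf_eq k e h hh
  rw [hpf, pow_add]
  have h1 : b ^ k ≤ b ^ e := Nat.pow_le_pow_right hb hke
  calc h + b ^ e * R < b ^ e + b ^ e * R := by omega
    _ = b ^ e * (R + 1) := by ring
    _ ≤ b ^ e * b ^ k := Nat.mul_le_mul_left _ hR

/-- The block of the first `k` pairs as an exponential sum. -/
lemma prod_dir_eq (b : ℕ) (hb : 0 < b) (k : ℕ) : ∀ (e : ℕ) (α : ℝ),
    ∏ i ∈ range k, dir b (α * ((b ^ i + b ^ (e + k - 1 - i) : ℕ) : ℝ)) =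
      ∑ h ∈ range (b ^ k), ex (pf b k e h * α) := by
  induction k with
  | zero => intro e α; simp [pf, ex_zero]
  | succ k ih =>
    intro e α
    have hpos : 0 < b ^ k := pow_pos hb k
    rw [Finset.prod_range_succ, pow_succ, mul_comm (b ^ k) b, sum_range_mul]
    have h1 : ∏ i ∈ range k, dir b (α * ((b ^ i + b ^ (e + (k + 1) - 1 - i) : ℕ) : ℝ)) =
        ∏ i ∈ range k, dir b (α * ((b ^ i + b ^ ((e + 1) + k - 1 - i) : ℕ) : ℝ)) := by
      refine Finset.prod_congr rfl fun i _ => ?_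
      have : e + (k + 1) - 1 - i = (e + 1) + k - 1 - i := by omega
      rw [this]
    rw [h1, ih (e + 1) α]
    have h2 : e + (k + 1) - 1 - k = e := by omega
    rw [h2, mul_comm]
    unfold dir
    rw [Finset.sum_mul_sum]
    refine Finset.sum_congr rfl fun c hc => Finset.sum_congr rfl fun h hh => ?_
    rw [mem_range] at hc hh
    rw [← ex_add]
    congr 1
    have h3 : pf b (k + 1) e (c * b ^ k + h) = pf b k (e + 1) h + c * (b ^ k + b ^ e) := by
      show pf b k (e + 1) ((c * b ^ k + h) % b ^ k) + ((c * b ^ k + h) / b ^ k) * (b ^ k + b ^ e) = _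
      have e1 : (c * b ^ k + h) % b ^ k = h := by
        rw [add_comm, Nat.add_mul_mod_self_right, Nat.mod_eq_of_lt hh]
      have e2 : (c * b ^ k + h) / b ^ k = c := by
        rw [mul_comm c, Nat.mul_add_div hpos, Nat.div_eq_of_lt hh, add_zero]
      rw [e1, e2]
    rw [h3]
    push_cast
    ring

end Pool.Agent.Pal
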