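import Pool.Agent.Pal.Poly

/-!
# Large sieve restricted to a digit pattern
-/

namespace Pool.Agent.Pal

open Finset

/-- The `K` base-`b` digits of `z` following the first `M` ones, as an integer below `b ^ K`. -/
noncomputable def pat (b M K : ℕ) (z : ℝ) : ℕ := ⌊(b : ℝ) ^ K * Int.fract ((b : ℝ) ^ M * z)⌋₊

lemma pat_lt {b : ℕ} (hb : 0 < b) (M K : ℕ) (z : ℝ) : pat b M K z < b ^ K := by
  unfold pat
  have hb0 : (0 : ℝ) < b := by exact_mod_cast hb
  rw [Nat.floor_lt (mul_nonneg (by positivity) (Int.fract_nonneg _))]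
  push_cast
  have h1 := Int.fract_lt_one ((b : ℝ) ^ M * z)
  have h2 : (0 : ℝ) < (b : ℝ) ^ K := by positivity
  nlinarith

lemma pat_add_int (b M K : ℕ) (z : ℝ) (n : ℤ) : pat b M K (z + n) = pat b M K z := by
  unfold pat
  have : (b : ℝ) ^ M * (z + n) = (b : ℝ) ^ M * z + ((b ^ M * n : ℤ) : ℝ) := by push_cast; ring
  rw [this, Int.fract_add_intCast]

/-- At most `4 B` well spaced points in a cell of length `b ^ (-M)` have a given pattern. -/
lemma card_fiber_le {I : Type*} [DecidableEq I] {b : ℕ} (hb : 0 < b) (t : Finset I) (p : I → ℝ)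
    (hp0 : ∀ i ∈ t, 0 ≤ p i) {Q : ℝ} {B M K U c : ℕ} (hBpos : 0 < B)
    (hsep : ∀ i ∈ t, ∀ j ∈ t, i ≠ j → 1 ≤ Q * |p i - p j|)
    (hQ : Q ≤ 4 * B * (b : ℝ) ^ (M + K))
    (hpat : ∀ i ∈ t, pat b M K (B * p i) = U)
    (hcell : ∀ i ∈ t, ⌊(b : ℝ) ^ M * p i⌋₊ = c) : t.card ≤ 4 * B := by
  have hb0 : (0 : ℝ) < b := by exact_mod_cast hb
  set s : I → ℕ := fun i => ⌊(4 * B * (b : ℝ) ^ (M + K)) * p i⌋₊ with hs
  have hNnn : (0 : ℝ) ≤ 4 * B * (b : ℝ) ^ (M + K) := by positivity
  have hinj : Set.InjOn s t := by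
    intro i hi j hj hij
    by_contra hne
    have h1 := hsep i hi j hj hne
    have h2 : 1 ≤ (4 * B * (b : ℝ) ^ (M + K)) * |p i - p j| :=
      h1.trans (mul_le_mul_of_nonneg_right hQ (abs_nonneg _))
    simp only [hs] at hij
    have ei := Nat.floor_le (mul_nonneg hNnn (hp0 i hi))
    have ej := Nat.floor_le (mul_nonneg hNnn (hp0 j hj))
    have fi := Nat.lt_floor_add_one ((4 * B * (b : ℝ) ^ (M + K)) * p i)
    have fj := Nat.lt_floor_add_one ((4 * B * (b : ℝ) ^ (M + K)) * p j)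
    rw [hij] at ei fi
    rcases abs_cases (p i - p j) with ⟨h, _⟩ | ⟨h, _⟩
    · rw [h] at h2; linarith
    · rw [h] at h2; linarith
  have himg : ∀ i ∈ t, s i ∈ (range B ×ˢ range 4).image
      (fun x => 4 * b ^ K * (B * c + x.1) + 4 * U + x.2) := by
    intro i hi
    have hp := hp0 i hi
    set X : ℝ := (b : ℝ) ^ M * (B * p i) with hX
    have hX0 : 0 ≤ X := by positivity
    set n : ℕ := ⌊X⌋₊ with hn
    have hfr : Int.fract X = X - n := by
      rw [Int.fract, hn, natCast_floor_eq_intCast_floor hX0]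
    set W : ℝ := (b : ℝ) ^ K * Int.fract X with hW
    have hW0 : 0 ≤ W := mul_nonneg (by positivity) (Int.fract_nonneg _)
    have hU : ⌊W⌋₊ = U := hpat i hi
    have hc := hcell i hi
    have hy0 : 0 ≤ (b : ℝ) ^ M * p i := by positivity
    have c1 := Nat.floor_le hy0
    have c2 := Nat.lt_floor_add_one ((b : ℝ) ^ M * p i)
    rw [hc] at c1 c2
    have hXB : X = B * ((b : ℝ) ^ M * p i) := by rw [hX]; ring
    have hBn : (0 : ℝ) ≤ B := Nat.cast_nonneg _
    have d1 : B * c ≤ n := by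
      rw [hn, Nat.le_floor_iff hX0]
      push_cast
      rw [hXB]
      exact mul_le_mul_of_nonneg_left c1 hBn
    have d2 : n < B * (c + 1) := by
      rw [hn, Nat.floor_lt hX0]
      push_cast
      rw [hXB]
      exact mul_lt_mul_of_pos_left c2 (by exact_mod_cast hBpos)
    have e1 := Nat.floor_le hW0
    have e2 := Nat.lt_floor_add_one W
    rw [hU] at e1 e2
    have hmain : (4 * B * (b : ℝ) ^ (M + K)) * p i = ((4 * b ^ K * n : ℕ) : ℝ) + 4 * W := by
      rw [hW, hfr, hX, pow_add]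
      push_cast
      ring
    have h4W : (0 : ℝ) ≤ 4 * W := by positivity
    have hsi : s i = 4 * b ^ K * n + ⌊4 * W⌋₊ := by
      simp only [hs]
      rw [hmain, add_comm, Nat.floor_add_natCast h4W, add_comm]
    have f1 : 4 * U ≤ ⌊4 * W⌋₊ := by
      rw [Nat.le_floor_iff h4W]; push_cast; linarith
    have f2 : ⌊4 * W⌋₊ < 4 * U + 4 := by
      rw [Nat.floor_lt h4W]; push_cast; linarith
    rw [mem_image]
    refine ⟨(n - B * c, ⌊4 * W⌋₊ - 4 * U), ?_, ?_⟩
    · rw [mem_product, mem_range, mem_range]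
      constructor
      · simp only
        have : B * (c + 1) = B * c + B := by ring
        omega
      · simp only; omega
    · simp only
      rw [hsi]
      have : B * c + (n - B * c) = n := by omega
      rw [this]
      omega
  calc t.card = (t.image s).card := (card_image_of_injOn hinj).symm
    _ ≤ ((range B ×ˢ range 4).image
      (fun x => 4 * b ^ K * (B * c + x.1) + 4 * U + x.2)).card := by
        refine card_le_card ?_
        intro y hy
        obtain ⟨i, hi, rfl⟩ := mem_image.mp hy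
        exact himg i hi
    _ ≤ (range B ×ˢ range 4).card := card_image_le
    _ = 4 * B := by rw [card_product, card_range, card_range, mul_comm]

lemma norm_dir_eq {b : ℕ} (hb : 0 < b) (x : ℝ) : ‖dir b x‖ = b * phi b x := by
  have hb0 : (b : ℝ) ≠ 0 := by exact_mod_cast hb.ne'
  unfold phi
  field_simp

/-- The innermost block (after scaling) as a normalised exponential sum. -/
lemma blk_eq {b : ℕ} (hb : 0 < b) {ℓ k : ℕ} (hk : k ≤ ℓ + 1) (α : ℝ) :
    (b : ℝ) ^ k * blk b ℓ 0 k α = ‖∑ h ∈ range (b ^ k), ex (pf b k (ℓ + 1 - k) h * α)‖ := by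
  rw [← prod_dir_eq b hb, norm_prod]
  unfold blk
  rw [← range_eq_Ico]
  have h1 : (b : ℝ) ^ k = ∏ _i ∈ range k, (b : ℝ) := by rw [prod_const, card_range]
  rw [h1, ← Finset.prod_mul_distrib]
  refine Finset.prod_congr rfl fun i _ => ?_
  rw [norm_dir_eq hb]
  have h2 : ℓ + 1 - k + k - 1 - i = ℓ - i := by omega
  rw [h2]
  rfl

/-- Large sieve bound for a block restricted to points with a prescribed digit pattern. -/
theorem rls {I : Type*} [DecidableEq I] {b : ℕ} (hb : 0 < b) (t : Finset I) (p : I → ℝ)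
    (hp0 : ∀ i ∈ t, 0 ≤ p i) (hp1 : ∀ i ∈ t, p i < 1) {Q : ℝ} {B M K U : ℕ} (hBpos : 0 < B)
    (hsep : ∀ i ∈ t, ∀ j ∈ t, i ≠ j → 1 ≤ Q * |p i - p j|)
    (hQ : Q ≤ 4 * B * (b : ℝ) ^ (M + K))
    (hpat : ∀ i ∈ t, pat b M K (B * p i) = U) {ℓ k : ℕ} (hk : 2 * k ≤ ℓ + 1) (hM : ℓ + 1 ≤ M) :
    ∑ i ∈ t, (blk b ℓ 0 k (p i)) ^ 2 ≤ 144 * B * (b : ℝ) ^ M / (b : ℝ) ^ k := by
  have hb0 : (0 : ℝ) < b := by exact_mod_cast hb
  set cell : I → ℕ := fun i => ⌊(b : ℝ) ^ M * p i⌋₊ with hcell
  set g : I → ℝ := fun i => (blk b ℓ 0 k (p i)) ^ 2 with hg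
  have hg0 : ∀ i, 0 ≤ g i := fun i => by simp only [hg]; positivity
  rcases t.eq_empty_or_nonempty with hte | ⟨it, hit⟩
  · subst hte
    simp only [sum_empty]
    positivity
  have : Nonempty I := ⟨it⟩
  -- choose a maximal point in every cell
  have hex : ∀ c ∈ t.image cell, ∃ i ∈ t, cell i = c ∧ ∀ j ∈ t, cell j = c → g j ≤ g i := by
    intro c hc
    obtain ⟨i0, hi0, hc0⟩ := mem_image.mp hc
    obtain ⟨i, hi, hmax⟩ := exists_max_image (t.filter (fun i => cell i = c)) g
      ⟨i0, mem_filter.mpr ⟨hi0, hc0⟩⟩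
    rw [mem_filter] at hi
    exact ⟨i, hi.1, hi.2, fun j hj hjc => hmax j (mem_filter.mpr ⟨hj, hjc⟩)⟩
  choose! rep hrep1 hrep2 hrep3 using hex
  set t' : Finset I := (t.image cell).image rep with ht'
  have ht't : ∀ i ∈ t', i ∈ t := by
    intro i hi
    obtain ⟨c, hc, rfl⟩ := mem_image.mp hi
    exact hrep1 c hc
  have hinj : Set.InjOn cell t' := by
    intro i hi j hj hij
    obtain ⟨c, hc, rfl⟩ := mem_image.mp (mem_coe.mp hi)
    obtain ⟨c', hc', rfl⟩ := mem_image.mp (mem_coe.mp hj)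
    rw [hrep2 c hc, hrep2 c' hc'] at hij
    rw [hij]
  have hrepinj : Set.InjOn rep (t.image cell : Finset ℕ) := by
    intro c hc c' hc' h
    have := hrep2 c (mem_coe.mp hc)
    rw [h, hrep2 c' (mem_coe.mp hc')] at this
    exact this.symm
  have hMpos : 0 < b ^ M := pow_pos hb M
  -- the large sieve
  have hls := large_sieve (M := b ^ M) hMpos (range (b ^ k)) (pf b k (ℓ + 1 - k))
    (pf_injOn (by omega)) (by
      intro j hj
      rw [mem_range] at hj
      refine (pf_lt hb (by omega) hj).trans_le ?_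
      exact Nat.pow_le_pow_right hb (by omega)) (fun _ => 1) t' cell hinj
    (by
      intro i hi
      simp only [hcell]
      have hi' := ht't i hi
      rw [Nat.floor_lt (mul_nonneg (by positivity) (hp0 i hi'))]
      push_cast
      have := hp1 i hi'
      have h2 : (0 : ℝ) < (b : ℝ) ^ M := by positivity
      nlinarith) p
    (by
      intro i hi
      simp only [hcell]
      push_cast
      exact Nat.floor_le (mul_nonneg (by positivity) (hp0 i (ht't i hi))))
    (by
      intro i hi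
      simp only [hcell]
      push_cast
      exact Nat.lt_floor_add_one _)
  have hblk : ∀ i, ‖∑ j ∈ range (b ^ k), (1 : ℂ) * ex (pf b k (ℓ + 1 - k) j * p i)‖ ^ 2 =
      ((b : ℝ) ^ k) ^ 2 * g i := by
    intro i
    have : ∑ j ∈ range (b ^ k), (1 : ℂ) * ex (pf b k (ℓ + 1 - k) j * p i) =
        ∑ j ∈ range (b ^ k), ex (pf b k (ℓ + 1 - k) j * p i) :=
      Finset.sum_congr rfl fun _ _ => one_mul _
    rw [this, ← blk_eq hb (by omega) (p i)]
    simp only [hg]
    ring
  rw [Finset.sum_congr rfl fun i _ => hblk i, ← Finset.mul_sum] at hls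
  simp only [norm_one, one_pow, sum_const, card_range, nsmul_eq_mul, mul_one] at hls
  push_cast at hls
  -- compare with the full sum
  have hsum : ∑ i ∈ t, g i ≤ (4 * B) * ∑ i ∈ t', g i := by
    rw [← Finset.sum_fiberwise_of_maps_to (s := t) (t := t.image cell) (g := cell)
      (fun i hi => mem_image_of_mem _ hi)]
    rw [ht', sum_image hrepinj, Finset.mul_sum]
    refine Finset.sum_le_sum fun c hc => ?_
    calc ∑ i ∈ t.filter (fun i => cell i = c), g i
        ≤ ∑ i ∈ t.filter (fun i => cell i = c), g (rep c) := by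
          refine Finset.sum_le_sum fun i hi => ?_
          rw [mem_filter] at hi
          exact hrep3 c hc i hi.1 hi.2
      _ = ((t.filter (fun i => cell i = c)).card : ℝ) * g (rep c) := by
          rw [sum_const, nsmul_eq_mul]
      _ ≤ (4 * B) * g (rep c) := by
          refine mul_le_mul_of_nonneg_right ?_ (hg0 _)
          have := card_fiber_le hb (t.filter (fun i => cell i = c)) p
            (fun i hi => hp0 i (mem_filter.mp hi).1) hBpos (Q := Q) (M := M) (K := K) (U := U)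
            (c := c)
            (fun i hi j hj => hsep i (mem_filter.mp hi).1 j (mem_filter.mp hj).1) hQ
            (fun i hi => hpat i (mem_filter.mp hi).1) (fun i hi => (mem_filter.mp hi).2)
          exact_mod_cast this
  refine hsum.trans ?_
  have hbk : (0 : ℝ) < (b : ℝ) ^ k := by positivity
  have h3 : ∑ i ∈ t', g i ≤ 36 * (b : ℝ) ^ M / (b : ℝ) ^ k := by
    rw [le_div_iff₀ hbk]
    have h4 : (b : ℝ) ^ k * ((∑ i ∈ t', g i) * (b : ℝ) ^ k) ≤
        (b : ℝ) ^ k * (36 * (b : ℝ) ^ M) := by linarith [hls, mul_comm ((b:ℝ)^k) (36 * (b:ℝ)^M)]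
    exact le_of_mul_le_mul_left h4 hbk
  calc (4 * (B : ℝ)) * ∑ i ∈ t', g i ≤ (4 * B) * (36 * (b : ℝ) ^ M / (b : ℝ) ^ k) :=
        mul_le_mul_of_nonneg_left h3 (by positivity)
    _ = 144 * B * (b : ℝ) ^ M / (b : ℝ) ^ k := by ring

end Pool.Agent.Pal
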