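import Pool.Agent.Pal.Main

/-!
# Bounds for the first moment `T ℓ D`
-/

namespace Pool.Agent.Pal

open Finset

/-- First moment of the full product of `ℓ + 1` digits over the fractions. -/
noncomputable def T (b ℓ D : ℕ) : ℝ := ∑ x ∈ J b D, blk b ℓ 0 ((ℓ + 1) / 2) (pt b x)

lemma T_nonneg (b ℓ D : ℕ) : 0 ≤ T b ℓ D := Finset.sum_nonneg fun _ _ => blk_nonneg _ _ _ _ _

/-- Trivial bound. -/
lemma T_le_trivial (b ℓ D : ℕ) : T b ℓ D ≤ 2 * BB b * (D : ℝ) ^ 2 := by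
  unfold T
  calc ∑ x ∈ J b D, blk b ℓ 0 ((ℓ + 1) / 2) (pt b x) ≤ ∑ x ∈ J b D, (1 : ℝ) :=
        Finset.sum_le_sum fun _ _ => blk_le_one _ _ _ _ _
    _ = ((J b D).card : ℝ) := by simp
    _ ≤ _ := card_J_le

/-- Cauchy-Schwarz for a splitting of the product. -/
lemma T_sq_le {b ℓ D a : ℕ} (ha : a ≤ (ℓ + 1) / 2) :
    (T b ℓ D) ^ 2 ≤ (∑ x ∈ J b D, (blk b ℓ a ((ℓ + 1) / 2) (pt b x)) ^ 2) *
      ∑ x ∈ J b D, (blk b ℓ 0 a (pt b x)) ^ 2 := by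
  unfold T
  have : ∀ x ∈ J b D, blk b ℓ 0 ((ℓ + 1) / 2) (pt b x) =
      blk b ℓ a ((ℓ + 1) / 2) (pt b x) * blk b ℓ 0 a (pt b x) := by
    intro x _
    rw [← blk_mul b ℓ (Nat.zero_le a) ha, mul_comm]
  rw [Finset.sum_congr rfl this]
  exact Finset.sum_mul_sq_le_sq_mul_sq _ _ _

/-- Second moment bound without saving. -/
lemma exists_T_sq_le {b : ℕ} (hb : 2 ≤ b) {η : ℝ} (hη : 0 < η) :
    ∃ C : ℝ, 0 < C ∧ ∀ ℓ k D : ℕ, k ≤ (ℓ + 1) / 2 → (D : ℝ) ≤ (b : ℝ) ^ k →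
      (b : ℝ) ^ k ≤ b * D →
      (T b ℓ D) ^ 2 ≤ C * (D : ℝ) ^ 2 *
        ((D : ℝ) ^ 2 / (b : ℝ) ^ ((ℓ + 1) / 2) + ((b : ℝ) ^ (ℓ + 1)) ^ η) := by
  obtain ⟨Cd, hCd, hdiv⟩ := card_divisors_le_rpow hη
  have hb0 : (2 : ℝ) ≤ b := by exact_mod_cast hb
  have hbp : (0 : ℝ) < b := by linarith
  have hb1 : (1 : ℝ) ≤ b := by linarith
  have hBp := BB_pos hb
  refine ⟨144 * BB b * (b : ℝ) ^ 3 * (2 * BB b) * (b * Cd), by positivity, ?_⟩
  intro ℓ k D hk hD hkD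
  set m := (ℓ + 1) / 2 with hm
  have hm1 : 2 * m ≤ ℓ + 1 := by omega
  have hm2 : ℓ + 1 ≤ 2 * m + 1 := by omega
  have hD2 : (D : ℝ) ^ 2 ≤ (b : ℝ) ^ (2 * k) := by
    rw [mul_comm, pow_mul]; exact pow_le_pow_left₀ (by positivity) hD 2
  have S1 : ∑ x ∈ J b D, (blk b ℓ (m - k) m (pt b x)) ^ 2 ≤ 144 * BB b * (b : ℝ) ^ (k + 2) := by
    have h := sum_blk_sq hb (D := D) (ℓ := ℓ) (a := m - k) (k := k) (by omega) (hD2.trans
      (pow_le_pow_right₀ hb1 (by omega)))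
    have e : m - k + k = m := by omega
    rw [e] at h
    refine h.trans ?_
    have h2 : (b : ℝ) ^ (ℓ + 1 - 2 * (m - k)) / (b : ℝ) ^ k ≤ (b : ℝ) ^ (k + 1) := by
      rw [div_le_iff₀ (by positivity), ← pow_add]
      exact pow_le_pow_right₀ hb1 (by omega)
    calc 144 * BB b * (b : ℝ) ^ (ℓ + 1 - 2 * (m - k)) / (b : ℝ) ^ k * b
        = 144 * BB b * b * ((b : ℝ) ^ (ℓ + 1 - 2 * (m - k)) / (b : ℝ) ^ k) := by ring
      _ ≤ 144 * BB b * b * (b : ℝ) ^ (k + 1) := mul_le_mul_of_nonneg_left h2 (by positivity)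
      _ = 144 * BB b * (b : ℝ) ^ (k + 2) := by ring
  have S4 := sum_blk_sq_outer hb hη hCd hdiv (ℓ := ℓ) (k := m - k) (D := D) (by omega)
  have h := T_sq_le (b := b) (ℓ := ℓ) (D := D) (a := m - k) (by omega)
  rw [← hm] at h
  refine h.trans ?_
  set E : ℝ := ((b : ℝ) ^ (ℓ + 1)) ^ η with hE
  have hE0 : 0 ≤ E := by positivity
  have hDn : (0 : ℝ) ≤ D := Nat.cast_nonneg _
  have hkm : (b : ℝ) ^ m = b ^ (m - k) * b ^ k := by rw [← pow_add]; congr 1; omega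
  calc (∑ x ∈ J b D, (blk b ℓ (m - k) m (pt b x)) ^ 2) *
        ∑ x ∈ J b D, (blk b ℓ 0 (m - k) (pt b x)) ^ 2
      ≤ (144 * BB b * (b : ℝ) ^ (k + 2)) *
        (2 * BB b * ((D : ℝ) ^ 2 / (b : ℝ) ^ (m - k) + D * (Cd * E))) :=
        mul_le_mul S1 S4 (Finset.sum_nonneg fun _ _ => by positivity) (by positivity)
    _ = 144 * BB b * (b : ℝ) ^ 2 * (2 * BB b) *
        ((D : ℝ) ^ 2 * ((b : ℝ) ^ k * (b : ℝ) ^ k) / (b : ℝ) ^ m + (b : ℝ) ^ k * D * (Cd * E)) := by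
        rw [hkm, pow_add (b : ℝ) k 2]; field_simp
    _ ≤ 144 * BB b * (b : ℝ) ^ 2 * (2 * BB b) *
        ((D : ℝ) ^ 2 * ((b * D) * (b * D)) / (b : ℝ) ^ m + (b * D) * D * (Cd * E)) := by
        gcongr
    _ ≤ 144 * BB b * (b : ℝ) ^ 2 * (2 * BB b) *
        ((b : ℝ) ^ 2 * Cd * ((D : ℝ) ^ 2 * ((D : ℝ) ^ 2 / (b : ℝ) ^ m)) +
          (b : ℝ) ^ 2 * Cd * ((D : ℝ) ^ 2 * E)) := by
        have e1 : (D : ℝ) ^ 2 * ((b * D) * (b * D)) / (b : ℝ) ^ m =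
          (b : ℝ) ^ 2 * 1 * ((D : ℝ) ^ 2 * ((D : ℝ) ^ 2 / (b : ℝ) ^ m)) := by ring
        have e2 : (b * D : ℝ) * D * (Cd * E) = b ^ 1 * Cd * ((D : ℝ) ^ 2 * E) := by ring
        rw [e1, e2]
        gcongr
        norm_num
    _ = _ := by ring

/-- First moment bound with a saving. -/
lemma exists_T_sq_le_saving {b : ℕ} (hb : 2 ≤ b) :
    ∃ ρ : ℝ, 0 < ρ ∧ ρ < 1 ∧ ∀ η : ℝ, 0 < η → ∃ C : ℝ, 0 < C ∧ ∀ ℓ k g D : ℕ, g + 1 ≤ k →
      2 * k + g + 1 ≤ (ℓ + 1) / 2 → (D : ℝ) ≤ (b : ℝ) ^ k → (b : ℝ) ^ k ≤ b * D →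
      (T b ℓ D) ^ 2 ≤ C * (D : ℝ) ^ 2 * ρ ^ g * ((b : ℝ) ^ (ℓ + 1)) ^ η := by
  obtain ⟨C1, ρ, hC1, hρ0, hρ1, hmain⟩ := exists_main_sq hb
  refine ⟨ρ, hρ0, hρ1, ?_⟩
  intro η hη
  obtain ⟨Cd, hCd, hdiv⟩ := card_divisors_le_rpow hη
  have hb0 : (2 : ℝ) ≤ b := by exact_mod_cast hb
  have hbp : (0 : ℝ) < b := by linarith
  have hb1 : (1 : ℝ) ≤ b := by linarith
  have hBp := BB_pos hb
  refine ⟨C1 * b * (2 * BB b) * (1 + Cd), by positivity, ?_⟩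
  intro ℓ k g D hgk hk hD hkD
  set m := (ℓ + 1) / 2 with hm
  have hm1 : 2 * m ≤ ℓ + 1 := by omega
  have S1 := hmain ℓ k g D hgk (by omega) hD
  rw [← hm] at S1
  have S4 := sum_blk_sq_outer hb hη hCd hdiv (ℓ := ℓ) (k := m - k - g - 1) (D := D) (by omega)
  have h := T_sq_le (b := b) (ℓ := ℓ) (D := D) (a := m - k - g - 1) (by omega)
  rw [← hm] at h
  refine h.trans ?_
  set E : ℝ := ((b : ℝ) ^ (ℓ + 1)) ^ η with hE
  have hE1 : 1 ≤ E := Real.one_le_rpow (one_le_pow₀ hb1) hη.le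
  have hDn : (0 : ℝ) ≤ D := Nat.cast_nonneg _
  have h2 : (D : ℝ) ^ 2 / (b : ℝ) ^ (m - k - g - 1) ≤ D := by
    rw [div_le_iff₀ (by positivity), sq]
    refine mul_le_mul_of_nonneg_left ?_ hDn
    exact hD.trans (pow_le_pow_right₀ hb1 (by omega))
  calc (∑ x ∈ J b D, (blk b ℓ (m - k - g - 1) m (pt b x)) ^ 2) *
        ∑ x ∈ J b D, (blk b ℓ 0 (m - k - g - 1) (pt b x)) ^ 2
      ≤ (C1 * (b : ℝ) ^ k * ρ ^ g) *
        (2 * BB b * ((D : ℝ) ^ 2 / (b : ℝ) ^ (m - k - g - 1) + D * (Cd * E))) :=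
        mul_le_mul S1 S4 (Finset.sum_nonneg fun _ _ => by positivity) (by positivity)
    _ ≤ (C1 * (b * D) * ρ ^ g) * (2 * BB b * (D * E + D * (Cd * E))) := by
        have h3 : (D : ℝ) ^ 2 / (b : ℝ) ^ (m - k - g - 1) ≤ D * E :=
          h2.trans (by nlinarith)
        gcongr
    _ = _ := by ring

/-- Bound for moduli small compared with `b ^ ℓ`. -/
lemma T_le_blocks {b : ℕ} (hb : 2 ≤ b) {κ : ℝ} (hκ : IsKappa b κ) {lam : ℕ} (hlam : 1 ≤ lam)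
    {ℓ K D : ℕ} (hK : 3 * lam * (K + 1) ≤ (ℓ + 1) / 2) (hD : (D : ℝ) ^ 2 ≤ (b : ℝ) ^ K) :
    T b ℓ D ≤ 3 * lam * (4 * BB b * (b * (1 + b * κ ^ lam) ^ K)) := by
  set m := (ℓ + 1) / 2 with hm
  have hm1 : 2 * m ≤ ℓ + 1 := by omega
  set n := 3 * lam with hn
  have hn1 : 1 ≤ n := by omega
  -- pointwise bound
  have hpt : ∀ x ∈ J b D, blk b ℓ 0 m (pt b x) ≤
      ∑ j ∈ range n, (blk b ℓ (j * (K + 1)) ((j + 1) * (K + 1)) (pt b x)) ^ n := by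
    intro x _
    set a : ℕ → ℝ := fun j => blk b ℓ (j * (K + 1)) ((j + 1) * (K + 1)) (pt b x) with ha
    have ha0 : ∀ j, 0 ≤ a j := fun j => blk_nonneg _ _ _ _ _
    have h1 : ∀ N : ℕ, blk b ℓ 0 (N * (K + 1)) (pt b x) = ∏ j ∈ range N, a j := by
      intro N
      induction N with
      | zero => simp [blk]
      | succ N ih =>
        rw [Finset.prod_range_succ, ← ih]
        exact (blk_mul b ℓ (Nat.zero_le _) (Nat.mul_le_mul_right _ (Nat.le_succ N)) _).symm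
    have h2 : blk b ℓ 0 m (pt b x) ≤ ∏ j ∈ range n, a j := by
      rw [← h1 n]
      exact blk_le_of_le b ℓ le_rfl hK _
    refine h2.trans ?_
    obtain ⟨j0, hj0, hmax⟩ := exists_max_image (range n) a ⟨0, mem_range.mpr (by omega)⟩
    calc ∏ j ∈ range n, a j ≤ ∏ j ∈ range n, a j0 :=
          Finset.prod_le_prod (fun j _ => ha0 j) hmax
      _ = (a j0) ^ n := by rw [prod_const, card_range]
      _ ≤ ∑ j ∈ range n, (a j) ^ n :=
          Finset.single_le_sum (f := fun j => (a j) ^ n) (fun j _ => pow_nonneg (ha0 j) n) hj0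
  unfold T
  rw [← hm]
  refine (Finset.sum_le_sum hpt).trans ?_
  rw [Finset.sum_comm]
  have h3 : ∀ j ∈ range n, ∑ x ∈ J b D,
      (blk b ℓ (j * (K + 1)) ((j + 1) * (K + 1)) (pt b x)) ^ n ≤
      4 * BB b * (b * (1 + b * κ ^ lam) ^ K) := by
    intro j hj
    rw [mem_range] at hj
    have e1 : (j + 1) * (K + 1) - j * (K + 1) - 1 = K := by
      have : (j + 1) * (K + 1) = j * (K + 1) + (K + 1) := by ring
      omega
    have e2 : (j + 1) * (K + 1) ≤ m := (Nat.mul_le_mul_right _ (by omega : j + 1 ≤ n)).trans hK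
    have e3 : j * (K + 1) < (j + 1) * (K + 1) := by
      have : (j + 1) * (K + 1) = j * (K + 1) + (K + 1) := by ring
      omega
    have := sum_blk_pow hb hκ (D := D) (ℓ := ℓ) e3 (by omega) (by rw [e1]; exact hD) lam
    rw [e1] at this
    exact this
  refine (Finset.sum_le_sum h3).trans ?_
  rw [sum_const, card_range, nsmul_eq_mul, hn]
  push_cast
  exact le_rfl

/-- If many successive shifts are near integers then the point is very near an integer. -/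
lemma near_of_shifts {b : ℕ} (hb : 2 ≤ b) (s : ℕ) : ∀ β : ℝ,
    (∀ r < s + 1, ∃ n : ℤ, |(b : ℝ) ^ r * β - n| ≤ 3 / (8 * b)) →
    ∃ n : ℤ, |β - n| ≤ 3 / 8 / (b : ℝ) ^ (s + 1) := by
  have hb0 : (2 : ℝ) ≤ b := by exact_mod_cast hb
  have hbp : (0 : ℝ) < b := by linarith
  induction s with
  | zero =>
    intro β h
    obtain ⟨n, hn⟩ := h 0 (by omega)
    refine ⟨n, ?_⟩
    rw [pow_zero, one_mul] at hn
    refine hn.trans (le_of_eq ?_)
    rw [zero_add, pow_one, div_div]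
  | succ s ih =>
    intro β h
    obtain ⟨n', hn'⟩ := ih (b * β) (by
      intro r hr
      obtain ⟨n, hn⟩ := h (r + 1) (by omega)
      refine ⟨n, ?_⟩
      rw [pow_succ, mul_assoc] at hn
      exact hn)
    obtain ⟨n, hn⟩ := h 0 (by omega)
    rw [pow_zero, one_mul] at hn
    have hpow : (2 : ℝ) ≤ (b : ℝ) ^ (s + 1) := by
      calc (2 : ℝ) ≤ b := hb0
        _ = (b : ℝ) ^ 1 := (pow_one _).symm
        _ ≤ (b : ℝ) ^ (s + 1) := pow_le_pow_right₀ (by linarith) (by omega)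
    have hq : 3 / 8 / (b : ℝ) ^ (s + 1) ≤ 3 / 16 := by
      rw [div_div, div_le_div_iff₀ (by positivity) (by norm_num)]
      linarith
    have h1 : n' = b * n := by
      have h3 : ((n' - b * n : ℤ) : ℝ) = b * (β - n) - (b * β - n') := by push_cast; ring
      have h4 : |((n' - b * n : ℤ) : ℝ)| < 1 := by
        rw [h3, abs_lt]
        have hB : (b : ℝ) * (3 / (8 * b)) = 3 / 8 := by field_simp
        rw [abs_le] at hn hn'
        constructor <;> nlinarith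
      have h5 : |n' - b * n| < 1 := by exact_mod_cast h4
      have := Int.abs_lt_one_iff.mp h5
      linarith
    refine ⟨n, ?_⟩
    rw [h1] at hn'
    have h2 : (b : ℝ) * β - ((b * n : ℤ) : ℝ) = b * (β - n) := by push_cast; ring
    rw [h2, abs_mul, abs_of_pos hbp] at hn'
    rw [pow_succ, ← div_div, le_div_iff₀ hbp]
    linarith

/-- Windows of indices contain bad indices. -/
lemma blk_window_le {b : ℕ} (hb : 2 ≤ b) {κ : ℝ} (hκ : IsKappa b κ) {ℓ i s D : ℕ} {x : ℕ × ℕ}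
    (hD : 2 ≤ D) (hx : x ∈ J b D) (hi : i + s + 1 < ℓ) (hs : 2 * D ≤ b ^ (s + 1)) :
    blk b ℓ i (i + (s + 2)) (pt b x) ≤ κ := by
  have hb0 : (2 : ℝ) ≤ b := by exact_mod_cast hb
  have hbp : (0 : ℝ) < b := by linarith
  obtain ⟨hκ0, hκ1, hκ2⟩ := hκ
  have hbad : ∃ j ∈ Ico i (i + (s + 2)), bad b ℓ (pt b x) j := by
    by_contra hnot
    push Not at hnot
    have hgood : ∀ j ∈ Ico i (i + (s + 2)), ∃ n : ℤ,
        |pt b x * wt b ℓ j - n| ≤ 1 / (4 * (b : ℝ) ^ 2) := by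
      intro j hj
      have := hnot j hj
      unfold bad at this
      push Not at this
      obtain ⟨n, hn⟩ := this
      exact ⟨n, hn.le⟩
    set z : ℝ := ((b ^ 2 - 1 : ℕ) : ℝ) * pt b x with hz
    set β : ℝ := (b : ℝ) ^ (ℓ - (i + s) - 1) * z with hβ
    obtain ⟨n, hn⟩ := near_of_shifts hb s β (by
      intro r hr
      obtain ⟨n1, hn1⟩ := hgood (i + s - r) (mem_Ico.mpr ⟨by omega, by omega⟩)
      obtain ⟨n2, hn2⟩ := hgood (i + s - r + 1) (mem_Ico.mpr ⟨by omega, by omega⟩)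
      have := near_of_good hb (ℓ := ℓ) (i := i + s - r) (by omega) hn1 hn2
      refine ⟨b * n1 - n2, ?_⟩
      have e : (b : ℝ) ^ r * β = (b : ℝ) ^ (ℓ - (i + s - r) - 1) * z := by
        rw [hβ, ← mul_assoc, ← pow_add]
        congr 2; omega
      rw [e]
      exact this)
    rw [mem_J] at hx
    obtain ⟨h1, h2, h3, h4, h5⟩ := hx
    have hx1 : 0 < x.1 := by omega
    have hx1r : (0 : ℝ) < x.1 := by exact_mod_cast hx1
    have hBp : (0 : ℝ) < ((b ^ 2 - 1 : ℕ) : ℝ) := BB_pos hb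
    have hzeq : z = (x.2 : ℝ) / x.1 := by
      rw [hz]; unfold pt; push_cast; field_simp
    set e := ℓ - (i + s) - 1 with he
    have hne : ((b : ℤ) ^ e * x.2 - n * x.1) ≠ 0 := by
      intro h0
      have h6 : (x.1 : ℤ) ∣ (b : ℤ) ^ e * x.2 := ⟨n, by linarith⟩
      have h7 : x.1 ∣ b ^ e * x.2 := by exact_mod_cast h6
      have h8 : x.1.Coprime (b ^ e * x.2) :=
        Nat.Coprime.mul_right (Nat.Coprime.pow_right _ h3) h5.symm
      have h9 : x.1 = 1 := Nat.Coprime.eq_one_of_dvd h8 h7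
      omega
    have habs : (1 : ℝ) ≤ |(((b : ℤ) ^ e * x.2 - n * x.1 : ℤ) : ℝ)| := by
      have := Int.one_le_abs hne
      exact_mod_cast this
    have h6 : β - n = (((b : ℤ) ^ e * x.2 - n * x.1 : ℤ) : ℝ) / x.1 := by
      rw [hβ, hzeq]; push_cast; field_simp
    rw [h6, abs_div, abs_of_pos hx1r, div_le_iff₀ hx1r] at hn
    have h7 : (x.1 : ℝ) ≤ (b : ℝ) ^ (s + 1) := by
      have : x.1 ≤ b ^ (s + 1) := by omega
      exact_mod_cast this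
    have h8 : 3 / 8 / (b : ℝ) ^ (s + 1) * x.1 ≤ 3 / 8 := by
      rw [div_mul_eq_mul_div, div_le_iff₀ (by positivity)]
      nlinarith
    linarith
  obtain ⟨j, hj, hbj⟩ := hbad
  unfold blk
  rw [← Finset.mul_prod_erase _ _ hj]
  calc phi b (pt b x * wt b ℓ j) * ∏ i ∈ (Ico i (i + (s + 2))).erase j, phi b (pt b x * wt b ℓ i)
      ≤ κ * 1 := mul_le_mul (hκ2 _ hbj)
        (Finset.prod_le_one (fun _ _ => phi_nonneg _ _) fun _ _ => phi_le_one _ _)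
        (Finset.prod_nonneg fun _ _ => phi_nonneg _ _) hκ0.le
    _ = κ := mul_one _

/-- Pointwise bound for very small denominators. -/
lemma blk_le_pow_windows {b : ℕ} (hb : 2 ≤ b) {κ : ℝ} (hκ : IsKappa b κ) {ℓ s D : ℕ} {x : ℕ × ℕ}
    (hD : 2 ≤ D) (hx : x ∈ J b D) (hs : 2 * D ≤ b ^ (s + 1)) (N : ℕ)
    (hN : N * (s + 2) ≤ (ℓ + 1) / 2) :
    blk b ℓ 0 (N * (s + 2)) (pt b x) ≤ κ ^ N := by
  induction N with
  | zero => simp [blk]
  | succ N ih =>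
    have e : (N + 1) * (s + 2) = N * (s + 2) + (s + 2) := by ring
    rw [e] at hN ⊢
    rw [← blk_mul b ℓ (Nat.zero_le (N * (s + 2))) (Nat.le_add_right _ _), pow_succ]
    exact mul_le_mul (ih (by omega)) (blk_window_le hb hκ hD hx (by omega) hs)
      (blk_nonneg _ _ _ _ _) (pow_nonneg hκ.1.le _)

lemma T_le_windows {b : ℕ} (hb : 2 ≤ b) {κ : ℝ} (hκ : IsKappa b κ) {ℓ s D : ℕ}
    (hD : 2 ≤ D) (hs : 2 * D ≤ b ^ (s + 1)) (N : ℕ) (hN : N * (s + 2) ≤ (ℓ + 1) / 2) :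
    T b ℓ D ≤ 2 * BB b * (D : ℝ) ^ 2 * κ ^ N := by
  unfold T
  calc ∑ x ∈ J b D, blk b ℓ 0 ((ℓ + 1) / 2) (pt b x) ≤ ∑ x ∈ J b D, κ ^ N :=
        Finset.sum_le_sum fun x hx => (blk_le_of_le b ℓ le_rfl hN _).trans
          (blk_le_pow_windows hb hκ hD hx hs N hN)
    _ = ((J b D).card : ℝ) * κ ^ N := by rw [sum_const, nsmul_eq_mul]
    _ ≤ _ := mul_le_mul_of_nonneg_right card_J_le (pow_nonneg hκ.1.le _)

end Pool.Agent.Pal
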